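import Pool.Agent.TH395.P5.Tab

set_option autoImplicit false
set_option maxRecDepth 100000

/-! # Certificates, part 2 -/

namespace Pool.Agent.TH395.P5

def c78 : CA := .split (.split (.split (.split (.fin (.split (.iso 124 [0,1,2,3,4,5,6,7,8,10,9] [0,1,2,3,4,5,6,7,8,10,9]) (.deg 10))) (.fin (.split (.split (.iso 129 [0,1,2,3,4,5,6,7,8,9,10] [0,1,2,3,4,5,6,7,8,9,10]) (.deg 9)) (.deg 10)))) (.split (.fin (.split (.split (.red [2,2,2,2,2,2,2,2,2,1,1,0,0,0] [0,1,2,3,4] [5]) (.red [0,0,2,0,0,0,0,0,0,0,0,0,0,0] [0,1,3,4] [2,5])) (.deg 10))) (.far 8 9))) (.split (.split (.fin (.split (.split (.iso 132 [0,1,2,3,5,4,6,8,9,7,10] [0,1,2,3,5,4,6,9,7,8,10]) (.red [1,2,2,2,1,2,2,2,1,1,2,2,0,2] [0,2,3,4] [1,5])) (.deg 10))) (.fin (.split (.split (.split (.iso 133 [0,1,2,3,5,4,6,8,7,9,10] [0,1,2,3,5,4,6,8,7,9,10]) (.red [0,0,0,0,0,0,0,0,0,0,0,0,0,2,0] [0,2,3,4] [1,5])) (.deg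 9)) (.deg 10)))) (.far 7 8))) (.split (.split (.split (.fin (.split (.split (.iso 132 [0,2,1,3,4,5,7,8,9,6,10] [0,2,1,3,4,5,9,6,7,8,10]) (.red [2,1,2,1,2,2,1,2,2,1,2,2,0,2] [1,2,3,4] [0,5])) (.deg 10))) (.fin (.split (.split (.split (.iso 133 [0,2,1,3,4,5,7,8,6,9,10] [0,2,1,3,4,5,8,6,7,9,10]) (.red [0,0,0,0,0,0,0,0,0,0,0,0,0,2,0] [1,2,3,4] [0,5])) (.deg 9)) (.deg 10)))) (.far 6 8)) (.split (.split (.fin (.split (.split (.split (.iso 128 [0,1,2,3,4,5,6,8,9,7,10] [0,1,2,3,4,5,6,9,7,8,10]) (.red [2,1,2,1,2,2,1,2,2,1,2,2,2,0,0] [1,2,3,4] [0,5])) (.split (.red [1,2,2,2,1,2,2,2,1,1,2,2,2,0,0] [0,2,3,4] [1,5]) (.clo 0 1 (.deg 9)))) (.deg 10))) (.pet [[0],[1],[4],[7],[2],[3,9],[6],[8],[10],[5]])) (.far 7 8)))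

theorem ok78 : chkA tbl q78 c78 q78.rt [] [] = true := by decide +kernel

def c79 : CA := .split (.split (.split (.split (.split (.fin (.split .big (.deg 10))) (.fin (.split (.split .big (.deg 9)) (.deg 10)))) (.split (.fin (.split (.split .big (.iso 149 [0,3,1,8,4,2,9,5,10,7,6] [0,2,5,1,4,7,10,9,3,6,8])) (.deg 10))) (.far 8 9))) (.split (.split (.fin (.split (.split .big (.iso 149 [0,2,1,7,4,3,6,5,10,8,9] [0,2,1,5,4,7,6,3,9,10,8])) (.deg 10))) (.fin (.split (.split (.split .big (.red [0,0,0,0,0,0,0,0,0,0,0,2,0] [0,2,3,4,5] [1])) (.deg 9)) (.deg 10)))) (.far 7 8))) (.split (.split (.split (.fin (.split (.split .big (.deg 6)) (.deg 10))) (.fin (.split (.split (.split .big (.deg 6)) (.deg 9)) (.deg 10)))) (.split (.fin (.split (.split (.split .big (.deg 6)) (.split (.red [0,0,0,0,0,0,0,0,0,0,0,0,2] [0,1,3,4,5] [2]) (.deg 6))) (.deg 10))) (.far 8 9))) (.far 6 7)))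 (.split (.split (.split (.split (.fin (.split (.split .big (.deg 5)) (.deg 10))) (.fin (.split (.split (.split .big (.deg 5)) (.deg 9)) (.deg 10)))) (.split (.fin (.split (.split (.split .big (.deg 5)) (.split (.iso 167 [0,3,1,4,8,2,9,7,6,5,10] [0,2,5,1,3,9,8,7,4,6,10]) (.deg 5))) (.deg 10))) (.far 8 9))) (.split (.split (.fin (.split (.split (.split .big (.deg 5)) (.split (.iso 167 [0,2,1,4,7,3,6,8,9,5,10] [0,2,1,5,3,9,6,4,7,8,10]) (.deg 5))) (.deg 10))) (.fin (.split (.split (.split (.split .big (.deg 5)) (.split (.red [0,0,0,0,0,0,0,0,0,0,0,2,0,0] [0,2,3,4,5] [1]) (.deg 5))) (.deg 9)) (.split (.split (.split (.red [0,0,0,0,0,0,0,0,0,0,2,0,0,0] [0,1,2,4,5] [3]) (.deg 5)) (.split (.red [0,0,0,0,0,0,0,0,0,0,2,0,0,0] [0,2,4,5] [1,3]) (.deg 5))) (.deg 9))))) (.far 7 8))) (.split (.split (.split (.fin (.split (.split (.split .big (.deg 5)) (.deg 6)) (.deg 10))) (.fin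 (.split (.split (.split (.split .big (.deg 5)) (.deg 6)) (.deg 9)) (.split (.split (.split (.red [2,0,0,1,0,2,0,2,0,2,0,0,2,1] [0,1,2,4,5] [3]) (.deg 5)) (.deg 6)) (.deg 9))))) (.split (.fin (.split (.split (.split (.split .big (.deg 5)) (.deg 6)) (.split (.split (.red [0,0,0,0,0,0,0,0,0,0,0,0,2,0] [0,1,3,4,5] [2]) (.deg 5)) (.deg 6))) (.split (.split (.split (.red [0,0,0,0,0,2,0,0,0,0,0,0,0,0] [0,1,2,4,5] [3]) (.deg 5)) (.deg 6)) (.split (.split (.red [0,0,0,0,0,2,0,0,0,0,0,0,0,0] [0,1,4,5] [2,3]) (.deg 5)) (.deg 6))))) (.far 8 9))) (.far 6 7)))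

theorem ok79 : chkA tbl q79 c79 q79.rt [] [] = true := by decide +kernel

def c80 : CA := .split (.split (.split (.split (.split (.fin (.split .big (.deg 10))) (.fin (.split (.split .big (.red [2,1,2,1,2,2,0,2,1,2,2,1,0] [0,1,2,3,5] [4])) (.deg 10)))) (.split (.fin (.split (.split .big (.red [1,2,2,2,2,0,1,0,2,1,1,2,2] [0,1,3,4,5] [2])) (.deg 10))) (.far 8 9))) (.split (.split (.fin (.split (.split .big (.red [2,0,0,0,0,0,0,0,0,0,0,0,0] [0,2,3,4,5] [1])) (.deg 10))) (.far 7 9)) (.far 7 8))) (.split (.split (.split (.fin (.split (.split .big (.deg 6)) (.deg 10))) (.fin (.split (.split (.split .big (.deg 6)) (.split (.red [2,1,2,1,2,2,2,2,1,2,2,1,0,0] [0,1,2,3,5] [4]) (.deg 6))) (.deg 10)))) (.split (.fin (.split (.split (.split .big (.deg 6)) (.split (.red [0,0,0,0,0,0,0,0,0,0,0,0,0,2] [0,1,3,4,5] [2]) (.deg 6))) (.deg 10))) (.far 8 9))) (.far 6 7))) (.split (.split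 (.split (.split (.fin (.split (.split .big (.deg 5)) (.deg 10))) (.fin (.split (.split (.split .big (.deg 5)) (.split (.red [0,0,0,0,0,0,0,0,0,0,0,0,0,2] [0,1,2,3,5] [4]) (.deg 5))) (.deg 10)))) (.split (.fin (.split (.split (.split .big (.deg 5)) (.split (.red [1,2,2,2,2,2,1,2,2,1,1,2,0,0] [0,1,3,4,5] [2]) (.deg 5))) (.deg 10))) (.far 8 9))) (.split (.split (.fin (.split (.split (.split .big (.deg 5)) (.split (.red [2,0,0,0,0,0,0,0,0,0,0,0,0,0] [0,2,3,4,5] [1]) (.deg 5))) (.deg 10))) (.far 7 9)) (.far 7 8))) (.split (.split (.split (.fin (.split (.split (.split .big (.deg 5)) (.deg 6)) (.deg 10))) (.fin (.split (.split (.split (.split .big (.deg 5)) (.deg 6)) (.split (.split (.red [0,0,0,0,0,0,0,0,0,0,0,0,0,0,2] [0,1,2,3,5] [4]) (.deg 5)) (.deg 6))) (.split (.split (.split (.red [0,0,0,0,2,0,0,0,0,0,0,0,0,0,0] [0,1,2,4,5] [3]) (.deg 5)) (.deg 6)) (.split (.split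 (.red [0,0,0,0,2,0,0,0,0,0,0,0,0,0,0] [0,1,2,5] [3,4]) (.deg 5)) (.deg 6)))))) (.split (.fin (.split (.split (.split (.split .big (.deg 5)) (.deg 6)) (.split (.split (.red [0,0,0,0,0,0,0,0,0,0,0,0,0,2,0] [0,1,3,4,5] [2]) (.deg 5)) (.deg 6))) (.split (.split (.split (.red [0,0,0,0,0,2,0,0,0,0,0,0,0,0,0] [0,1,2,4,5] [3]) (.deg 5)) (.deg 6)) (.split (.split (.red [0,0,0,0,0,0,0,0,0,0,0,0,0,2,0] [0,1,4,5] [2,3]) (.deg 5)) (.deg 6))))) (.far 8 9))) (.far 6 7)))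

theorem ok80 : chkA tbl q80 c80 q80.rt [] [] = true := by decide +kernel

def c81 : CA := .split (.split (.split (.split (.split (.fin (.split .big (.deg 10))) (.fin (.split (.split .big (.red [2,1,2,1,2,2,2,1,2,2,2,2,1,0] [0,1,3,4,5] [2])) (.deg 10)))) (.split (.fin (.split (.split .big (.red [2,2,1,1,2,1,2,2,2,2,1,2,2,0] [0,1,2,3,5] [4])) (.deg 10))) (.fin (.split (.split (.split .big (.red [2,2,1,1,2,1,2,2,2,2,1,2,2,0,0] [0,1,2,3,5] [4])) (.split (.red [2,1,2,1,2,2,2,1,2,2,2,2,1,0,0] [0,1,3,4,5] [2]) (.red [2,2,1,1,0,1,2,2,2,2,0,2,2,1,2] [0,1,3,5] [2,4]))) (.deg 10))))) (.split (.split (.fin (.split (.split .big (.red [2,0,0,0,0,0,0,0,0,0,0,0,0,0] [0,2,3,4,5] [1])) (.deg 10))) (.far 7 9)) (.far 7 8))) (.split (.split (.split (.fin (.split (.split .big (.red [2,0,0,0,0,0,0,0,0,0,0,0,0,0] [1,2,3,4,5] [0])) (.deg 10))) (.far 6 9)) (.far 6 8)) (.far 6 7))) (.split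 (.split (.split (.split (.fin (.split (.split .big (.deg 5)) (.deg 10))) (.fin (.split (.split (.split .big (.deg 5)) (.split (.red [0,0,0,0,0,0,0,0,0,0,0,0,0,0,2] [0,1,3,4,5] [2]) (.deg 5))) (.deg 10)))) (.split (.fin (.split (.split (.split .big (.deg 5)) (.split (.red [0,0,0,0,0,0,0,0,0,0,0,0,0,0,2] [0,1,2,3,5] [4]) (.deg 5))) (.deg 10))) (.pet [[0],[1,5],[4],[6],[2],[3],[10],[7],[9],[8]]))) (.split (.split (.fin (.split (.split (.split .big (.deg 5)) (.split (.red [2,0,0,0,0,0,0,0,0,0,0,0,0,0,0] [0,2,3,4,5] [1]) (.deg 5))) (.deg 10))) (.far 7 9)) (.far 7 8))) (.split (.split (.split (.fin (.split (.split (.split .big (.deg 5)) (.split (.red [2,0,0,0,0,0,0,0,0,0,0,0,0,0,0] [1,2,3,4,5] [0]) (.deg 5))) (.deg 10))) (.far 6 9)) (.far 6 8)) (.far 6 7)))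

theorem ok81 : chkA tbl q81 c81 q81.rt [] [] = true := by decide +kernel

def c82 : CA := .split (.split (.split (.split (.split (.fin (.split .big (.deg 10))) (.fin (.split (.split .big (.iso 126 [0,3,1,2,9,4,8,10,7,6,5] [0,2,3,1,5,10,9,8,6,4,7])) (.deg 10)))) (.split (.fin (.split (.split .big (.red [2,2,1,1,2,1,2,2,2,2,2,1,0] [0,1,2,3,5] [4])) (.deg 10))) (.far 8 9))) (.split (.split (.fin (.split (.split .big (.red [1,2,2,2,0,1,2,2,1,2,1,2,2] [0,1,3,4,5] [2])) (.deg 10))) (.far 7 9)) (.split (.fin (.split (.split (.split .big (.red [1,2,2,2,2,1,2,2,1,2,1,2,0,0] [0,1,3,4,5] [2])) (.split (.red [2,2,1,1,2,1,2,2,2,2,2,1,0,0] [0,1,2,3,5] [4]) (.red [1,2,2,2,2,1,2,2,1,2,1,2,0,0] [0,1,3,5] [2,4]))) (.deg 10))) (.far 8 9)))) (.split (.split (.split (.fin (.split (.split .big (.iso 151 [0,2,1,6,4,3,5,10,7,8,9] [0,2,1,5,4,6,3,8,9,10,7])) (.deg 10))) (.fin (.split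 (.split (.split .big (.red [0,0,0,0,0,0,0,0,0,0,0,0,2,0] [1,2,3,4,5] [0])) (.split (.red [0,0,0,0,0,0,0,0,0,0,0,0,0,2] [0,2,3,4,5] [1]) (.red [0,0,0,0,0,0,0,0,0,0,0,0,0,2] [2,3,4,5] [0,1]))) (.deg 10)))) (.split (.fin (.split (.split (.split .big (.red [0,2,0,0,0,0,0,0,0,0,0,0,0,0] [1,2,3,4,5] [0])) (.split (.red [2,0,0,0,0,0,0,0,0,0,0,0,0,0] [0,1,2,3,5] [4]) (.red [2,0,0,0,0,0,0,0,0,0,0,0,0,0] [1,2,3,5] [0,4]))) (.deg 10))) (.far 8 9))) (.far 6 7))) (.split (.split (.split (.split (.fin (.split (.split .big (.deg 5)) (.deg 10))) (.fin (.split (.split (.split .big (.deg 5)) (.split (.red [0,0,0,0,0,0,0,0,0,2,0,0,0,0] [0,2,3,4,5] [1]) (.deg 5))) (.deg 10)))) (.split (.fin (.split (.split (.split .big (.deg 5)) (.split (.red [0,0,0,0,0,0,0,0,0,0,0,0,0,2] [0,1,2,3,5] [4]) (.deg 5))) (.deg 10))) (.far 8 9))) (.split (.split (.fin (.split (.split (.split .big (.deg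 5)) (.split (.red [0,0,0,0,0,0,0,0,0,0,0,0,0,2] [0,1,3,4,5] [2]) (.deg 5))) (.deg 10))) (.far 7 9)) (.split (.fin (.split (.split (.split (.split .big (.deg 5)) (.split (.red [0,0,0,0,0,0,0,0,0,0,0,0,0,0,2] [0,1,3,4,5] [2]) (.deg 5))) (.split (.split (.red [0,0,0,0,0,0,0,0,0,0,0,0,0,0,2] [0,1,2,3,5] [4]) (.deg 5)) (.split (.red [0,0,0,0,0,0,0,0,0,0,0,0,0,0,2] [0,1,3,5] [2,4]) (.deg 5)))) (.split (.split (.split (.red [0,0,0,0,2,0,0,0,0,0,0,0,0,0,0] [0,1,2,4,5] [3]) (.deg 5)) (.split (.red [0,0,0,0,2,0,0,0,0,0,0,0,0,0,0] [0,1,4,5] [2,3]) (.deg 5))) (.split (.split (.red [0,0,0,0,2,0,0,0,0,0,0,0,0,0,0] [0,1,2,5] [3,4]) (.deg 5)) (.split (.clo 0 1 (.pet [[0,2],[1],[4,6],[7],[3],[5],[8],[11],[10],[9]])) (.deg 5)))))) (.far 8 9)))) (.far 5 6))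

theorem ok82 : chkA tbl q82 c82 q82.rt [] [] = true := by decide +kernel

def c83 : CA := .split (.split (.split (.split (.split (.fin (.split .big (.deg 10))) (.fin (.split (.split .big (.red [2,0,0,0,0,0,0,0,0,0,0,0,0,0] [0,2,3,4,5] [1])) (.deg 10)))) (.split (.fin (.split (.split .big (.red [2,2,1,1,2,1,2,2,2,2,2,2,1,0] [0,1,2,3,5] [4])) (.deg 10))) (.far 8 9))) (.split (.split (.fin (.split (.split .big (.red [1,2,2,2,0,1,2,2,1,2,1,2,2,2] [0,1,3,4,5] [2])) (.deg 10))) (.far 7 9)) (.split (.fin (.split (.split (.split .big (.red [1,2,2,2,2,1,2,2,1,2,1,2,2,0,0] [0,1,3,4,5] [2])) (.split (.red [2,2,1,1,2,1,2,2,2,2,2,2,1,0,0] [0,1,2,3,5] [4]) (.red [2,2,2,2,0,1,1,2,2,2,1,2,0,2,2] [0,1,3,5] [2,4]))) (.deg 10))) (.far 8 9)))) (.split (.split (.split (.fin (.split (.split .big (.red [2,0,0,0,0,0,0,0,0,0,0,0,0,0] [1,2,3,4,5] [0])) (.deg 10))) (.far 6 9)) (.far 6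 8)) (.far 6 7))) (.split (.split (.split (.split (.fin (.split (.split .big (.deg 5)) (.deg 10))) (.fin (.split (.split (.split .big (.deg 5)) (.split (.red [2,0,0,0,0,0,0,0,0,0,0,0,0,0,0] [0,2,3,4,5] [1]) (.deg 5))) (.deg 10)))) (.split (.fin (.split (.split (.split .big (.deg 5)) (.split (.red [0,0,0,0,0,0,0,0,0,0,0,0,0,0,2] [0,1,2,3,5] [4]) (.deg 5))) (.deg 10))) (.far 8 9))) (.split (.split (.fin (.split (.split (.split .big (.deg 5)) (.split (.red [0,0,0,0,0,0,0,0,0,0,0,0,0,0,2] [0,1,3,4,5] [2]) (.deg 5))) (.deg 10))) (.far 7 9)) (.split (.pet [[0],[1],[4],[6],[2,5],[3],[8],[7],[9],[10]]) (.far 8 9)))) (.far 5 6))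

theorem ok83 : chkA tbl q83 c83 q83.rt [] [] = true := by decide +kernel

def c84 : CA := .split (.split (.split (.split (.split (.fin (.split .big (.deg 10))) (.fin (.split (.split .big (.red [1,2,2,2,2,1,1,2,2,0,2,2,1,0] [0,1,3,4,5] [2])) (.deg 10)))) (.split (.fin (.split (.split .big (.red [2,2,1,1,1,2,2,2,0,2,1,2,0,2] [0,2,3,4,5] [1])) (.deg 10))) (.fin (.split (.split (.split .big (.red [0,2,0,0,0,0,0,0,0,0,0,0,0,0,0] [0,2,3,4,5] [1])) (.split (.red [2,0,0,0,0,0,0,0,0,0,0,0,0,0,0] [0,1,3,4,5] [2]) (.red [2,0,0,0,0,0,0,0,0,0,0,0,0,0,0] [0,3,4,5] [1,2]))) (.deg 10))))) (.split (.split (.fin (.split (.split .big (.red [2,2,1,1,1,2,2,2,2,0,0,2,1,2] [0,1,2,3,5] [4])) (.deg 10))) (.far 7 9)) (.split (.fin (.split (.split (.split .big (.red [0,0,0,0,0,0,0,0,0,0,0,0,0,2,0] [0,1,2,3,5] [4])) (.split (.red [0,0,0,0,0,0,0,0,0,0,0,0,0,0,2] [0,2,3,4,5] [1]) (.red [0,0,0,0,0,0,0,0,0,0,0,0,0,0,2]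 [0,2,3,5] [1,4]))) (.deg 10))) (.far 7 9)))) (.split (.split (.split (.fin (.split (.split .big (.red [2,0,0,0,0,0,0,0,0,0,0,0,0,0] [1,2,3,4,5] [0])) (.deg 10))) (.far 6 9)) (.far 6 8)) (.split (.split (.fin (.split (.split (.split .big (.red [2,0,0,0,0,0,0,0,0,0,0,0,0,0,0] [1,2,3,4,5] [0])) (.split (.red [2,0,0,0,0,0,0,0,0,0,0,0,0,0,0] [0,1,2,3,5] [4]) (.red [2,0,0,0,0,0,0,0,0,0,0,0,0,0,0] [1,2,3,5] [0,4]))) (.deg 10))) (.far 7 9)) (.far 6 8)))) (.split (.split (.split (.split (.fin (.split (.split .big (.red [1,2,2,2,2,1,1,2,2,1,2,0,0,2] [0,1,2,3,4] [5])) (.deg 10))) (.fin (.split (.split (.split .big (.red [0,0,0,0,0,0,0,0,0,0,0,0,0,2,0] [0,1,2,3,4] [5])) (.split (.red [0,0,0,0,0,0,0,0,0,0,0,0,0,0,2] [0,1,3,4,5] [2]) (.red [0,0,0,0,0,0,0,0,0,0,0,0,0,0,2] [0,1,3,4] [2,5]))) (.deg 10)))) (.far 5 8)) (.split (.split (.fin (.split (.split (.split .big (.red [0,2,0,0,0,0,0,0,0,0,0,0,0,0,0]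 [0,1,2,3,4] [5])) (.split (.red [2,0,0,0,0,0,0,0,0,0,0,0,0,0,0] [0,1,2,3,5] [4]) (.red [2,0,0,0,0,0,0,0,0,0,0,0,0,0,0] [0,1,2,3] [4,5]))) (.deg 10))) (.far 7 9)) (.far 5 8))) (.far 5 6))

theorem ok84 : chkA tbl q84 c84 q84.rt [] [] = true := by decide +kernel

def c85 : CA := .split (.split (.split (.split (.split (.fin (.split .big (.deg 10))) (.fin (.split (.split .big (.red [2,0,0,0,0,0,0,0,0,0,0,0,0,0] [0,1,2,4,5] [3])) (.deg 10)))) (.split (.fin (.split (.split .big (.red [1,2,2,2,2,1,1,2,0,2,2,2,1,0] [0,1,3,4,5] [2])) (.deg 10))) (.far 8 9))) (.split (.split (.fin (.split (.split .big (.red [1,2,2,2,1,2,2,1,2,0,2,1,2,0] [0,1,2,3,5] [4])) (.deg 10))) (.far 7 9)) (.far 7 8))) (.split (.split (.split (.fin (.split (.split .big (.red [1,2,2,2,1,2,2,1,0,1,2,0,2,2] [1,2,3,4,5] [0])) (.deg 10))) (.fin (.split (.split (.split .big (.red [0,0,2,0,0,0,0,0,0,0,0,0,0,0,0]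 [1,2,3,4,5] [0])) (.split (.red [2,0,0,0,0,0,0,0,0,0,0,0,0,0,0] [0,1,2,4,5] [3]) (.red [2,0,0,0,0,0,0,0,0,0,0,0,0,0,0] [1,2,4,5] [0,3]))) (.deg 10)))) (.far 6 8)) (.split (.split (.fin (.split (.split (.split .big (.red [0,0,0,0,0,0,0,0,0,0,0,0,0,2,0] [1,2,3,4,5] [0])) (.split (.red [0,0,0,0,0,0,0,0,0,0,0,0,0,0,2] [0,1,2,3,5] [4]) (.red [0,0,0,0,0,0,0,0,0,0,0,0,0,0,2] [1,2,3,5] [0,4]))) (.deg 10))) (.far 7 9)) (.far 7 8)))) (.split (.split (.split (.split (.fin (.split (.split .big (.red [1,2,2,2,2,1,1,2,1,0,2,2,0,2] [0,1,2,3,4] [5])) (.deg 10))) (.fin (.split (.split (.split .big (.red [0,2,0,0,0,0,0,0,0,0,0,0,0,0,0] [0,1,2,3,4] [5])) (.split (.red [2,0,0,0,0,0,0,0,0,0,0,0,0,0,0] [0,1,2,4,5] [3]) (.red [2,0,0,0,0,0,0,0,0,0,0,0,0,0,0] [0,1,2,4] [3,5]))) (.deg 10)))) (.split (.fin (.split (.split (.split .big (.red [0,0,0,0,0,0,0,0,0,0,0,0,0,2,0] [0,1,2,3,4] [5]))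 (.split (.red [0,0,0,0,0,0,0,0,0,0,0,0,0,0,2] [0,1,3,4,5] [2]) (.red [0,0,0,0,0,0,0,0,0,0,0,0,0,0,2] [0,1,3,4] [2,5]))) (.deg 10))) (.far 8 9))) (.far 5 7)) (.far 5 6))

theorem ok85 : chkA tbl q85 c85 q85.rt [] [] = true := by decide +kernel

def c86 : CA := .split (.split (.split (.split (.split (.fin (.split .big (.deg 10))) (.fin (.split (.split .big (.red [2,0,0,0,0,0,0,0,0,0,0,0,0,0,0] [0,2,3,4,5] [1])) (.deg 10)))) (.split (.fin (.split (.split .big (.red [2,0,0,0,0,0,0,0,0,0,0,0,0,0,0] [0,1,2,4,5] [3])) (.deg 10))) (.far 8 9))) (.split (.split (.fin (.split (.split .big (.red [1,2,2,2,2,1,1,2,2,2,1,0,2,2,0] [0,1,2,3,5] [4])) (.deg 10))) (.far 7 9)) (.far 7 8))) (.split (.split (.split (.fin (.split (.split .big (.red [2,0,0,0,0,0,0,0,0,0,0,0,0,0,0] [1,2,3,4,5] [0])) (.deg 10))) (.far 6 9)) (.far 6 8)) (.far 6 7))) (.split (.split (.split (.split (.fin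 (.split (.split .big (.red [1,2,2,2,2,1,1,2,0,2,0,1,2,2,2] [0,1,2,3,4] [5])) (.deg 10))) (.far 5 9)) (.split (.fin (.split (.split (.split .big (.red [0,2,0,0,0,0,0,0,0,0,0,0,0,0,0,0] [0,1,2,3,4] [5])) (.split (.red [2,0,0,0,0,0,0,0,0,0,0,0,0,0,0,0] [0,1,2,4,5] [3]) (.red [2,0,0,0,0,0,0,0,0,0,0,0,0,0,0,0] [0,1,2,4] [3,5]))) (.deg 10))) (.far 8 9))) (.split (.split (.pet [[0],[1],[4],[5,10],[2],[3],[8],[6],[7],[9]]) (.far 7 9)) (.far 7 8))) (.far 5 6))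

theorem ok86 : chkA tbl q86 c86 q86.rt [] [] = true := by decide +kernel

def c87 : CA := .split (.split (.split (.split (.split (.fin (.split .big (.deg 10))) (.fin (.split (.split .big (.red [2,0,0,0,0,0,0,0,0,0,0,0,0,0,0] [0,1,3,4,5] [2])) (.deg 10)))) (.split (.fin (.split (.split .big (.red [2,2,1,1,2,2,1,2,0,2,1,2,2,0,2] [0,2,3,4,5] [1])) (.deg 10))) (.fin (.split (.split (.split .big (.red [0,2,0,0,0,0,0,0,0,0,0,0,0,0,0,0] [0,2,3,4,5] [1])) (.split (.red [2,0,0,0,0,0,0,0,0,0,0,0,0,0,0,0] [0,1,3,4,5] [2]) (.red [2,0,0,0,0,0,0,0,0,0,0,0,0,0,0,0] [0,3,4,5] [1,2]))) (.deg 10))))) (.split (.split (.fin (.split (.split .big (.red [2,2,1,1,2,2,1,2,2,0,0,2,2,1,2] [0,1,2,3,5] [4])) (.deg 10))) (.far 7 9)) (.split (.pet [[0],[1],[4],[6],[2],[3],[7,10],[5],[9],[8]]) (.far 7 9)))) (.split (.split (.split (.fin (.split (.split .big (.red [2,0,0,0,0,0,0,0,0,0,0,0,0,0,0]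 [1,2,3,4,5] [0])) (.deg 10))) (.far 6 9)) (.far 6 8)) (.far 6 7))) (.split (.split (.split (.split (.fin (.split (.split .big (.red [2,0,0,0,0,0,0,0,0,0,0,0,0,0,0] [0,1,2,3,4] [5])) (.deg 10))) (.far 5 9)) (.far 5 8)) (.split (.split (.fin (.split (.split (.split .big (.red [2,0,0,0,0,0,0,0,0,0,0,0,0,0,0,0] [0,1,2,3,4] [5])) (.split (.red [2,0,0,0,0,0,0,0,0,0,0,0,0,0,0,0] [0,1,2,3,5] [4]) (.red [2,0,0,0,0,0,0,0,0,0,0,0,0,0,0,0] [0,1,2,3] [4,5]))) (.deg 10))) (.far 7 9)) (.far 5 8))) (.far 5 6))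

theorem ok87 : chkA tbl q87 c87 q87.rt [] [] = true := by decide +kernel

def c88 : CA := .split (.split (.split (.split (.fin (.split (.iso 130 [0,1,2,3,4,5,6,7,8,10,9] [0,1,2,3,4,5,6,7,8,10,9]) (.deg 10))) (.fin (.split (.split (.iso 134 [0,1,2,3,4,5,6,7,8,9,10] [0,1,2,3,4,5,6,7,8,9,10]) (.red [2,1,2,2,1,2,1,0,2,2,2,2,2,1,0] [0,1,3,4] [2,5])) (.deg 10)))) (.split (.fin (.split (.split (.red [2,2,2,2,2,2,2,2,2,2,1,1,2,0,0] [0,1,2,3,4] [5]) (.red [0,2,0,0,0,0,0,0,0,0,0,0,0,0,0] [0,1,2,3] [4,5])) (.deg 10))) (.far 8 9))) (.split (.split (.fin (.split (.split (.red [2,2,2,2,2,2,2,1,1,0,2,2,2,2,0] [0,1,2,3,4] [5]) (.red [0,0,2,0,0,0,0,0,0,0,0,0,0,0,0] [0,2,3,4] [1,5])) (.deg 10))) (.far 7 9)) (.far 7 8))) (.split (.split (.split (.fin (.split (.split (.iso 135 [0,2,1,3,5,4,8,7,6,9,10] [0,2,1,3,5,4,8,7,6,9,10]) (.red [2,1,2,2,1,2,1,1,2,2,2,2,0,0,2] [1,2,3,4] [0,5]))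 (.deg 10))) (.pet [[0],[1],[5],[8],[2],[3],[6,10],[7],[9],[4]])) (.split (.fin (.split (.split (.split (.red [2,0,0,0,0,0,0,0,0,0,0,0,0,0,0,0] [0,1,2,3,4] [5]) (.red [2,0,0,0,0,0,0,0,0,0,0,0,0,0,0,0] [1,2,3,4] [0,5])) (.split (.red [0,2,0,0,0,0,0,0,0,0,0,0,0,0,0,0] [0,1,2,3] [4,5]) (.clo 0 1 (.pet [[0,3,9],[1],[5],[8],[2],[11],[6],[7],[10],[4]])))) (.deg 10))) (.far 8 9))) (.far 6 7))

theorem ok88 : chkA tbl q88 c88 q88.rt [] [] = true := by decide +kernel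

def c89 : CA := .split (.split (.split (.split (.split (.fin (.split .big (.deg 10))) (.fin (.split (.split .big (.deg 9)) (.deg 10)))) (.split (.fin (.split (.split .big (.deg 8)) (.deg 10))) (.fin (.split (.split (.split .big (.deg 8)) (.deg 9)) (.deg 10))))) (.split (.split (.fin (.split (.split .big (.red [0,0,0,0,0,0,0,2,0,0,0,0,0] [0,2,3,4,5] [1])) (.deg 10))) (.far 7 9)) (.far 7 8))) (.split (.split (.split (.fin (.split (.split .big (.red [2,2,1,1,2,2,1,1,0,2,0,2,2] [1,2,3,4,5] [0])) (.deg 10))) (.fin (.split (.split (.split .big (.red [2,2,1,1,2,2,1,1,2,2,2,2,0,0] [1,2,3,4,5] [0])) (.deg 9)) (.deg 10)))) (.split (.fin (.split (.split (.split .big (.red [0,0,0,0,0,0,0,0,0,0,0,0,2,0] [1,2,3,4,5] [0])) (.deg 8)) (.deg 10))) (.fin (.split (.split (.split (.split .big (.red [0,0,0,0,0,0,0,0,0,0,0,0,0,2,0] [1,2,3,4,5] [0])) (.deg 8)) (.deg 9)) (.split (.split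 (.split (.red [0,0,0,0,0,0,0,0,0,0,2,0,0,0,0] [0,1,2,4,5] [3]) (.red [0,0,0,0,0,0,0,0,0,0,0,0,0,2,0] [1,2,4,5] [0,3])) (.deg 8)) (.deg 9)))))) (.far 6 7))) (.split (.split (.split (.split (.fin (.split (.split .big (.red [2,1,2,2,1,1,2,0,1,2,2,0,2] [0,1,2,3,4] [5])) (.deg 10))) (.fin (.split (.split (.split .big (.red [0,0,0,0,0,0,0,0,0,0,0,0,2,0] [0,1,2,3,4] [5])) (.deg 9)) (.deg 10)))) (.split (.fin (.split (.split (.split .big (.red [2,1,2,2,1,1,2,2,1,2,2,2,0,0] [0,1,2,3,4] [5])) (.deg 8)) (.deg 10))) (.fin (.split (.split (.split (.split .big (.red [0,0,0,0,0,0,0,0,0,0,0,0,2,0,0] [0,1,2,3,4] [5])) (.deg 8)) (.deg 9)) (.split (.split (.split (.red [0,0,0,0,0,0,0,0,0,0,0,2,0,0,0] [0,1,2,4,5] [3]) (.red [0,0,0,0,0,0,0,0,0,0,0,0,2,0,0] [0,1,2,4] [3,5])) (.deg 8)) (.deg 9)))))) (.far 5 7)) (.far 5 6))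

theorem ok89 : chkA tbl q89 c89 q89.rt [] [] = true := by decide +kernel

end Pool.Agent.TH395.P5
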