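import Pool.Agent.TH395.P5.Tab

set_option autoImplicit false
set_option maxRecDepth 100000

/-! # Certificates, part 3 -/

namespace Pool.Agent.TH395.P5

def c90 : CA := .split (.split (.split (.split (.split (.fin (.split .big (.deg 10))) (.fin (.split (.split .big (.red [2,1,2,2,1,1,2,2,0,2,2,2,1,0] [0,1,3,4,5] [2])) (.deg 10)))) (.split (.fin (.split (.split .big (.red [2,2,1,1,2,2,1,0,2,2,2,2,1,0] [0,1,2,3,5] [4])) (.deg 10))) (.far 8 9))) (.split (.split (.fin (.split (.split .big (.red [0,0,0,0,0,0,0,2,0,0,0,0,0,0] [0,2,3,4,5] [1])) (.deg 10))) (.far 7 9)) (.far 7 8))) (.split (.split (.split (.fin (.split (.split .big (.red [2,2,1,1,2,2,1,1,2,2,0,2,0,2] [1,2,3,4,5] [0])) (.deg 10))) (.fin (.split (.split (.split .big (.red [2,0,0,0,0,0,0,0,0,0,0,0,0,0,0] [1,2,3,4,5] [0])) (.split (.red [2,0,0,0,0,0,0,0,0,0,0,0,0,0,0] [0,1,3,4,5]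 [2]) (.red [0,0,0,0,0,2,0,0,0,0,0,0,0,0,0] [1,3,4,5] [0,2]))) (.deg 10)))) (.split (.fin (.split (.split (.split .big (.red [0,0,0,0,0,0,0,0,0,0,0,0,0,2,0] [1,2,3,4,5] [0])) (.split (.red [0,0,0,0,0,0,0,0,0,0,0,0,0,0,2] [0,1,2,3,5] [4]) (.red [0,0,0,0,0,0,0,0,0,0,0,0,0,0,2] [1,2,3,5] [0,4]))) (.deg 10))) (.far 8 9))) (.far 6 7))) (.split (.split (.split (.split (.fin (.split (.split .big (.red [2,1,2,2,1,1,2,2,1,2,2,0,0,2] [0,1,2,3,4] [5])) (.deg 10))) (.fin (.split (.split (.split .big (.red [0,0,0,0,0,0,0,0,0,0,0,0,0,2,0] [0,1,2,3,4] [5])) (.split (.red [0,0,0,0,0,0,0,0,0,0,0,0,0,0,2] [0,1,3,4,5] [2]) (.red [0,0,0,0,0,0,0,0,0,0,0,0,0,0,2] [0,1,3,4] [2,5]))) (.deg 10)))) (.split (.fin (.split (.split (.split .big (.red [2,0,0,0,0,0,0,0,0,0,0,0,0,0,0] [0,1,2,3,4] [5])) (.split (.red [2,0,0,0,0,0,0,0,0,0,0,0,0,0,0] [0,1,2,3,5] [4]) (.red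 [0,0,0,2,0,0,0,0,0,0,0,0,0,0,0] [0,1,2,3] [4,5]))) (.deg 10))) (.far 8 9))) (.far 5 7)) (.far 5 6))

theorem ok90 : chkA tbl q90 c90 q90.rt [] [] = true := by decide +kernel

def c91 : CA := .split (.split (.split (.split (.split (.fin (.split .big (.deg 10))) (.fin (.split (.split .big (.red [2,2,2,1,2,1,2,1,1,2,0,0,2,1,2] [0,1,3,4,5] [2])) (.deg 10)))) (.split (.fin (.split (.split .big (.red [2,2,2,1,2,1,2,1,1,2,2,1,0,0,2] [0,1,2,3,5] [4])) (.deg 10))) (.pet [[0],[1],[3],[7],[2],[5],[6],[9],[4],[8,10]]))) (.split (.split (.fin (.split (.split .big (.red [0,0,0,0,0,0,0,2,0,0,0,0,0,0,0] [0,2,3,4,5] [1])) (.deg 10))) (.far 7 9)) (.far 7 8))) (.split (.split (.split (.fin (.split (.split .big (.red [2,0,0,0,0,0,0,0,0,0,0,0,0,0,0] [1,2,3,4,5] [0])) (.deg 10))) (.fin (.split (.split (.split .big (.red [2,0,0,0,0,0,0,0,0,0,0,0,0,0,0,0] [1,2,3,4,5]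 [0])) (.split (.red [2,0,0,0,0,0,0,0,0,0,0,0,0,0,0,0] [0,1,3,4,5] [2]) (.red [2,0,0,0,0,0,0,0,0,0,0,0,0,0,0,0] [1,3,4,5] [0,2]))) (.deg 10)))) (.far 6 8)) (.far 6 7))) (.split (.split (.split (.split (.fin (.split (.split .big (.red [2,0,0,0,0,0,0,0,0,0,0,0,0,0,0] [0,1,2,3,4] [5])) (.deg 10))) (.far 5 9)) (.split (.fin (.split (.split (.split .big (.red [2,0,0,0,0,0,0,0,0,0,0,0,0,0,0,0] [0,1,2,3,4] [5])) (.split (.red [2,0,0,0,0,0,0,0,0,0,0,0,0,0,0,0] [0,1,2,3,5] [4]) (.red [2,0,0,0,0,0,0,0,0,0,0,0,0,0,0,0] [0,1,2,3] [4,5]))) (.deg 10))) (.far 5 9))) (.far 5 7)) (.far 5 6))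

theorem ok91 : chkA tbl q91 c91 q91.rt [] [] = true := by decide +kernel

def c92 : CA := .split (.split (.split (.split (.fin (.split (.iso 138 [0,1,2,3,4,5,6,7,8,9,10] [0,1,2,3,4,5,6,7,8,9,10]) (.deg 10))) (.fin (.split (.split (.red [2,2,2,2,2,2,2,2,2,1,1,2,2,0,0] [0,1,2,4,5] [3]) (.red [0,0,0,0,0,0,0,0,0,2,0,0,0,0,0] [0,1,2,5] [3,4])) (.deg 10)))) (.split (.fin (.split (.split (.iso 144 [0,1,2,3,4,5,6,8,9,7,10] [0,1,2,3,4,5,6,9,7,8,10]) (.red [2,1,2,2,2,0,2,2,1,2,1,1,2,2,0] [0,2,4,5] [1,3])) (.deg 10))) (.far 7 8))) (.split (.split (.fin (.split (.split (.red [2,2,2,2,2,1,1,2,2,2,2,2,0,2,0] [0,1,2,4,5] [3]) (.red [0,0,0,0,0,2,0,0,0,0,0,0,0,0,0] [1,2,4,5] [0,3])) (.deg 10))) (.far 6 8)) (.far 6 7))) (.split (.split (.split (.fin (.split (.split (.iso 141 [0,1,2,3,4,6,7,8,9,5,10] [0,1,2,3,4,9,5,6,7,8,10]) (.red [2,1,2,2,2,1,2,2,1,2,0,1,2,2,0]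 [0,1,2,4] [3,5])) (.deg 10))) (.far 5 8)) (.split (.pet [[0],[1],[3],[8],[2],[5,10],[6],[7],[9],[4]]) (.far 7 8))) (.far 5 6))

theorem ok92 : chkA tbl q92 c92 q92.rt [] [] = true := by decide +kernel

def c93 : CA := .split (.split (.split (.split (.split (.fin (.split .big (.deg 10))) (.fin (.split (.split .big (.deg 9)) (.deg 10)))) (.split (.fin (.split (.split .big (.red [1,2,2,2,2,2,1,1,2,1,2,0] [0,1,3,4,5] [2])) (.deg 10))) (.fin (.split (.split (.split .big (.red [1,2,2,2,2,2,1,1,2,1,2,0,0] [0,1,3,4,5] [2])) (.deg 9)) (.deg 10))))) (.split (.split (.fin (.split (.split .big (.iso 146 [2,0,7,1,3,4,5,10,6,8,9] [1,3,0,4,5,6,8,2,9,10,7])) (.deg 10))) (.fin (.split (.split (.split .big (.iso 152 [2,0,7,1,3,4,5,6,8,10,9] [1,3,0,4,5,6,7,2,8,10,9])) (.deg 9)) (.deg 10)))) (.far 7 8))) (.split (.split (.split (.fin (.split (.split .big (.iso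 146 [1,0,6,2,4,3,5,10,7,8,9] [1,0,3,5,4,6,2,8,9,10,7])) (.deg 10))) (.fin (.split (.split (.split .big (.iso 152 [1,0,6,2,4,3,5,7,8,10,9] [1,0,3,5,4,6,2,7,8,10,9])) (.deg 9)) (.deg 10)))) (.far 6 8)) (.split (.split (.fin (.split (.split (.split .big (.iso 165 [1,0,6,4,2,3,5,8,7,9,10] [1,0,4,5,3,6,2,8,7,9,10])) (.split (.iso 165 [2,0,7,3,1,4,5,8,6,9,10] [1,4,0,3,5,6,8,2,7,9,10]) (.sep [1,2,3,4,6,7] [0,8,10] 1 2 5))) (.deg 10))) (.fin (.split (.split (.split (.split .big (.iso 169 [1,0,6,4,2,3,5,8,7,10,9] [1,0,4,5,3,6,2,8,7,10,9])) (.split (.iso 169 [2,0,7,3,1,4,5,8,6,10,9] [1,4,0,3,5,6,8,2,7,10,9]) (.sep [1,2,3,4,6,7] [0,8,10] 1 2 5))) (.deg 9)) (.split (.split (.split (.iso 139 [0,1,2,3,4,5,6,8,7,10,9] [0,1,2,3,4,5,6,8,7,10,9]) (.red [2,1,1,2,2,2,1,2,2,2,2,0,1,2] [1,2,3,5] [0,4])) (.split (.red [1,2,2,1,2,2,2,2,1,2,2,0,2,1] [0,2,3,5] [1,4])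 (.clo 0 1 (.deg 9)))) (.deg 9))))) (.far 7 8)))) (.split (.split (.split (.split (.fin (.split (.split .big (.deg 5)) (.deg 10))) (.fin (.split (.split (.split .big (.deg 5)) (.deg 9)) (.deg 10)))) (.split (.fin (.split (.split (.split .big (.deg 5)) (.split (.red [0,0,0,0,0,0,0,0,0,0,0,0,2] [0,1,3,4,5] [2]) (.deg 5))) (.deg 10))) (.fin (.split (.split (.split (.split .big (.deg 5)) (.split (.red [0,0,0,0,0,0,0,0,0,0,0,0,0,2] [0,1,3,4,5] [2]) (.deg 5))) (.deg 9)) (.split (.split (.split (.iso 142 [0,1,2,3,4,6,7,5,8,10,9] [0,1,2,3,4,7,5,6,8,10,9]) (.deg 5)) (.split (.red [0,0,0,0,0,0,0,0,0,0,0,0,0,2] [0,1,3,5] [2,4]) (.deg 5))) (.deg 9)))))) (.split (.split (.fin (.split (.split (.split .big (.deg 5)) (.split (.iso 147 [2,0,7,1,3,4,6,8,9,5,10] [1,3,0,4,5,9,6,2,7,8,10]) (.deg 5))) (.deg 10))) (.fin (.split (.split (.split (.split .big (.deg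 5)) (.split (.iso 157 [2,0,7,1,3,4,6,8,5,10,9] [1,3,0,4,5,8,6,2,7,10,9]) (.deg 5))) (.deg 9)) (.split (.split (.split (.iso 163 [0,1,2,4,3,6,5,8,7,10,9] [0,1,2,4,3,6,5,8,7,10,9]) (.deg 5)) (.split (.red [1,2,2,2,2,0,0,1,2,1,2,2,2,1] [0,2,3,5] [1,4]) (.deg 5))) (.deg 9))))) (.far 7 8))) (.split (.split (.split (.fin (.split (.split (.split .big (.deg 5)) (.split (.iso 147 [1,0,6,2,4,3,7,8,9,5,10] [1,0,3,5,4,9,2,6,7,8,10]) (.deg 5))) (.deg 10))) (.fin (.split (.split (.split (.split .big (.deg 5)) (.split (.iso 157 [1,0,6,2,4,3,7,8,5,10,9] [1,0,3,5,4,8,2,6,7,10,9]) (.deg 5))) (.deg 9)) (.split (.split (.split (.iso 163 [0,2,1,3,4,7,5,8,6,10,9] [0,2,1,3,4,6,8,5,7,10,9]) (.deg 5)) (.split (.red [2,1,2,2,2,1,2,0,0,2,1,2,2,1] [1,2,3,5] [0,4]) (.deg 5))) (.deg 9))))) (.far 6 8)) (.split (.split (.fin (.split (.split (.split (.split .big (.deg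 5)) (.split (.iso 166 [1,0,6,4,2,3,8,7,9,5,10] [1,0,4,5,3,9,2,7,6,8,10]) (.deg 5))) (.split (.split (.iso 166 [2,0,7,3,1,4,8,6,9,5,10] [1,4,0,3,5,9,7,2,6,8,10]) (.deg 5)) (.split (.sep [1,2,3,4,6,7] [0,8,10] 1 2 9) (.deg 5)))) (.split (.split (.split (.iso 138 [0,1,2,3,4,5,6,8,7,10,9] [0,1,2,3,4,5,6,8,7,10,9]) (.deg 5)) (.split (.sep [0,1,2,3,4,6,10] [5,7,8] 0 1 9) (.deg 5))) (.split (.split (.sep [0,1,2,3,4,7,10] [5,6,8] 0 1 9) (.deg 5)) (.split (.clo 0 1 (.deg 9)) (.deg 5)))))) (.fin (.split (.split (.split (.split (.split .big (.deg 5)) (.split (.red [2,2,2,2,2,2,2,2,2,2,2,0,1,1,0] [1,2,3,4,5] [0]) (.deg 5))) (.split (.split (.red [2,2,2,2,2,2,2,2,2,2,2,0,1,1,0] [0,2,3,4,5] [1]) (.deg 5)) (.split (.sep [1,2,3,4,6,7] [0,8,10] 1 2 9) (.deg 5)))) (.deg 9)) (.split (.split (.split (.split (.red [2,0,0,0,0,0,0,0,0,0,0,0,0,0,0] [0,1,2,3,5]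 [4]) (.deg 5)) (.split (.red [0,0,0,0,0,2,0,0,0,0,0,0,0,0,0] [1,2,3,5] [0,4]) (.deg 5))) (.split (.split (.red [0,0,0,0,0,0,0,2,0,0,0,0,0,0,0] [0,2,3,5] [1,4]) (.deg 5)) (.split (.clo 0 1 (.deg 9)) (.deg 5)))) (.deg 9))))) (.far 7 8))))

theorem ok93 : chkA tbl q93 c93 q93.rt [] [] = true := by decide +kernel

def c94 : CA := .split (.split (.split (.split (.split (.fin (.split .big (.deg 10))) (.fin (.split (.split .big (.iso 124 [0,1,2,9,3,4,5,6,7,8,10] [0,1,2,4,5,6,7,8,9,3,10])) (.deg 10)))) (.split (.fin (.split (.split .big (.deg 8)) (.deg 10))) (.fin (.split (.split (.split .big (.deg 8)) (.split (.iso 129 [0,1,2,9,3,4,5,6,7,10,8] [0,1,2,4,5,6,7,8,10,3,9]) (.deg 8))) (.deg 10))))) (.split (.split (.fin (.split (.split .big (.red [2,0,0,0,0,0,0,0,0,0,0,0,0] [0,1,3,4,5] [2])) (.deg 10))) (.far 7 9)) (.split (.fin (.split (.split (.split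 .big (.red [2,0,0,0,0,0,0,0,0,0,0,0,0,0] [0,1,3,4,5] [2])) (.deg 8)) (.deg 10))) (.far 7 9)))) (.split (.split (.split (.fin (.split (.split .big (.iso 165 [2,6,0,1,3,4,10,5,7,8,9] [2,3,0,4,5,7,1,8,9,10,6])) (.deg 10))) (.fin (.split (.split (.split .big (.iso 166 [2,6,0,1,3,4,5,7,8,10,9] [2,3,0,4,5,6,1,7,8,10,9])) (.split (.iso 130 [0,1,2,9,4,3,5,7,6,8,10] [0,1,2,5,4,6,8,7,9,3,10]) (.sep [0,1,2,3,4,6,9] [5,7,10] 0 1 8))) (.deg 10)))) (.split (.fin (.split (.split (.split .big (.iso 160 [2,0,6,1,3,4,5,7,9,10,8] [1,3,0,4,5,6,2,7,10,8,9])) (.deg 8)) (.deg 10))) (.fin (.split (.split (.split (.split .big (.iso 161 [2,0,6,1,3,4,5,7,9,10,8] [1,3,0,4,5,6,2,7,10,8,9])) (.deg 8)) (.split (.split (.iso 134 [0,1,2,9,4,3,5,7,6,10,8] [0,1,2,5,4,6,8,7,10,3,9]) (.sep [0,1,2,3,4,6,9] [5,7,10] 0 1 8)) (.deg 8))) (.split (.split (.split (.iso 164 [0,1,2,4,3,5,6,9,7,10,8]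 [0,1,2,4,3,5,6,8,10,7,9]) (.red [2,2,2,2,2,2,2,2,1,0,1,2,1,0,2] [2,3,4,5] [0,1])) (.deg 8)) (.split (.split (.red [2,1,1,2,2,1,2,2,2,2,2,0,2,0,1] [1,2,3,5] [0,4]) (.clo 0 1 (.deg 8))) (.deg 8))))))) (.far 6 7))) (.split (.split (.split (.split (.fin (.split (.split .big (.iso 165 [1,5,0,2,4,3,10,6,7,8,9] [2,0,3,5,4,1,7,8,9,10,6])) (.deg 10))) (.fin (.split (.split (.split .big (.iso 166 [1,5,0,2,4,3,6,7,8,10,9] [2,0,3,5,4,1,6,7,8,10,9])) (.split (.iso 130 [0,2,1,9,3,4,6,7,5,8,10] [0,2,1,4,5,8,6,7,9,3,10]) (.sep [0,1,2,3,4,5,9] [6,7,10] 0 1 8))) (.deg 10)))) (.split (.fin (.split (.split (.split .big (.iso 160 [1,0,5,2,4,3,6,7,9,10,8] [1,0,3,5,4,2,6,7,10,8,9])) (.deg 8)) (.deg 10))) (.fin (.split (.split (.split (.split .big (.iso 161 [1,0,5,2,4,3,6,7,9,10,8] [1,0,3,5,4,2,6,7,10,8,9])) (.deg 8)) (.split (.split (.iso 134 [0,2,1,9,3,4,6,7,5,10,8]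 [0,2,1,4,5,8,6,7,10,3,9]) (.sep [0,1,2,3,4,5,9] [6,7,10] 0 1 8)) (.deg 8))) (.split (.split (.split (.iso 164 [0,2,1,3,4,6,5,9,7,10,8] [0,2,1,3,4,6,5,8,10,7,9]) (.red [2,2,2,2,2,2,2,2,0,1,1,2,1,0,2] [1,2,3,4] [0,5])) (.deg 8)) (.split (.split (.red [1,2,2,1,2,2,2,1,2,2,2,0,2,0,1] [1,2,3,5] [0,4]) (.clo 0 1 (.deg 8))) (.deg 8))))))) (.far 5 7)) (.split (.split (.split (.fin (.split (.split (.split .big (.iso 148 [1,0,5,2,4,3,6,7,8,9,10] [1,0,3,5,4,2,6,7,8,9,10])) (.split (.iso 148 [2,0,6,1,3,4,5,7,8,9,10] [1,3,0,4,5,6,2,7,8,9,10]) (.sep [1,2,3,4,5,6] [0,7,10] 1 2 8))) (.deg 10))) (.pet [[0],[1],[3],[6],[2],[9],[5],[7],[10],[4]])) (.split (.fin (.split (.split (.split (.split .big (.iso 162 [1,0,5,2,4,3,7,6,9,10,8] [1,0,3,5,4,2,7,6,10,8,9])) (.split (.iso 162 [2,0,6,1,3,4,7,5,9,10,8] [1,3,0,4,5,7,2,6,10,8,9]) (.sep [1,2,3,4,5,6] [0,7,10]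 1 2 9))) (.deg 8)) (.split (.split (.split (.iso 143 [0,1,2,3,4,5,6,7,10,8,9] [0,1,2,3,4,5,6,7,9,10,8]) (.red [2,1,1,2,2,1,2,2,2,2,0,0,2,1,2] [1,2,3,4] [0,5])) (.split (.red [1,2,2,1,2,2,2,1,2,2,0,0,2,2,1] [2,3,4,5] [0,1]) (.clo 0 1 (.deg 8)))) (.deg 8)))) (.pet [[0],[1],[3],[6],[2],[9],[5],[7],[10],[4]]))) (.far 6 7)))

theorem ok94 : chkA tbl q94 c94 q94.rt [] [] = true := by decide +kernel

def c95 : CA := .split (.split (.split (.split (.split (.fin (.split .big (.deg 10))) (.fin (.split (.split .big (.deg 9)) (.deg 10)))) (.split (.fin (.split (.split .big (.iso 149 [2,8,0,3,1,4,10,5,9,6,7] [2,4,0,3,5,7,9,10,1,8,6])) (.deg 10))) (.far 8 9))) (.split (.split (.fin (.split (.split .big (.deg 7)) (.deg 10))) (.fin (.split (.split (.split .big (.deg 7)) (.deg 9)) (.deg 10)))) (.split (.fin (.split (.split (.split .big (.deg 7)) (.split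 (.red [2,1,1,0,2,0,0,0,2,2,0,0,0] [0,1,2,3,5] [4]) (.deg 7))) (.deg 10))) (.far 8 9)))) (.split (.split (.split (.fin (.split (.split .big (.iso 149 [1,6,0,4,2,3,10,5,7,8,9] [2,0,4,5,3,7,1,8,9,10,6])) (.deg 10))) (.fin (.split (.split (.split .big (.red [1,2,0,1,2,2,2,0,0,0,0,0,0] [1,2,3,4,5] [0])) (.deg 9)) (.deg 10)))) (.split (.fin (.split (.split (.split .big (.red [1,2,2,1,2,2,2,2,0,1,0,2,1] [1,2,3,4,5] [0])) (.split (.red [2,1,1,2,2,0,1,0,2,2,2,1,2] [0,1,2,3,5] [4]) (.red [1,2,2,1,2,2,2,0,2,1,2,0,1] [1,2,3,5] [0,4]))) (.deg 10))) (.far 8 9))) (.far 6 7))) (.split (.split (.split (.split (.fin (.split (.split .big (.deg 5)) (.deg 10))) (.fin (.split (.split (.split .big (.deg 5)) (.deg 9)) (.deg 10)))) (.split (.fin (.split (.split (.split .big (.deg 5)) (.split (.red [2,1,1,2,2,2,1,0,2,2,2,1,2] [0,1,2,3,5] [4]) (.deg 5))) (.deg 10)))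 (.far 8 9))) (.split (.split (.fin (.split (.split (.split .big (.deg 5)) (.deg 7)) (.deg 10))) (.fin (.split (.split (.split (.split .big (.deg 5)) (.deg 7)) (.deg 9)) (.split (.split (.split (.red [2,2,2,2,2,2,2,0,2,2,1,2,2,1] [0,1,2,4,5] [3]) (.deg 5)) (.deg 7)) (.deg 9))))) (.split (.fin (.split (.split (.split (.split .big (.deg 5)) (.deg 7)) (.split (.split (.red [0,2,0,0,0,0,0,0,0,0,0,0,0,0] [0,1,2,3,5] [4]) (.deg 5)) (.deg 7))) (.split (.split (.split (.red [2,0,0,0,0,0,0,0,0,0,0,0,0,0] [0,1,2,4,5] [3]) (.deg 5)) (.deg 7)) (.split (.split (.red [0,0,0,0,0,0,0,0,2,0,0,0,0,0] [0,1,2,5] [3,4]) (.deg 5)) (.deg 7))))) (.far 8 9)))) (.split (.split (.split (.fin (.split (.split (.split .big (.deg 5)) (.split (.red [1,2,2,1,2,2,2,2,2,1,0,1,2] [1,2,3,4,5] [0]) (.deg 5))) (.deg 10))) (.fin (.split (.split (.split (.split .big (.deg 5)) (.split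 (.red [2,0,0,0,0,0,0,0,0,0,0,0,0,0] [1,2,3,4,5] [0]) (.deg 5))) (.deg 9)) (.split (.split (.split (.red [0,2,0,0,0,0,0,0,0,0,0,0,0,0] [0,1,2,4,5] [3]) (.deg 5)) (.split (.red [0,0,0,0,0,2,0,0,0,0,0,0,0,0] [1,2,4,5] [0,3]) (.deg 5))) (.deg 9))))) (.split (.fin (.split (.split (.split (.split .big (.deg 5)) (.split (.red [1,2,2,1,2,2,2,2,2,1,0,2,1,2] [1,2,3,4,5] [0]) (.deg 5))) (.split (.split (.red [2,1,1,2,2,2,1,0,2,2,2,1,2,2] [0,1,2,3,5] [4]) (.deg 5)) (.split (.red [2,2,2,2,1,2,2,0,2,2,2,1,1,2] [1,2,3,5] [0,4]) (.deg 5)))) (.split (.split (.split (.red [2,2,2,2,1,1,1,0,1,1,2,2,2,2] [0,1,2,4,5] [3]) (.deg 5)) (.split (.red [1,2,2,1,2,2,2,2,2,1,0,2,1,2] [1,2,4,5] [0,3]) (.deg 5))) (.split (.split (.red [2,1,1,2,2,2,1,0,2,2,2,1,2,2] [0,1,2,5] [3,4]) (.deg 5)) (.split (.clo 0 1 (.deg 9)) (.deg 5)))))) (.far 8 9))) (.far 6 7)))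

theorem ok95 : chkA tbl q95 c95 q95.rt [] [] = true := by decide +kernel

def c96 : CA := .split (.split (.split (.split (.split (.fin (.split .big (.deg 10))) (.fin (.split (.split .big (.deg 9)) (.deg 10)))) (.split (.fin (.split (.split .big (.red [2,2,2,2,0,2,2,2,2,1,1,2,0] [0,1,3,4,5] [2])) (.deg 10))) (.far 8 9))) (.split (.split (.fin (.split (.split .big (.iso 150 [2,0,7,1,3,4,5,10,6,8,9] [1,3,0,4,5,6,8,2,9,10,7])) (.deg 10))) (.fin (.split (.split (.split .big (.iso 153 [2,0,7,1,3,4,5,6,8,10,9] [1,3,0,4,5,6,7,2,8,10,9])) (.deg 9)) (.deg 10)))) (.far 7 8))) (.split (.split (.split (.fin (.split (.split .big (.iso 150 [1,0,6,2,4,3,5,10,7,8,9] [1,0,3,5,4,6,2,8,9,10,7])) (.deg 10))) (.fin (.split (.split (.split .big (.iso 153 [1,0,6,2,4,3,5,7,8,10,9] [1,0,3,5,4,6,2,7,8,10,9])) (.deg 9)) (.deg 10)))) (.far 6 8)) (.split (.split (.fin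 (.split (.split (.split .big (.iso 154 [1,0,6,2,4,3,5,7,8,10,9] [1,0,3,5,4,6,2,7,8,10,9])) (.split (.iso 154 [2,0,7,1,3,4,5,6,8,10,9] [1,3,0,4,5,6,7,2,8,10,9]) (.sep [1,2,3,4,6,7] [0,8,10] 1 2 5))) (.deg 10))) (.fin (.split (.split (.split (.split .big (.iso 155 [1,0,6,2,4,3,5,7,8,10,9] [1,0,3,5,4,6,2,7,8,10,9])) (.split (.iso 155 [2,0,7,1,3,4,5,6,8,10,9] [1,3,0,4,5,6,7,2,8,10,9]) (.sep [1,2,3,4,6,7] [0,8,10] 1 2 5))) (.deg 9)) (.split (.split (.split (.iso 140 [0,1,2,3,4,5,6,7,8,10,9] [0,1,2,3,4,5,6,7,8,10,9]) (.red [2,1,1,2,2,2,1,2,2,2,2,0,0,1,2] [1,2,3,5] [0,4])) (.split (.red [1,2,2,1,2,2,2,2,1,2,2,0,0,2,1] [0,2,3,5] [1,4]) (.clo 0 1 (.deg 5)))) (.deg 9))))) (.far 7 8)))) (.split (.split (.split (.split (.fin (.split (.split .big (.deg 5)) (.deg 10))) (.fin (.split (.split (.split .big (.deg 5)) (.deg 9)) (.deg 10)))) (.split (.fin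 (.split (.split (.split .big (.deg 5)) (.split (.red [0,0,0,0,0,0,0,0,0,0,0,0,2,0] [0,1,3,4,5] [2]) (.deg 5))) (.deg 10))) (.far 8 9))) (.split (.split (.fin (.split (.split (.split .big (.deg 5)) (.split (.iso 158 [2,0,7,1,3,4,6,8,5,10,9] [1,3,0,4,5,8,6,2,7,10,9]) (.deg 5))) (.deg 10))) (.fin (.split (.split (.split (.split .big (.deg 5)) (.split (.red [0,2,0,0,0,0,0,0,0,0,0,0,0,0,0] [0,2,3,4,5] [1]) (.deg 5))) (.deg 9)) (.split (.split (.split (.red [2,2,2,2,0,2,2,1,1,2,2,0,0,2,0] [0,1,2,3,5] [4]) (.deg 5)) (.split (.red [0,0,0,0,0,0,0,2,0,0,0,0,0,0,0] [0,2,3,5] [1,4]) (.deg 5))) (.deg 9))))) (.far 7 8))) (.split (.split (.split (.fin (.split (.split (.split .big (.deg 5)) (.split (.iso 158 [1,0,6,2,4,3,7,8,5,10,9] [1,0,3,5,4,8,2,6,7,10,9]) (.deg 5))) (.deg 10))) (.fin (.split (.split (.split (.split .big (.deg 5)) (.split (.red [2,0,0,0,0,0,0,0,0,0,0,0,0,0,0]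 [1,2,3,4,5] [0]) (.deg 5))) (.deg 9)) (.split (.split (.split (.red [2,2,2,2,0,1,1,2,2,2,2,0,0,2,0] [0,1,2,3,5] [4]) (.deg 5)) (.split (.red [0,0,0,0,0,2,0,0,0,0,0,0,0,0,0] [1,2,3,5] [0,4]) (.deg 5))) (.deg 9))))) (.far 6 8)) (.split (.split (.fin (.split (.split (.split (.split .big (.deg 5)) (.split (.iso 159 [1,0,6,2,4,3,7,8,5,10,9] [1,0,3,5,4,8,2,6,7,10,9]) (.deg 5))) (.split (.split (.iso 159 [2,0,7,1,3,4,6,8,5,10,9] [1,3,0,4,5,8,6,2,7,10,9]) (.deg 5)) (.split (.sep [1,2,3,4,6,7] [0,8,10] 1 2 9) (.deg 5)))) (.split (.split (.split (.iso 144 [0,1,2,3,4,5,6,7,10,8,9] [0,1,2,3,4,5,6,7,9,10,8]) (.deg 5)) (.split (.sep [0,1,2,3,4,6,10] [5,7,8] 0 1 9) (.deg 5))) (.split (.split (.sep [0,1,2,3,4,7,10] [5,6,8] 0 1 9) (.deg 5)) (.split (.clo 0 1 (.deg 9)) (.deg 5)))))) (.fin (.split (.split (.split (.split (.split .big (.deg 5)) (.split (.red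 [2,0,0,0,0,0,0,0,0,0,0,0,0,0,0,0] [1,2,3,4,5] [0]) (.deg 5))) (.split (.split (.red [0,2,0,0,0,0,0,0,0,0,0,0,0,0,0,0] [0,2,3,4,5] [1]) (.deg 5)) (.split (.sep [1,2,3,4,6,7] [0,8,10] 1 2 9) (.deg 5)))) (.deg 9)) (.split (.split (.split (.split (.red [2,0,0,0,0,0,0,0,0,0,0,0,0,0,0,0] [0,1,2,3,5] [4]) (.deg 5)) (.split (.red [0,0,0,0,0,2,0,0,0,0,0,0,0,0,0,0] [1,2,3,5] [0,4]) (.deg 5))) (.split (.split (.red [0,0,0,0,0,0,0,2,0,0,0,0,0,0,0,0] [0,2,3,5] [1,4]) (.deg 5)) (.split (.clo 0 1 (.pet [[0,5],[1],[3],[7],[2],[11],[6],[8],[9,10],[4]])) (.deg 5)))) (.deg 9))))) (.far 7 8))))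

theorem ok96 : chkA tbl q96 c96 q96.rt [] [] = true := by decide +kernel

def c97 : CA := .split (.split (.split (.split (.split (.fin (.split .big (.deg 10))) (.fin (.split (.split .big (.iso 139 [0,1,2,3,4,5,6,7,8,9,10] [0,1,2,3,4,5,6,7,8,9,10])) (.deg 10)))) (.split (.fin (.split (.split .big (.red [2,2,2,2,0,2,2,2,2,1,1,0,0,2] [0,1,2,3,5] [4])) (.deg 10))) (.far 8 9))) (.split (.split (.fin (.split (.split .big (.red [1,2,2,2,2,2,1,1,2,1,2,2,2,0] [0,2,3,4,5] [1])) (.deg 10))) (.fin (.split (.split (.split .big (.red [1,2,2,2,2,2,1,1,2,1,2,2,2,0,0] [0,2,3,4,5] [1])) (.split (.iso 140 [0,1,2,3,4,5,6,8,7,9,10] [0,1,2,3,4,5,6,8,7,9,10]) (.red [2,1,2,2,0,1,2,2,1,2,0,2,2,1,2] [0,3,4,5] [1,2]))) (.deg 10)))) (.far 7 8))) (.split (.split (.split (.fin (.split (.split .big (.red [2,2,2,2,0,1,1,2,2,2,2,0,0,2] [1,2,3,4,5] [0])) (.deg 10))) (.far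 6 9)) (.far 6 8)) (.far 6 7))) (.split (.split (.split (.split (.fin (.split (.split .big (.deg 5)) (.deg 10))) (.fin (.split (.split (.split .big (.deg 5)) (.split (.red [2,2,2,2,1,2,2,2,2,2,2,2,2,1,0] [0,1,3,4,5] [2]) (.deg 5))) (.deg 10)))) (.split (.fin (.split (.split (.split .big (.deg 5)) (.split (.red [2,2,2,2,0,2,2,2,2,1,1,0,2,0,0] [0,1,2,3,5] [4]) (.deg 5))) (.deg 10))) (.far 8 9))) (.split (.split (.fin (.split (.split (.split .big (.deg 5)) (.split (.red [0,0,0,0,0,0,0,0,0,0,0,0,0,0,2] [0,2,3,4,5] [1]) (.deg 5))) (.deg 10))) (.pet [[0,5],[1],[3],[8],[2],[10],[6],[7],[9],[4]])) (.far 7 8))) (.split (.split (.split (.fin (.split (.split (.split .big (.deg 5)) (.split (.red [2,2,2,2,0,1,1,2,2,2,2,2,0,0,0] [1,2,3,4,5] [0]) (.deg 5))) (.deg 10))) (.far 6 9)) (.far 6 8)) (.far 6 7)))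

theorem ok97 : chkA tbl q97 c97 q97.rt [] [] = true := by decide +kernel

def c98 : CA := .split (.split (.split (.split (.split (.fin (.split .big (.deg 10))) (.fin (.split (.split .big (.iso 145 [0,2,1,4,3,7,9,8,10,5,6] [0,2,1,4,3,9,10,5,7,6,8])) (.deg 10)))) (.split (.fin (.split (.split .big (.iso 126 [0,1,2,8,3,4,5,6,7,9,10] [0,1,2,4,5,6,7,8,3,9,10])) (.deg 10))) (.far 8 9))) (.split (.split (.fin (.split (.split .big (.iso 167 [1,7,0,2,4,3,10,5,6,8,9] [2,0,3,5,4,7,8,1,9,10,6])) (.deg 10))) (.far 7 9)) (.split (.fin (.split (.split (.split .big (.red [1,2,2,1,2,1,2,2,2,2,0,0,2,1] [0,1,2,4,5] [3])) (.split (.red [2,1,2,2,2,1,0,1,2,2,1,2,0,2] [0,2,3,4,5] [1]) (.red [1,2,2,1,2,1,2,2,2,2,0,0,2,1] [0,2,4,5] [1,3]))) (.deg 10))) (.far 8 9)))) (.split (.split (.split (.fin (.split (.split .big (.deg 6)) (.deg 10))) (.fin (.split (.split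 (.split .big (.deg 6)) (.split (.red [0,0,0,0,0,0,2,0,0,0,0,0,0,0] [1,2,3,4,5] [0]) (.deg 6))) (.deg 10)))) (.split (.fin (.split (.split (.split .big (.deg 6)) (.split (.red [0,0,0,0,2,0,0,0,0,0,0,0,0,0] [0,2,3,4,5] [1]) (.deg 6))) (.deg 10))) (.far 8 9))) (.split (.split (.fin (.split (.split (.split .big (.deg 6)) (.split (.red [1,2,0,1,2,0,0,2,2,2,0,0,0,0] [0,1,2,4,5] [3]) (.deg 6))) (.deg 10))) (.far 7 9)) (.split (.fin (.split (.split (.split (.split .big (.deg 6)) (.split (.red [2,0,0,0,0,0,0,0,0,0,0,0,0,0,0] [0,1,2,4,5] [3]) (.deg 6))) (.split (.split (.red [0,2,0,0,0,0,0,0,0,0,0,0,0,0,0] [0,2,3,4,5] [1]) (.deg 6)) (.split (.red [2,0,0,0,0,0,0,0,0,0,0,0,0,0,0] [0,2,4,5] [1,3]) (.deg 6)))) (.split (.split (.split (.red [0,2,0,0,0,0,0,0,0,0,0,0,0,0,0] [0,1,2,3,5] [4]) (.deg 6)) (.split (.red [0,0,0,0,0,0,0,2,0,0,0,0,0,0,0] [0,1,2,5]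 [3,4]) (.deg 6))) (.split (.split (.red [0,2,0,0,0,0,0,0,0,0,0,0,0,0,0] [0,2,3,5] [1,4]) (.deg 6)) (.split (.clo 0 1 (.flow [(6,2),(9,0),(5,5)] 1)) (.deg 6)))))) (.far 8 9))))) (.split (.split (.split (.split (.fin (.split (.split .big (.iso 151 [2,5,0,3,1,4,10,6,7,8,9] [2,4,0,3,5,1,7,8,9,10,6])) (.deg 10))) (.fin (.split (.split (.split .big (.red [0,0,0,0,2,0,0,0,0,0,0,0,0,0] [0,1,2,3,4] [5])) (.split (.red [0,2,0,0,0,0,0,0,0,0,0,0,0,0] [1,2,3,4,5] [0]) (.red [0,0,0,0,2,0,0,0,0,0,0,0,0,0] [1,2,3,4] [0,5]))) (.deg 10)))) (.split (.fin (.split (.split (.split .big (.red [2,1,1,2,2,2,2,2,1,2,0,0,2,1] [0,1,2,3,4] [5])) (.split (.red [2,1,2,2,2,1,0,1,2,2,1,2,0,2] [0,2,3,4,5] [1]) (.red [2,1,1,2,2,2,2,2,1,2,0,0,2,1] [0,2,3,4] [1,5]))) (.deg 10))) (.far 8 9))) (.split (.split (.fin (.split (.split (.split .big (.red [2,1,1,2,2,2,2,2,1,2,0,0,2,1]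 [0,1,2,3,4] [5])) (.split (.red [1,2,2,1,2,1,2,2,2,2,0,0,1,2] [0,1,2,4,5] [3]) (.red [2,1,1,2,2,2,2,2,1,2,0,0,2,1] [0,1,2,4] [3,5]))) (.deg 10))) (.far 7 9)) (.split (.fin (.split (.split (.split (.split .big (.red [2,1,1,2,2,2,2,2,1,2,0,0,2,2,1] [0,1,2,3,4] [5])) (.split (.red [1,2,2,1,2,1,2,2,2,2,0,0,2,1,2] [0,1,2,4,5] [3]) (.red [2,2,2,2,2,2,2,2,2,1,0,0,2,1,1] [0,1,2,4] [3,5]))) (.split (.split (.red [2,1,2,2,2,1,0,1,2,2,1,2,0,2,2] [0,2,3,4,5] [1]) (.red [2,2,2,2,2,2,0,1,1,2,2,2,0,2,1] [0,2,3,4] [1,5])) (.split (.red [2,2,2,2,1,1,0,2,2,2,2,2,0,1,2] [0,2,4,5] [1,3]) (.clo 0 1 (.deg 6))))) (.split (.split (.split (.red [2,2,2,2,1,1,2,1,1,1,0,0,2,2,2] [0,1,2,3,5] [4]) (.red [2,1,1,2,2,2,2,2,1,2,0,0,2,2,1] [0,1,2,3] [4,5])) (.split (.red [1,2,2,1,2,1,2,2,2,2,0,0,2,1,2] [0,1,2,5] [3,4]) (.clo 0 1 (.deg 6)))) (.split (.split (.red [2,1,2,2,2,1,0,0,2,2,1,2,1,2,2]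 [0,2,3,5] [1,4]) (.clo 0 1 (.deg 6))) (.split (.clo 0 1 (.deg 6)) (.two 0)))))) (.far 8 9)))) (.far 5 6))

theorem ok98 : chkA tbl q98 c98 q98.rt [] [] = true := by decide +kernel

def c99 : CA := .split (.split (.split (.split (.split (.fin (.split .big (.deg 10))) (.fin (.split (.split .big (.deg 9)) (.deg 10)))) (.split (.fin (.split (.split .big (.iso 125 [0,1,2,8,3,4,5,6,7,9,10] [0,1,2,4,5,6,7,8,3,9,10])) (.deg 10))) (.far 8 9))) (.split (.split (.fin (.split (.split .big (.red [1,2,2,2,2,1,1,2,1,2,0,0,2] [0,1,3,4,5] [2])) (.deg 10))) (.fin (.split (.split (.split .big (.red [2,2,2,2,2,2,2,2,2,2,1,2,2,1] [0,1,3,4,5] [2])) (.deg 9)) (.deg 10)))) (.split (.fin (.split (.split (.split .big (.red [0,0,0,0,0,0,0,0,0,0,0,0,2,0] [0,1,3,4,5] [2])) (.split (.iso 127 [0,1,2,8,3,4,5,6,7,9,10] [0,1,2,4,5,6,7,8,3,9,10]) (.red [0,0,0,0,0,0,0,0,0,0,0,0,2,0]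 [0,1,4,5] [2,3]))) (.deg 10))) (.far 8 9)))) (.split (.split (.split (.fin (.split (.split .big (.iso 152 [2,6,0,3,1,4,10,7,5,8,9] [2,4,0,3,5,8,1,7,9,10,6])) (.deg 10))) (.fin (.split (.split (.split .big (.iso 156 [2,0,6,1,3,4,5,7,8,10,9] [1,3,0,4,5,6,2,7,8,10,9])) (.deg 9)) (.deg 10)))) (.split (.fin (.split (.split (.split .big (.iso 157 [2,6,0,3,1,4,7,5,10,8,9] [2,4,0,3,5,7,1,6,9,10,8])) (.split (.iso 131 [0,1,2,8,4,3,5,7,6,9,10] [0,1,2,5,4,6,8,7,3,9,10]) (.red [2,1,2,2,1,2,2,1,0,0,2,2,1,2] [0,2,4,5] [1,3]))) (.deg 10))) (.far 8 9))) (.far 6 7))) (.split (.split (.split (.split (.fin (.split (.split .big (.iso 152 [1,5,0,4,2,3,10,7,6,8,9] [2,0,4,5,3,1,8,7,9,10,6])) (.deg 10))) (.fin (.split (.split (.split .big (.iso 156 [1,0,5,2,4,3,6,7,8,10,9] [1,0,3,5,4,2,6,7,8,10,9])) (.deg 9)) (.deg 10)))) (.split (.fin (.split (.split (.split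 .big (.iso 157 [1,5,0,4,2,3,7,6,10,8,9] [2,0,4,5,3,1,7,6,9,10,8])) (.split (.iso 131 [0,2,1,8,3,4,6,7,5,9,10] [0,2,1,4,5,8,6,7,3,9,10]) (.red [1,2,2,2,2,1,1,2,0,0,2,2,1,2] [0,1,2,4] [3,5]))) (.deg 10))) (.far 8 9))) (.far 5 7)) (.split (.split (.split (.fin (.split (.split (.split .big (.iso 160 [1,5,0,4,2,3,7,6,10,8,9] [2,0,4,5,3,1,7,6,9,10,8])) (.split (.iso 160 [2,6,0,3,1,4,7,5,10,8,9] [2,4,0,3,5,7,1,6,9,10,8]) (.sep [1,2,3,4,5,6] [0,7,10] 1 2 8))) (.deg 10))) (.fin (.split (.split (.split (.split .big (.iso 171 [1,0,5,4,2,3,7,6,8,10,9] [1,0,4,5,3,2,7,6,8,10,9])) (.split (.iso 171 [2,0,6,3,1,4,7,5,8,10,9] [1,4,0,3,5,7,2,6,8,10,9]) (.sep [1,2,3,4,5,6] [0,7,10] 1 2 8))) (.deg 9)) (.split (.split (.split (.red [2,2,2,2,2,2,2,2,2,2,1,0,1,2,2] [0,1,2,3,5] [4]) (.red [0,0,0,0,0,0,0,0,0,0,0,2,0,0,0] [0,1,2,3] [4,5])) (.split (.red [0,0,0,0,0,0,0,0,0,0,0,2,0,0,0]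 [0,2,3,5] [1,4]) (.clo 0 1 (.pet [[0,8],[1],[3],[6],[2],[11],[5],[7],[9,10],[4]])))) (.deg 9))))) (.split (.fin (.split (.split (.split (.split .big (.iso 161 [1,5,0,4,2,3,7,6,10,8,9] [2,0,4,5,3,1,7,6,9,10,8])) (.split (.iso 161 [2,6,0,3,1,4,7,5,10,8,9] [2,4,0,3,5,7,1,6,9,10,8]) (.sep [1,2,3,4,5,6] [0,7,10] 1 2 9))) (.split (.split (.red [1,2,2,2,2,1,1,2,1,2,2,0,0,2,2] [0,1,2,4,5] [3]) (.red [2,2,2,2,2,2,1,0,2,2,2,0,1,2,1] [0,1,2,4] [3,5])) (.split (.red [2,2,2,2,1,0,2,2,2,2,2,0,1,1,2] [0,2,4,5] [1,3]) (.clo 0 1 (.deg 9))))) (.split (.split (.split (.iso 141 [0,1,2,3,4,5,7,6,10,8,9] [0,1,2,3,4,5,7,6,9,10,8]) (.sep [0,1,2,3,4,5,10] [6,7,8] 0 1 9)) (.split (.sep [0,1,2,3,4,6,10] [5,7,8] 0 1 9) (.clo 0 1 (.deg 9)))) (.split (.split (.red [2,1,2,2,1,2,2,0,2,1,2,0,1,2,2] [0,1,2,5] [3,4]) (.clo 0 1 (.deg 9))) (.split (.clo 0 1 (.deg 9)) (.two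 0)))))) (.far 8 9))) (.far 6 7)))

theorem ok99 : chkA tbl q99 c99 q99.rt [] [] = true := by decide +kernel

end Pool.Agent.TH395.P5
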