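import Pool.Agent.TH395.P5.Tab

set_option autoImplicit false
set_option maxRecDepth 100000

/-! # Certificates, part 5 -/

namespace Pool.Agent.TH395.P5

def c110 : CA := .split (.split (.split (.split (.split (.fin (.split .big (.deg 10))) (.fin (.split (.split .big (.deg 9)) (.deg 10)))) (.split (.fin (.split (.split .big (.iso 120 [0,1,3,8,2,5,9,7,4,6,10] [0,1,4,2,8,5,9,7,3,6,10])) (.deg 10))) (.far 8 9))) (.split (.split (.fin (.split (.split .big (.iso 149 [2,0,7,1,4,3,5,10,6,8,9] [1,3,0,5,4,6,8,2,9,10,7])) (.deg 10))) (.fin (.split (.split (.split .big (.iso 151 [2,0,7,1,4,3,5,6,8,10,9] [1,3,0,5,4,6,7,2,8,10,9])) (.deg 9)) (.deg 10)))) (.far 7 8))) (.split (.split (.split (.fin (.split (.split .big (.deg 6)) (.deg 10))) (.fin (.split (.split (.split .big (.deg 6)) (.deg 9)) (.deg 10)))) (.split (.fin (.split (.split (.split .big (.deg 6)) (.split (.red [2,1,2,2,0,0,0,1,0,0,0,0,0]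 [0,1,3,4,5] [2]) (.deg 6))) (.deg 10))) (.far 8 9))) (.split (.split (.fin (.split (.split (.split .big (.deg 6)) (.split (.iso 167 [2,0,7,4,1,3,5,8,9,10,6] [1,4,0,5,3,6,10,2,7,8,9]) (.deg 6))) (.deg 10))) (.fin (.split (.split (.split (.split .big (.deg 6)) (.split (.red [0,2,0,0,0,0,0,0,0,0,0,0,0,0] [0,2,3,4,5] [1]) (.deg 6))) (.deg 9)) (.split (.split (.split (.red [2,2,2,2,0,1,2,2,2,2,1,2,0,2] [0,1,2,4,5] [3]) (.deg 6)) (.split (.red [0,0,0,0,0,0,2,0,0,0,0,0,0,0] [0,2,4,5] [1,3]) (.deg 6))) (.deg 9))))) (.far 7 8)))) (.split (.split (.split (.split (.fin (.split (.split .big (.deg 5)) (.deg 10))) (.fin (.split (.split (.split .big (.deg 5)) (.deg 9)) (.deg 10)))) (.split (.fin (.split (.split (.split .big (.deg 5)) (.split (.red [2,2,2,2,1,0,2,2,2,2,0,1,2] [0,1,3,4,5] [2]) (.deg 5))) (.deg 10))) (.far 8 9))) (.split (.split (.fin (.split (.split (.split .big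 (.deg 5)) (.split (.red [2,2,2,1,1,2,1,2,1,2,0,2,2] [0,2,3,4,5] [1]) (.deg 5))) (.deg 10))) (.fin (.split (.split (.split (.split .big (.deg 5)) (.split (.red [2,2,2,1,1,2,1,2,1,2,0,0,2,2] [0,2,3,4,5] [1]) (.deg 5))) (.deg 9)) (.split (.split (.split (.red [2,2,2,1,1,0,0,2,1,2,2,1,2,2] [0,1,2,4,5] [3]) (.deg 5)) (.split (.red [1,2,2,2,2,2,1,2,2,1,0,0,2,1] [0,2,4,5] [1,3]) (.deg 5))) (.deg 9))))) (.far 7 8))) (.split (.split (.split (.fin (.split (.split (.split .big (.deg 5)) (.deg 6)) (.deg 10))) (.fin (.split (.split (.split (.split .big (.deg 5)) (.deg 6)) (.deg 9)) (.split (.split (.split (.red [2,0,2,0,2,1,0,0,0,0,0,2,2,1] [0,1,2,4,5] [3]) (.deg 5)) (.deg 6)) (.deg 9))))) (.split (.fin (.split (.split (.split (.split .big (.deg 5)) (.deg 6)) (.split (.split (.red [0,0,0,0,0,0,0,0,0,2,0,0,0,0] [0,1,3,4,5] [2]) (.deg 5)) (.deg 6))) (.split (.split (.split (.red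 [2,0,0,0,0,0,0,0,0,0,0,0,0,0] [0,1,2,4,5] [3]) (.deg 5)) (.deg 6)) (.split (.split (.red [0,0,0,0,0,0,0,0,0,2,0,0,0,0] [0,1,4,5] [2,3]) (.deg 5)) (.deg 6))))) (.far 8 9))) (.split (.split (.fin (.split (.split (.split (.split .big (.deg 5)) (.deg 6)) (.split (.split (.red [2,2,2,1,1,0,1,2,1,2,2,2,0,2] [0,2,3,4,5] [1]) (.deg 5)) (.deg 6))) (.split (.split (.split (.red [2,2,2,1,1,2,0,2,1,2,0,2,1,2] [0,1,2,4,5] [3]) (.deg 5)) (.deg 6)) (.split (.split (.red [2,2,2,1,1,0,1,2,1,2,2,2,0,2] [0,2,4,5] [1,3]) (.deg 5)) (.deg 6))))) (.fin (.split (.split (.split (.split (.split .big (.deg 5)) (.deg 6)) (.split (.split (.red [0,2,0,0,0,0,0,0,0,0,0,0,0,0,0] [0,2,3,4,5] [1]) (.deg 5)) (.deg 6))) (.deg 9)) (.split (.split (.split (.split (.red [2,0,0,0,0,0,0,0,0,0,0,0,0,0,0] [0,1,2,4,5] [3]) (.deg 5)) (.deg 6)) (.split (.split (.red [0,0,0,0,0,0,2,0,0,0,0,0,0,0,0] [0,2,4,5]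 [1,3]) (.deg 5)) (.deg 6))) (.deg 9))))) (.far 7 8))))

theorem ok110 : chkA tbl q110 c110 q110.rt [] [] = true := by decide +kernel

def c111 : CA := .split (.split (.split (.split (.split (.fin (.split .big (.deg 10))) (.fin (.split (.split .big (.deg 9)) (.deg 10)))) (.split (.fin (.split (.split .big (.red [2,2,2,2,0,2,2,2,2,1,1,2,0] [0,1,2,4,5] [3])) (.deg 10))) (.far 8 9))) (.split (.split (.fin (.split (.split .big (.red [1,2,2,2,2,2,1,2,1,1,2,0,0] [0,2,3,4,5] [1])) (.deg 10))) (.fin (.split (.split (.split .big (.red [1,2,2,2,2,2,1,2,1,1,2,0,0,0] [0,2,3,4,5] [1])) (.deg 9)) (.deg 10)))) (.far 7 8))) (.split (.split (.split (.fin (.split (.split .big (.iso 150 [1,6,0,3,2,4,10,5,7,8,9] [2,0,4,3,5,7,1,8,9,10,6])) (.deg 10))) (.fin (.split (.split (.split .big (.iso 168 [1,0,6,3,2,4,5,7,8,10,9] [1,0,4,3,5,6,2,7,8,10,9])) (.deg 9)) (.deg 10)))) (.split (.fin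 (.split (.split (.split .big (.red [2,2,2,2,0,2,2,2,2,1,1,0,0,2] [1,2,3,4,5] [0])) (.split (.red [2,2,2,2,0,2,2,2,2,1,1,2,0,0] [0,1,2,4,5] [3]) (.red [2,0,0,0,0,0,0,0,0,0,0,0,0,0] [1,2,4,5] [0,3]))) (.deg 10))) (.far 8 9))) (.far 6 7))) (.split (.split (.split (.split (.fin (.split (.split .big (.deg 5)) (.deg 10))) (.fin (.split (.split (.split .big (.deg 5)) (.deg 9)) (.deg 10)))) (.split (.fin (.split (.split (.split .big (.deg 5)) (.split (.red [2,2,2,2,0,2,2,2,2,1,1,2,0,0] [0,1,2,4,5] [3]) (.deg 5))) (.deg 10))) (.far 8 9))) (.split (.split (.fin (.split (.split (.split .big (.deg 5)) (.split (.red [0,0,0,0,0,0,0,0,0,0,0,0,0,2] [0,2,3,4,5] [1]) (.deg 5))) (.deg 10))) (.fin (.split (.split (.split (.split .big (.deg 5)) (.split (.red [0,0,0,0,0,0,0,0,0,0,0,0,0,0,2] [0,2,3,4,5] [1]) (.deg 5))) (.deg 9)) (.split (.split (.split (.red [0,0,0,0,0,0,0,0,0,0,0,0,0,0,2]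 [0,1,2,3,5] [4]) (.deg 5)) (.split (.red [0,0,0,0,0,0,0,0,0,0,0,0,0,0,2] [0,2,3,5] [1,4]) (.deg 5))) (.deg 9))))) (.far 7 8))) (.split (.split (.split (.fin (.split (.split (.split .big (.deg 5)) (.split (.iso 158 [1,6,0,3,2,4,7,8,10,5,9] [2,0,4,3,5,9,1,6,7,10,8]) (.deg 5))) (.deg 10))) (.fin (.split (.split (.split (.split .big (.deg 5)) (.split (.iso 170 [1,0,6,3,2,4,7,8,5,10,9] [1,0,4,3,5,8,2,6,7,10,9]) (.deg 5))) (.deg 9)) (.split (.split (.split (.red [0,0,0,0,0,0,0,0,0,0,0,2,0,0,0] [0,1,2,3,5] [4]) (.deg 5)) (.split (.red [0,0,0,0,0,0,0,0,0,0,0,2,0,0,0] [1,2,3,5] [0,4]) (.deg 5))) (.deg 9))))) (.split (.fin (.split (.split (.split (.split .big (.deg 5)) (.split (.red [2,2,2,2,2,2,2,2,2,1,1,0,0,2,2] [1,2,3,4,5] [0]) (.deg 5))) (.split (.split (.red [0,2,0,0,0,0,0,0,0,0,0,0,0,0,0] [0,1,2,4,5] [3]) (.deg 5)) (.split (.red [2,0,0,0,0,0,0,0,0,0,0,0,0,0,0] [1,2,4,5]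 [0,3]) (.deg 5)))) (.split (.split (.split (.red [2,2,2,2,2,2,2,2,2,1,1,0,0,2,2] [0,1,2,3,5] [4]) (.deg 5)) (.split (.sep [0,1,2,3,4,6,10] [5,7,8] 0 1 9) (.deg 5))) (.split (.split (.red [0,0,0,0,0,0,0,0,0,2,0,0,0,0,0] [0,1,2,5] [3,4]) (.deg 5)) (.split (.clo 0 1 (.deg 9)) (.deg 5)))))) (.far 8 9))) (.far 6 7)))

theorem ok111 : chkA tbl q111 c111 q111.rt [] [] = true := by decide +kernel

def c112 : CA := .split (.split (.split (.split (.split (.fin (.split .big (.deg 10))) (.fin (.split (.split .big (.deg 9)) (.deg 10)))) (.split (.fin (.split (.split .big (.iso 132 [0,1,2,8,3,4,5,7,10,6,9] [0,1,2,4,5,6,9,7,3,10,8])) (.deg 10))) (.fin (.split (.split (.split .big (.iso 133 [0,1,2,8,3,4,5,7,6,10,9] [0,1,2,4,5,6,8,7,3,10,9])) (.deg 9)) (.deg 10))))) (.split (.split (.fin (.split (.split .big (.red [2,0,0,0,0,0,0,0,0,0,0,0,0,0] [0,1,3,4,5] [2])) (.deg 10))) (.fin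 (.split (.split (.split .big (.red [2,0,0,0,0,0,0,0,0,0,0,0,0,0,0] [0,1,3,4,5] [2])) (.deg 9)) (.deg 10)))) (.far 7 8))) (.split (.split (.split (.fin (.split (.split .big (.red [2,2,2,2,2,2,1,1,2,2,2,2,2,0] [0,2,3,4,5] [1])) (.deg 10))) (.far 6 9)) (.split (.fin (.split (.split (.split .big (.red [2,2,2,2,2,2,1,1,2,2,2,2,2,0,0] [0,2,3,4,5] [1])) (.split (.red [2,2,2,2,2,2,1,1,2,2,2,2,0,2,0] [0,1,2,4,5] [3]) (.red [0,2,0,0,0,0,0,0,0,0,0,0,0,0,0] [0,2,4,5] [1,3]))) (.deg 10))) (.far 6 9))) (.far 6 7))) (.split (.split (.split (.split (.fin (.split (.split .big (.iso 154 [1,5,0,3,2,4,10,7,6,8,9] [2,0,4,3,5,1,8,7,9,10,6])) (.deg 10))) (.fin (.split (.split (.split .big (.iso 172 [1,0,5,3,2,4,7,6,8,10,9] [1,0,4,3,5,2,7,6,8,10,9])) (.deg 9)) (.deg 10)))) (.split (.fin (.split (.split (.split .big (.iso 159 [1,5,0,3,2,4,7,6,10,8,9] [2,0,4,3,5,1,7,6,9,10,8])) (.split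 (.iso 135 [0,1,2,8,3,4,5,7,6,10,9] [0,1,2,4,5,6,8,7,3,10,9]) (.sep [0,1,2,3,4,5,8] [6,7,10] 0 1 9))) (.deg 10))) (.pet [[0],[1],[4],[6,9],[2],[8],[5],[7],[10],[3]]))) (.far 5 7)) (.split (.split (.split (.fin (.split (.split (.split .big (.red [2,2,2,2,2,2,1,1,2,2,2,2,0,0,2] [0,1,2,3,4] [5])) (.split (.red [2,2,2,2,2,2,1,1,2,2,2,2,2,0,0] [0,2,3,4,5] [1]) (.red [2,0,0,0,0,0,0,0,0,0,0,0,0,0,0] [0,2,3,4] [1,5]))) (.deg 10))) (.far 6 9)) (.split (.pet [[0],[1],[4],[6],[2],[8],[5],[7],[10],[3]]) (.far 6 9))) (.far 6 7)))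

theorem ok112 : chkA tbl q112 c112 q112.rt [] [] = true := by decide +kernel

def c113 : CA := .split (.split (.split (.split (.split (.fin (.split .big (.deg 10))) (.fin (.split (.split .big (.iso 164 [0,1,2,3,4,5,6,8,7,9,10] [0,1,2,3,4,5,6,8,7,9,10])) (.deg 10)))) (.split (.fin (.split (.split .big (.red [2,2,2,2,2,2,2,2,2,2,1,1,0,0,2] [0,1,2,4,5] [3])) (.deg 10))) (.far 8 9))) (.split (.split (.fin (.split (.split .big (.red [2,0,0,0,0,0,0,0,0,0,0,0,0,0,0] [0,1,3,4,5] [2])) (.deg 10))) (.far 7 9)) (.far 7 8))) (.split (.split (.split (.fin (.split (.split .big (.red [2,2,2,2,2,2,1,1,2,2,2,2,0,0,2] [0,2,3,4,5] [1])) (.deg 10))) (.far 6 9)) (.far 6 8)) (.far 6 7))) (.split (.split (.split (.split (.fin (.split (.split .big (.iso 155 [1,5,0,3,2,4,10,7,6,8,9] [2,0,4,3,5,1,8,7,9,10,6])) (.deg 10))) (.pet [[0],[1],[4],[6],[2],[8],[5,10],[7],[9],[3]])) (.split (.fin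 (.split (.split (.split .big (.red [0,0,0,0,2,0,0,0,0,0,0,0,0,0,0,0] [0,1,2,3,4] [5])) (.split (.red [2,0,0,0,0,0,0,0,0,0,0,0,0,0,0,0] [0,1,2,4,5] [3]) (.red [2,0,0,0,0,0,0,0,0,0,0,0,0,0,0,0] [0,1,2,4] [3,5]))) (.deg 10))) (.far 8 9))) (.far 5 7)) (.split (.split (.split (.fin (.split (.split (.split .big (.red [0,0,0,0,2,0,0,0,0,0,0,0,0,0,0,0] [0,1,2,3,4] [5])) (.split (.red [0,2,0,0,0,0,0,0,0,0,0,0,0,0,0,0] [0,2,3,4,5] [1]) (.red [2,0,0,0,0,0,0,0,0,0,0,0,0,0,0,0] [0,2,3,4] [1,5]))) (.deg 10))) (.far 6 9)) (.far 6 8)) (.far 6 7)))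

theorem ok113 : chkA tbl q113 c113 q113.rt [] [] = true := by decide +kernel

def c114 : CA := .split (.split (.split (.split (.split (.fin (.split .big (.deg 10))) (.fin (.split (.split .big (.iso 163 [0,1,2,3,4,5,8,6,7,9,10] [0,1,2,3,4,5,7,8,6,9,10])) (.deg 10)))) (.split (.fin (.split (.split .big (.iso 131 [0,1,2,8,3,4,5,6,7,10,9] [0,1,2,4,5,6,7,8,3,10,9])) (.deg 10))) (.far 8 9))) (.split (.split (.fin (.split (.split .big (.red [2,2,2,2,2,2,2,2,1,1,0,0,0,2] [0,1,2,4,5] [3])) (.deg 10))) (.far 7 9)) (.far 7 8))) (.split (.split (.split (.fin (.split (.split .big (.red [2,1,2,2,1,2,1,2,2,1,0,0,0,2] [0,2,3,4,5] [1])) (.deg 10))) (.fin (.split (.split (.split .big (.red [2,2,2,2,2,2,2,2,1,1,0,2,0,0,0] [0,2,3,4,5] [1])) (.split (.red [2,2,2,2,2,2,2,2,1,1,0,2,0,0,0] [1,2,3,4,5] [0]) (.red [2,2,2,2,2,2,2,2,2,2,1,0,2,2,1] [2,3,4,5] [0,1]))) (.deg 10)))) (.split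 (.fin (.split (.split (.split .big (.red [0,0,0,0,0,0,0,0,0,0,0,0,0,2,0] [0,2,3,4,5] [1])) (.split (.red [2,1,2,0,0,2,1,0,0,0,2,0,0,1,2] [0,1,3,4,5] [2]) (.red [0,0,0,0,0,0,0,0,0,0,0,0,0,2,0] [0,3,4,5] [1,2]))) (.deg 10))) (.far 8 9))) (.far 6 7))) (.split (.split (.split (.split (.fin (.split (.split .big (.iso 153 [1,5,0,3,2,4,10,6,7,8,9] [2,0,4,3,5,1,7,8,9,10,6])) (.deg 10))) (.fin (.split (.split (.split .big (.red [0,0,0,0,0,0,0,0,0,0,0,0,0,2,0] [0,1,2,3,4] [5])) (.split (.red [0,0,0,0,0,0,0,0,0,0,0,0,0,0,2] [1,2,3,4,5] [0]) (.red [0,0,0,0,0,0,0,0,0,0,0,0,0,0,2] [1,2,3,4] [0,5]))) (.deg 10)))) (.split (.fin (.split (.split (.split .big (.red [0,0,0,0,2,0,0,0,0,0,0,0,0,0,0] [0,1,2,3,4] [5])) (.split (.red [2,0,0,0,0,0,0,0,0,0,0,0,0,0,0] [0,1,3,4,5] [2]) (.red [2,0,0,0,0,0,0,0,0,0,0,0,0,0,0] [0,1,3,4] [2,5]))) (.deg 10))) (.far 8 9))) (.split (.split (.fin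 (.split (.split (.split .big (.red [2,2,2,2,2,2,2,2,1,1,0,0,0,0,2] [0,1,2,3,4] [5])) (.split (.red [2,2,2,2,2,2,2,2,1,1,0,0,0,2,0] [0,1,2,4,5] [3]) (.red [2,0,0,0,0,0,0,0,0,0,0,0,0,0,0] [0,1,2,4] [3,5]))) (.deg 10))) (.far 7 9)) (.far 7 8))) (.far 5 6))

theorem ok114 : chkA tbl q114 c114 q114.rt [] [] = true := by decide +kernel

def c115 : CA := .split (.split (.split (.split (.fin (.split (.iso 165 [0,1,2,3,4,5,6,7,8,10,9] [0,1,2,3,4,5,6,7,8,10,9]) (.deg 10))) (.fin (.split (.split (.iso 169 [0,1,2,3,4,5,6,7,8,9,10] [0,1,2,3,4,5,6,7,8,9,10]) (.red [2,2,1,1,2,1,2,2,2,2,2,2,1,0] [0,1,2,3] [4,5])) (.deg 10)))) (.split (.fin (.split (.split (.red [2,2,2,2,2,2,0,2,2,1,1,2,0,0] [0,1,2,3,4] [5]) (.red [2,0,0,0,0,0,0,0,0,0,0,0,0,0] [0,1,2,4] [3,5])) (.deg 10))) (.far 8 9))) (.split (.split (.fin (.split (.split (.iso 154 [0,1,2,4,3,5,6,8,7,9,10] [0,1,2,4,3,5,6,8,7,9,10])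 (.red [2,2,2,2,2,2,2,2,2,1,1,1,2,0] [0,2,3,4] [1,5])) (.deg 10))) (.fin (.split (.split (.split (.iso 155 [0,1,2,4,3,5,6,8,7,9,10] [0,1,2,4,3,5,6,8,7,9,10]) (.red [2,2,2,2,2,2,2,2,2,1,1,1,2,0,0] [0,2,3,4] [1,5])) (.split (.red [2,2,1,1,2,1,2,2,2,2,2,2,1,0,0] [0,1,2,3] [4,5]) (.clo 0 1 (.deg 6)))) (.deg 10)))) (.far 7 8))) (.split (.split (.split (.fin (.split (.split (.iso 160 [0,2,1,3,4,5,7,8,9,6,10] [0,2,1,3,4,5,9,6,7,8,10]) (.deg 6)) (.deg 10))) (.fin (.split (.split (.split (.iso 171 [0,1,2,3,4,5,7,8,6,9,10] [0,1,2,3,4,5,8,6,7,9,10]) (.deg 6)) (.split (.red [0,0,0,0,0,0,0,0,0,0,0,0,0,0,2] [0,1,2,3] [4,5]) (.deg 6))) (.deg 10)))) (.split (.fin (.split (.split (.split (.red [2,2,2,2,2,2,0,2,2,1,1,2,0,0,0] [0,1,2,3,4] [5]) (.deg 6)) (.split (.red [2,0,0,0,0,0,0,0,0,0,0,0,0,0,0] [0,1,2,4] [3,5]) (.deg 6))) (.deg 10))) (.far 8 9))) (.split (.split (.fin (.split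 (.split (.split (.iso 172 [0,2,1,4,3,5,8,7,9,6,10] [0,2,1,4,3,5,9,7,6,8,10]) (.deg 6)) (.split (.red [0,0,0,0,0,0,0,0,0,0,0,0,0,0,2] [0,2,3,4] [1,5]) (.deg 6))) (.deg 10))) (.pet [[0],[1,6],[4],[3],[2],[5],[10],[8],[7],[9]])) (.far 7 8)))

theorem ok115 : chkA tbl q115 c115 q115.rt [] [] = true := by decide +kernel

def c116 : CA := .split (.split (.split (.split (.fin (.split (.iso 166 [0,1,2,3,4,5,6,7,10,8,9] [0,1,2,3,4,5,6,7,9,10,8]) (.deg 10))) (.fin (.split (.split (.red [2,2,2,2,2,2,2,2,2,2,2,1,1,0,0] [0,1,2,3,4] [5]) (.red [0,2,0,0,0,0,0,0,0,0,0,0,0,0,0] [0,2,3,4] [1,5])) (.deg 10)))) (.split (.fin (.split (.split (.iso 161 [0,2,1,3,4,5,6,7,9,8,10] [0,2,1,3,4,5,6,7,9,8,10]) (.red [2,2,2,2,2,2,2,2,1,0,2,1,2,1,0] [0,1,2,3] [4,5])) (.deg 10))) (.far 8 9))) (.split (.split (.fin (.split (.split (.red [2,2,2,2,2,2,2,2,1,1,2,2,0,2,0] [0,1,2,3,4] [5]) (.red [2,0,0,0,0,0,0,0,0,0,0,0,0,0,0]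 [0,1,2,4] [3,5])) (.deg 10))) (.far 7 9)) (.far 7 8))) (.split (.split (.split (.fin (.split (.split (.iso 159 [0,1,2,4,3,5,7,6,8,9,10] [0,1,2,4,3,5,7,6,8,9,10]) (.red [2,2,2,2,2,2,2,2,1,1,0,1,2,0,2] [1,2,3,4] [0,5])) (.deg 10))) (.fin (.split (.split (.split (.red [2,0,0,0,0,0,0,0,0,0,0,0,0,0,0,0] [0,1,2,3,4] [5]) (.red [0,2,0,0,0,0,0,0,0,0,0,0,0,0,0,0] [1,2,3,4] [0,5])) (.split (.red [0,2,0,0,0,0,0,0,0,0,0,0,0,0,0,0] [0,2,3,4] [1,5]) (.clo 0 1 (.pet [[0],[1,8,11],[4],[3],[2],[5],[10],[7],[6],[9]])))) (.deg 10)))) (.split (.pet [[0],[1],[4],[3],[2],[5],[8],[7],[6,10],[9]]) (.far 8 9))) (.far 6 7))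

theorem ok116 : chkA tbl q116 c116 q116.rt [] [] = true := by decide +kernel

def c117 : CA := .split (.split (.split (.split (.split (.fin (.split .big (.deg 10))) (.fin (.split (.split .big (.red [2,2,2,1,2,1,2,1,1,2,2,2,1,0] [0,1,3,4,5] [2])) (.deg 10)))) (.split (.fin (.split (.split .big (.deg 8)) (.deg 10))) (.fin (.split (.split (.split .big (.deg 8)) (.split (.red [0,0,0,0,0,0,0,0,0,0,0,0,0,0,2] [0,1,3,4,5] [2]) (.deg 8))) (.deg 10))))) (.split (.split (.fin (.split (.split .big (.red [0,0,0,0,0,0,0,2,0,0,0,0,0,0] [0,2,3,4,5] [1])) (.deg 10))) (.far 7 9)) (.far 7 8))) (.split (.split (.split (.fin (.split (.split .big (.red [2,0,0,0,0,0,0,0,0,0,0,0,0,0] [1,2,3,4,5] [0])) (.deg 10))) (.far 6 9)) (.split (.fin (.split (.split (.split .big (.red [2,0,0,0,0,0,0,0,0,0,0,0,0,0,0] [1,2,3,4,5] [0])) (.deg 8)) (.deg 10))) (.far 6 9))) (.far 6 7))) (.split (.split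 (.split (.split (.fin (.split (.split .big (.red [2,2,1,2,1,1,2,1,2,2,0,2,2,2] [0,1,2,3,4] [5])) (.deg 10))) (.fin (.split (.split (.split .big (.red [2,2,1,2,1,1,2,1,2,2,2,2,2,0,0] [0,1,2,3,4] [5])) (.split (.red [2,2,2,1,2,1,2,1,1,2,2,2,1,0,0] [0,1,3,4,5] [2]) (.red [2,2,1,2,1,0,2,1,2,2,0,2,2,1,2] [0,1,3,4] [2,5]))) (.deg 10)))) (.split (.fin (.split (.split (.split .big (.red [0,0,0,0,0,0,0,0,0,0,0,0,0,2,0] [0,1,2,3,4] [5])) (.deg 8)) (.deg 10))) (.pet [[0],[1],[2,8],[7],[3],[5],[6],[10],[4],[9]]))) (.far 5 7)) (.far 5 6))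

theorem ok117 : chkA tbl q117 c117 q117.rt [] [] = true := by decide +kernel

def c118 : CA := .split (.split (.split (.split (.split (.fin (.split .big (.deg 10))) (.fin (.split (.split .big (.red [2,0,0,0,0,0,0,0,0,0,0,0,0,0,0] [0,1,3,4,5] [2])) (.deg 10)))) (.split (.fin (.split (.split .big (.red [2,2,1,2,1,1,2,1,2,2,2,2,2,0,0] [0,1,2,3,5] [4])) (.deg 10))) (.far 8 9))) (.split (.split (.fin (.split (.split .big (.red [0,0,0,0,0,0,0,2,0,0,0,0,0,0,0] [0,2,3,4,5] [1])) (.deg 10))) (.far 7 9)) (.far 7 8))) (.split (.split (.split (.fin (.split (.split .big (.red [2,0,0,0,0,0,0,0,0,0,0,0,0,0,0] [1,2,3,4,5] [0])) (.deg 10))) (.far 6 9)) (.far 6 8)) (.far 6 7))) (.split (.split (.split (.split (.fin (.split (.split .big (.red [2,2,1,2,1,1,2,1,2,2,0,2,2,0,2] [0,1,2,3,4] [5])) (.deg 10))) (.fin (.split (.split (.split .big (.red [2,0,0,0,0,0,0,0,0,0,0,0,0,0,0,0]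 [0,1,2,3,4] [5])) (.split (.red [2,0,0,0,0,0,0,0,0,0,0,0,0,0,0,0] [0,1,3,4,5] [2]) (.red [0,0,0,2,0,0,0,0,0,0,0,0,0,0,0,0] [0,1,3,4] [2,5]))) (.deg 10)))) (.split (.pet [[0],[1],[2],[7],[3],[5,10],[6],[8],[4],[9]]) (.far 8 9))) (.far 5 7)) (.far 5 6))

theorem ok118 : chkA tbl q118 c118 q118.rt [] [] = true := by decide +kernel

def c119 : CA := .split (.split (.split (.split (.split (.fin (.split .big (.deg 11))) (.fin (.split (.split .big (.deg 10)) (.deg 11)))) (.split (.fin (.split (.split .big (.red [0,0,0,0,0,0,0,0,2,0,0,0,0,0,0,0] [0,1,2,4,5] [3])) (.deg 11))) (.fin (.split (.split (.split .big (.red [0,0,0,0,0,0,0,0,2,0,0,0,0,0,0,0,0] [0,1,2,4,5] [3])) (.deg 10)) (.deg 11))))) (.split (.split (.fin (.split (.split .big (.red [0,0,0,0,0,0,0,0,0,0,2,0,0,0,0,0] [1,2,3,4,5] [0])) (.deg 11))) (.far 6 10)) (.far 6 7))) (.split (.split (.split (.fin (.split (.split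 .big (.red [0,0,0,0,2,0,0,0,0,0,0,0,0,0,0,0] [0,1,2,3,4] [5])) (.deg 11))) (.fin (.split (.split (.split .big (.red [0,0,0,0,2,0,0,0,0,0,0,0,0,0,0,0,0] [0,1,2,3,4] [5])) (.deg 10)) (.deg 11)))) (.far 5 7)) (.far 5 6))) (.split (.split (.split (.split (.fin (.split (.split .big (.iso 183 [4,0,1,2,3,11,5,7,6,8,9,10] [1,2,3,4,0,6,8,7,9,10,11,5])) (.deg 11))) (.pet [[0],[2],[6],[8,10],[4,11],[5],[7],[3],[9],[1]])) (.far 4 7)) (.split (.split (.fin (.split (.split (.split .big (.red [0,0,2,0,0,0,0,0,0,0,0,0,0,0,0,0,0] [0,1,2,3,5] [4])) (.split (.red [0,0,0,0,0,0,0,0,0,0,2,0,0,0,0,0,0] [1,2,3,4,5] [0]) (.red [0,0,0,0,0,0,2,0,0,0,0,0,0,0,0,0,0] [1,2,3,5] [0,4]))) (.deg 11))) (.far 6 10)) (.far 6 7))) (.far 4 5))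

theorem ok119 : chkA tbl q119 c119 q119.rt [] [] = true := by decide +kernel

def c120 : CA := .split (.split (.split (.split (.split (.fin (.split .big (.deg 11))) (.fin (.split (.split .big (.deg 10)) (.deg 11)))) (.split (.fin (.split (.split .big (.deg 9)) (.deg 11))) (.fin (.split (.split (.split .big (.deg 9)) (.deg 10)) (.deg 11))))) (.split (.split (.fin (.split (.split .big (.iso 173 [4,8,7,0,2,1,3,11,5,6,9,10] [3,5,4,6,0,8,9,2,1,10,11,7])) (.deg 11))) (.fin (.split (.split (.split .big (.red [1,2,2,1,2,0,2,2,2,1,2,1,2,0] [0,1,3,4,5] [2])) (.deg 10)) (.deg 11)))) (.split (.fin (.split (.split (.split .big (.red [2,1,1,2,0,2,2,2,2,1,1,2,2,0] [0,1,3,4,5] [2])) (.deg 9)) (.deg 11))) (.fin (.split (.split (.split (.split .big (.red [2,1,1,2,2,2,2,2,2,1,1,0,0,2,0] [0,1,3,4,5] [2])) (.deg 9)) (.deg 10)) (.split (.split (.split (.red [1,2,2,1,2,0,0,2,2,0,2,1,2,1,2]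 [0,1,2,4,5] [3]) (.red [2,1,1,2,2,0,2,2,2,1,1,0,0,2,2] [0,1,4,5] [2,3])) (.deg 9)) (.deg 10))))))) (.split (.split (.split (.fin (.split (.split .big (.deg 6)) (.deg 11))) (.fin (.split (.split (.split .big (.deg 6)) (.deg 10)) (.deg 11)))) (.split (.fin (.split (.split (.split .big (.deg 6)) (.deg 9)) (.deg 11))) (.fin (.split (.split (.split (.split .big (.deg 6)) (.deg 9)) (.deg 10)) (.split (.split (.split (.red [2,2,2,2,0,1,2,2,2,2,1,0,0,2,2] [0,1,2,4,5] [3]) (.deg 6)) (.deg 9)) (.deg 10)))))) (.split (.split (.fin (.split (.split (.split .big (.deg 6)) (.split (.red [1,2,2,2,2,1,1,2,1,2,2,0,0,2] [0,1,3,4,5] [2]) (.deg 6))) (.deg 11))) (.fin (.split (.split (.split (.split .big (.deg 6)) (.split (.red [1,2,2,2,2,1,1,2,1,2,2,0,0,0,2] [0,1,3,4,5] [2]) (.deg 6))) (.deg 10)) (.split (.split (.split (.red [1,2,2,1,2,2,0,2,2,0,0,1,2,2,1] [0,1,2,4,5] [3]) (.deg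 6)) (.split (.red [1,2,2,2,2,1,1,2,1,2,0,0,0,2,2] [0,1,4,5] [2,3]) (.deg 6))) (.deg 10))))) (.split (.fin (.split (.split (.split (.split .big (.deg 6)) (.split (.red [0,0,0,0,0,0,2,0,0,0,0,0,0,0,0] [0,1,3,4,5] [2]) (.deg 6))) (.deg 9)) (.split (.split (.split (.red [2,2,2,2,0,1,2,2,2,2,1,0,2,0,2] [0,1,2,4,5] [3]) (.deg 6)) (.split (.red [0,0,0,0,0,0,2,0,0,0,0,0,0,0,0] [0,1,4,5] [2,3]) (.deg 6))) (.deg 9)))) (.fin (.split (.split (.split (.split (.split .big (.deg 6)) (.split (.red [0,0,0,0,0,0,2,0,0,0,0,0,0,0,0,0] [0,1,3,4,5] [2]) (.deg 6))) (.deg 9)) (.deg 10)) (.split (.split (.split (.split (.red [2,0,0,0,0,0,0,0,0,0,0,0,0,0,0,0] [0,1,2,4,5] [3]) (.deg 6)) (.split (.red [0,0,0,0,0,0,2,0,0,0,0,0,0,0,0,0] [0,1,4,5] [2,3]) (.deg 6))) (.deg 9)) (.deg 10)))))))) (.split (.split (.split (.split (.fin (.split (.split .big (.deg 5)) (.deg 11))) (.fin (.split (.split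 (.split .big (.deg 5)) (.deg 10)) (.deg 11)))) (.split (.fin (.split (.split (.split .big (.deg 5)) (.deg 9)) (.deg 11))) (.fin (.split (.split (.split (.split .big (.deg 5)) (.deg 9)) (.deg 10)) (.split (.split (.split (.red [2,2,2,2,1,0,2,2,2,2,0,1,2,0,2] [0,1,2,4,5] [3]) (.deg 5)) (.deg 9)) (.deg 10)))))) (.split (.split (.fin (.split (.split (.split .big (.deg 5)) (.split (.red [2,1,2,2,1,2,1,1,2,2,0,2,0,2] [0,1,3,4,5] [2]) (.deg 5))) (.deg 11))) (.fin (.split (.split (.split (.split .big (.deg 5)) (.split (.red [0,0,0,0,0,0,2,0,0,0,0,0,0,0,0] [0,1,3,4,5] [2]) (.deg 5))) (.deg 10)) (.split (.split (.split (.red [2,2,2,2,1,0,2,2,2,2,0,1,2,0,2] [0,1,2,4,5] [3]) (.deg 5)) (.split (.red [0,0,0,0,0,0,2,0,0,0,0,0,0,0,0] [0,1,4,5] [2,3]) (.deg 5))) (.deg 10))))) (.split (.fin (.split (.split (.split (.split .big (.deg 5)) (.split (.red [2,1,2,2,1,2,1,1,2,2,0,2,0,0,2]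 [0,1,3,4,5] [2]) (.deg 5))) (.deg 9)) (.split (.split (.split (.red [2,1,1,2,2,2,0,2,2,0,1,0,2,2,1] [0,1,2,4,5] [3]) (.deg 5)) (.split (.red [2,1,2,2,1,2,1,1,2,2,0,0,0,2,2] [0,1,4,5] [2,3]) (.deg 5))) (.deg 9)))) (.fin (.split (.split (.split (.split (.split .big (.deg 5)) (.split (.red [0,0,0,0,0,0,2,0,0,0,0,0,0,0,0,0] [0,1,3,4,5] [2]) (.deg 5))) (.deg 9)) (.deg 10)) (.split (.split (.split (.split (.red [0,2,0,0,0,0,0,0,0,0,0,0,0,0,0,0] [0,1,2,4,5] [3]) (.deg 5)) (.split (.red [0,0,0,0,0,0,2,0,0,0,0,0,0,0,0,0] [0,1,4,5] [2,3]) (.deg 5))) (.deg 9)) (.deg 10))))))) (.split (.split (.split (.fin (.split (.split (.split .big (.deg 5)) (.deg 6)) (.deg 11))) (.fin (.split (.split (.split (.split .big (.deg 5)) (.deg 6)) (.deg 10)) (.split (.split (.split (.red [2,2,2,2,1,0,2,2,2,2,0,1,2,0,2] [0,1,2,4,5] [3]) (.deg 5)) (.deg 6)) (.deg 10))))) (.split (.fin (.split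 (.split (.split (.split .big (.deg 5)) (.deg 6)) (.deg 9)) (.split (.split (.split (.red [2,2,2,2,0,1,2,2,2,2,1,0,2,2,0] [0,1,2,4,5] [3]) (.deg 5)) (.deg 6)) (.deg 9)))) (.fin (.split (.split (.split (.split (.split .big (.deg 5)) (.deg 6)) (.deg 9)) (.deg 10)) (.split (.split (.split (.split (.red [0,0,2,0,0,0,0,0,0,0,0,0,0,0,0,0] [0,1,2,4,5] [3]) (.deg 5)) (.deg 6)) (.deg 9)) (.deg 10)))))) (.split (.split (.fin (.split (.split (.split (.split .big (.deg 5)) (.deg 6)) (.split (.split (.red [2,1,2,2,1,0,1,1,2,2,2,2,0,0,2] [0,1,3,4,5] [2]) (.deg 5)) (.deg 6))) (.split (.split (.split (.red [1,2,2,2,2,1,0,2,1,0,2,0,2,2,1] [0,1,2,4,5] [3]) (.deg 5)) (.deg 6)) (.split (.split (.red [2,1,2,2,1,0,1,1,2,2,2,0,2,0,2] [0,1,4,5] [2,3]) (.deg 5)) (.deg 6))))) (.fin (.split (.split (.split (.split (.split .big (.deg 5)) (.deg 6)) (.split (.split (.red [0,0,0,0,0,0,0,0,0,2,0,0,0,0,0,0]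 [0,1,3,4,5] [2]) (.deg 5)) (.deg 6))) (.deg 10)) (.split (.split (.split (.split (.red [2,0,0,0,0,0,0,0,0,0,0,0,0,0,0,0] [0,1,2,4,5] [3]) (.deg 5)) (.deg 6)) (.split (.split (.red [0,0,0,0,0,0,0,0,0,2,0,0,0,0,0,0] [0,1,4,5] [2,3]) (.deg 5)) (.deg 6))) (.deg 10))))) (.split (.fin (.split (.split (.split (.split (.split .big (.deg 5)) (.deg 6)) (.split (.split (.red [0,0,0,0,0,0,0,0,0,2,0,0,0,0,0,0] [0,1,3,4,5] [2]) (.deg 5)) (.deg 6))) (.deg 9)) (.split (.split (.split (.split (.red [0,2,0,0,0,0,0,0,0,0,0,0,0,0,0,0] [0,1,2,4,5] [3]) (.deg 5)) (.deg 6)) (.split (.split (.red [0,0,0,0,0,0,0,0,0,2,0,0,0,0,0,0] [0,1,4,5] [2,3]) (.deg 5)) (.deg 6))) (.deg 9)))) (.fin (.split (.split (.split (.split (.split (.split .big (.deg 5)) (.deg 6)) (.split (.split (.red [0,0,0,0,0,0,2,0,0,0,0,0,0,0,0,0,0] [0,1,3,4,5] [2]) (.deg 5)) (.deg 6))) (.deg 9)) (.deg 10)) (.split (.split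 (.split (.split (.split (.red [2,0,0,0,0,0,0,0,0,0,0,0,0,0,0,0,0] [0,1,2,4,5] [3]) (.deg 5)) (.deg 6)) (.split (.split (.red [0,0,0,0,0,0,2,0,0,0,0,0,0,0,0,0,0] [0,1,4,5] [2,3]) (.deg 5)) (.deg 6))) (.deg 9)) (.deg 10))))))))

theorem ok120 : chkA tbl q120 c120 q120.rt [] [] = true := by decide +kernel

end Pool.Agent.TH395.P5
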