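import Pool.Agent.TH395.P5.Tab

set_option autoImplicit false
set_option maxRecDepth 100000

/-! # Certificates, part 6 -/

namespace Pool.Agent.TH395.P5

def c121 : CA := .split (.split (.split (.split (.split (.fin (.split .big (.deg 11))) (.fin (.split (.split .big (.deg 10)) (.deg 11)))) (.split (.fin (.split (.split .big (.red [1,2,2,2,2,0,0,2,1,2,1,1,2,2] [0,1,2,3,5] [4])) (.deg 11))) (.fin (.split (.split (.split .big (.red [1,2,2,2,2,0,2,2,1,2,1,1,2,0,0] [0,1,2,3,5] [4])) (.deg 10)) (.deg 11))))) (.split (.split (.fin (.split (.split .big (.red [1,2,2,2,2,2,1,0,0,1,2,2,1,2] [0,1,3,4,5] [2])) (.deg 11))) (.fin (.split (.split (.split .big (.red [1,2,2,2,2,2,1,0,2,1,2,2,1,0,0] [0,1,3,4,5] [2])) (.deg 10)) (.deg 11)))) (.far 8 9))) (.split (.split (.split (.fin (.split (.split .big (.red [1,2,2,2,2,2,1,1,2,0,0,2,1,2] [0,2,3,4,5] [1])) (.deg 11))) (.fin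 (.split (.split (.split .big (.red [1,2,2,2,2,2,1,1,2,0,2,2,1,0,0] [0,2,3,4,5] [1])) (.deg 10)) (.deg 11)))) (.far 7 9)) (.split (.split (.fin (.split (.split (.split .big (.red [0,0,0,0,0,0,0,0,0,0,0,0,0,2,0] [0,2,3,4,5] [1])) (.split (.red [0,0,0,0,0,0,0,0,0,0,0,0,0,0,2] [0,1,3,4,5] [2]) (.sep [0,1,2,3,4,5,7,8] [6,9,11] 0 1 10))) (.deg 11))) (.fin (.split (.split (.split (.split .big (.red [0,0,0,0,0,0,0,0,0,0,0,0,0,0,2,0] [0,2,3,4,5] [1])) (.split (.red [0,0,0,0,0,0,0,0,0,0,0,0,0,0,0,2] [0,1,3,4,5] [2]) (.sep [0,1,2,3,4,5,7,8] [6,9,11] 0 1 10))) (.deg 10)) (.split (.split (.split (.iso 175 [0,1,2,3,4,5,6,7,9,8,11,10] [0,1,2,3,4,5,6,7,9,8,11,10]) (.red [0,0,0,0,0,0,0,0,0,0,0,0,0,0,2,0] [0,2,3,4] [1,5])) (.split (.red [0,0,0,0,0,0,0,0,0,0,0,0,0,0,0,2] [0,1,3,4] [2,5]) (.clo 0 1 (.deg 10)))) (.deg 10))))) (.far 8 9)))) (.split (.split (.split (.split (.fin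 (.split (.split .big (.red [1,2,2,2,2,1,2,2,1,2,1,0,0,2] [1,2,3,4,5] [0])) (.deg 11))) (.fin (.split (.split (.split .big (.red [1,2,2,2,2,1,2,2,1,2,1,0,2,0,0] [1,2,3,4,5] [0])) (.deg 10)) (.deg 11)))) (.split (.fin (.split (.split (.split .big (.red [0,0,0,0,0,0,0,0,0,0,0,0,0,2,0] [1,2,3,4,5] [0])) (.split (.red [0,0,0,0,0,0,0,0,0,0,0,0,0,0,2] [0,1,2,3,5] [4]) (.sep [0,1,2,3,4,5,6,9] [7,8,11] 0 1 10))) (.deg 11))) (.fin (.split (.split (.split (.split .big (.red [0,0,0,0,0,0,0,0,0,0,0,0,0,0,2,0] [1,2,3,4,5] [0])) (.split (.red [0,0,0,0,0,0,0,0,0,0,0,0,0,0,0,2] [0,1,2,3,5] [4]) (.sep [0,1,2,3,4,5,6,9] [7,8,11] 0 1 10))) (.deg 10)) (.split (.split (.split (.iso 175 [0,1,2,3,5,4,7,6,8,9,11,10] [0,1,2,3,5,4,7,6,8,9,11,10]) (.red [0,0,0,0,0,0,0,0,0,0,0,0,0,0,2,0] [1,2,3,4] [0,5])) (.split (.red [0,0,0,0,0,0,0,0,0,0,0,0,0,0,0,2] [0,1,2,3] [4,5]) (.clo 0 1 (.deg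 10)))) (.deg 10)))))) (.far 6 8)) (.far 6 7))

theorem ok121 : chkA tbl q121 c121 q121.rt [] [] = true := by decide +kernel

def c122 : CA := .split (.split (.split (.split (.split (.fin (.split .big (.deg 11))) (.fin (.split (.split .big (.deg 10)) (.deg 11)))) (.split (.fin (.split (.split .big (.red [2,0,0,0,0,0,0,0,0,0,0,0,0,0,0] [0,1,2,3,4] [5])) (.deg 11))) (.fin (.split (.split (.split .big (.red [2,0,0,0,0,0,0,0,0,0,0,0,0,0,0,0] [0,1,2,3,4] [5])) (.deg 10)) (.deg 11))))) (.split (.split (.fin (.split (.split .big (.red [2,2,2,2,2,2,2,0,1,2,2,1,1,2,0] [0,1,3,4,5] [2])) (.deg 11))) (.fin (.split (.split (.split .big (.red [2,2,2,2,2,2,2,0,1,2,2,1,1,2,0,0] [0,1,3,4,5] [2])) (.deg 10)) (.deg 11)))) (.far 8 9))) (.split (.split (.split (.fin (.split (.split .big (.red [2,0,0,0,0,0,0,0,0,0,0,0,0,0,0] [0,2,3,4,5] [1])) (.deg 11))) (.fin (.split (.split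 (.split .big (.red [2,0,0,0,0,0,0,0,0,0,0,0,0,0,0,0] [0,2,3,4,5] [1])) (.deg 10)) (.deg 11)))) (.far 7 9)) (.far 7 8))) (.split (.split (.split (.split (.fin (.split (.split .big (.red [2,2,2,2,2,2,2,1,1,2,2,0,1,2,0] [1,2,3,4,5] [0])) (.deg 11))) (.fin (.split (.split (.split .big (.red [2,2,2,2,2,2,2,1,1,2,2,0,1,2,0,0] [1,2,3,4,5] [0])) (.deg 10)) (.deg 11)))) (.far 6 9)) (.split (.split (.pet [[0],[1],[4],[6,11],[2],[3],[5],[9],[8],[7]]) (.pet [[0],[1],[4],[6,11],[2],[3],[5],[9],[8],[7]])) (.far 8 9))) (.far 6 7))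

theorem ok122 : chkA tbl q122 c122 q122.rt [] [] = true := by decide +kernel

def c123 : CA := .split (.split (.split (.split (.split (.fin (.split .big (.deg 11))) (.fin (.split (.split .big (.iso 175 [0,1,2,3,4,5,6,7,8,9,10,11] [0,1,2,3,4,5,6,7,8,9,10,11])) (.deg 11)))) (.split (.fin (.split (.split .big (.red [0,0,0,0,0,0,0,0,0,0,0,0,0,0,2,0] [0,1,2,3,4] [5])) (.deg 11))) (.far 9 10))) (.split (.split (.fin (.split (.split .big (.red [2,2,2,2,2,2,2,0,1,2,2,1,1,2,2,0] [0,1,3,4,5] [2])) (.deg 11))) (.fin (.split (.split (.split .big (.red [2,0,0,0,0,0,0,0,0,0,0,0,0,0,0,0,0] [0,1,3,4,5] [2])) (.split (.red [2,0,0,0,0,0,0,0,0,0,0,0,0,0,0,0,0] [0,1,2,4,5] [3]) (.red [2,0,0,0,0,0,0,0,0,0,0,0,0,0,0,0,0] [0,1,4,5] [2,3]))) (.deg 11)))) (.far 8 9))) (.split (.split (.split (.fin (.split (.split .big (.red [0,0,0,0,0,0,0,0,0,0,0,0,0,2,0,0] [0,2,3,4,5] [1]))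 (.deg 11))) (.far 7 10)) (.far 7 9)) (.far 7 8))) (.split (.split (.split (.split (.fin (.split (.split .big (.red [2,2,2,2,2,2,2,1,1,2,2,0,1,2,2,0] [1,2,3,4,5] [0])) (.deg 11))) (.fin (.split (.split (.split .big (.red [2,0,0,0,0,0,0,0,0,0,0,0,0,0,0,0,0] [1,2,3,4,5] [0])) (.split (.red [2,0,0,0,0,0,0,0,0,0,0,0,0,0,0,0,0] [0,1,2,4,5] [3]) (.red [2,0,0,0,0,0,0,0,0,0,0,0,0,0,0,0,0] [1,2,4,5] [0,3]))) (.deg 11)))) (.far 6 9)) (.split (.split (.pet [[0],[1],[4],[6,11],[2],[3],[5],[9],[8],[7,10]]) (.pet [[0,2],[3],[8],[11],[6],[7],[9],[5],[10],[1,4]])) (.far 8 9))) (.far 6 7))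

theorem ok123 : chkA tbl q123 c123 q123.rt [] [] = true := by decide +kernel

def c124 : CA := .split (.split (.split (.split (.split (.fin (.split .big (.deg 11))) (.fin (.split (.split .big (.deg 10)) (.deg 11)))) (.split (.fin (.split (.split .big (.deg 9)) (.deg 11))) (.fin (.split (.split (.split .big (.deg 9)) (.deg 10)) (.deg 11))))) (.split (.split (.fin (.split (.split .big (.red [0,0,2,0,0,0,0,0,0,0,0,0,0,0] [0,1,3,4,5] [2])) (.deg 11))) (.far 8 10)) (.split (.fin (.split (.split (.split .big (.red [0,0,2,0,0,0,0,0,0,0,0,0,0,0,0] [0,1,3,4,5] [2])) (.deg 9)) (.deg 11))) (.far 8 10)))) (.split (.split (.split (.fin (.split (.split .big (.red [1,2,2,2,1,2,2,2,1,1,2,2,0,2] [0,2,3,4,5] [1])) (.deg 11))) (.fin (.split (.split (.split .big (.red [0,0,0,0,0,0,0,0,0,0,0,0,0,2,0] [0,2,3,4,5] [1])) (.deg 10)) (.deg 11)))) (.split (.fin (.split (.split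 (.split .big (.red [1,2,2,2,1,2,2,2,1,1,2,2,2,0,0] [0,2,3,4,5] [1])) (.deg 9)) (.deg 11))) (.fin (.split (.split (.split (.split .big (.red [0,0,0,0,0,0,0,0,0,0,0,0,0,2,0,0] [0,2,3,4,5] [1])) (.deg 9)) (.deg 10)) (.split (.split (.split (.iso 180 [0,1,2,3,5,4,6,7,8,11,10,9] [0,1,2,3,5,4,6,7,8,11,10,9]) (.red [0,0,0,0,0,0,0,0,0,0,0,0,0,2,0,0] [0,2,4,5] [1,3])) (.deg 9)) (.deg 10)))))) (.far 7 8))) (.split (.split (.split (.split (.fin (.split (.split .big (.red [2,1,2,1,2,2,1,2,2,1,2,2,0,2] [1,2,3,4,5] [0])) (.deg 11))) (.fin (.split (.split (.split .big (.red [0,0,0,0,0,0,0,0,0,0,0,0,0,2,0] [1,2,3,4,5] [0])) (.deg 10)) (.deg 11)))) (.split (.fin (.split (.split (.split .big (.red [2,1,2,1,2,2,1,2,2,1,2,2,2,0,0] [1,2,3,4,5] [0])) (.deg 9)) (.deg 11))) (.fin (.split (.split (.split (.split .big (.red [0,0,0,0,0,0,0,0,0,0,0,0,0,2,0,0] [1,2,3,4,5] [0])) (.deg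 9)) (.deg 10)) (.split (.split (.split (.iso 180 [0,2,1,3,4,5,7,6,8,11,10,9] [0,2,1,3,4,5,7,6,8,11,10,9]) (.red [0,0,0,0,0,0,0,0,0,0,0,0,0,2,0,0] [1,2,4,5] [0,3])) (.deg 9)) (.deg 10)))))) (.far 6 8)) (.split (.split (.split (.fin (.split (.split (.split .big (.red [2,1,2,1,2,2,1,2,2,1,2,2,2,0,0] [1,2,3,4,5] [0])) (.split (.red [1,2,2,2,1,2,2,2,1,1,2,2,2,0,0] [0,2,3,4,5] [1]) (.sep [1,2,4,5,6,7] [0,8,11] 1 2 9))) (.deg 11))) (.pet [[0],[1],[4],[7],[2],[3,10],[6],[8],[11],[5]])) (.split (.fin (.split (.split (.split (.split .big (.red [2,1,2,1,2,2,1,2,2,1,2,2,2,0,0,0] [1,2,3,4,5] [0])) (.split (.red [1,2,2,2,1,2,2,2,1,1,2,2,2,0,0,0] [0,2,3,4,5] [1]) (.sep [1,2,4,5,6,7] [0,8,11] 1 2 10))) (.deg 9)) (.split (.split (.split (.iso 176 [0,1,2,3,4,5,6,7,8,11,10,9] [0,1,2,3,4,5,6,7,8,11,10,9]) (.red [2,1,2,1,2,2,1,2,2,0,2,2,0,0,1,2] [1,2,4,5] [0,3])) (.split (.red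 [1,2,2,2,1,2,2,2,1,0,2,2,0,0,2,1] [0,2,4,5] [1,3]) (.clo 0 1 (.deg 10)))) (.deg 9)))) (.pet [[0],[1],[4],[7],[2],[3,10],[6],[8],[11],[5]]))) (.far 7 8)))

theorem ok124 : chkA tbl q124 c124 q124.rt [] [] = true := by decide +kernel

def c125 : CA := .split (.split (.split (.split (.split (.fin (.split .big (.deg 11))) (.fin (.split (.split .big (.deg 10)) (.deg 11)))) (.split (.fin (.split (.split .big (.deg 9)) (.deg 11))) (.far 9 10))) (.split (.split (.fin (.split (.split .big (.red [1,2,2,2,2,2,1,1,2,1,2,0,0,0] [0,1,3,4,5] [2])) (.deg 11))) (.fin (.split (.split (.split .big (.red [2,2,1,2,2,2,2,2,2,2,2,2,0,2,1] [0,1,3,4,5] [2])) (.deg 10)) (.deg 11)))) (.split (.fin (.split (.split (.split .big (.red [2,2,1,2,2,2,2,2,2,2,2,0,2,2,1] [0,1,3,4,5] [2])) (.deg 9)) (.deg 11))) (.far 9 10)))) (.split (.split (.split (.fin (.split (.split .big (.iso 192 [2,0,7,1,4,3,5,11,6,8,9,10]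 [1,3,0,5,4,6,8,2,9,10,11,7])) (.deg 11))) (.fin (.split (.split (.split .big (.iso 189 [0,2,1,7,4,3,5,6,8,9,11,10] [0,2,1,5,4,6,7,3,8,9,11,10])) (.deg 10)) (.deg 11)))) (.split (.fin (.split (.split (.split .big (.iso 189 [0,2,1,7,4,3,5,6,8,10,11,9] [0,2,1,5,4,6,7,3,8,11,9,10])) (.deg 9)) (.deg 11))) (.far 9 10))) (.far 7 8))) (.split (.split (.split (.split (.fin (.split (.split .big (.iso 192 [1,0,6,2,5,3,4,11,7,8,9,10] [1,0,3,5,6,4,2,8,9,10,11,7])) (.deg 11))) (.fin (.split (.split (.split .big (.iso 189 [0,1,2,6,5,3,4,7,8,9,11,10] [0,1,2,5,6,4,3,7,8,9,11,10])) (.deg 10)) (.deg 11)))) (.split (.fin (.split (.split (.split .big (.iso 189 [0,1,2,6,5,3,4,7,8,10,11,9] [0,1,2,5,6,4,3,7,8,11,9,10])) (.deg 9)) (.deg 11))) (.far 9 10))) (.far 6 8)) (.split (.split (.split (.fin (.split (.split (.split .big (.iso 188 [0,1,2,6,5,3,4,8,7,9,10,11] [0,1,2,5,6,4,3,8,7,9,10,11]))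 (.split (.iso 188 [0,2,1,7,4,3,5,8,6,9,10,11] [0,2,1,5,4,6,8,3,7,9,10,11]) (.sep [1,2,4,5,6,7] [0,8,11] 1 2 9))) (.deg 11))) (.fin (.split (.split (.split (.split .big (.iso 191 [0,1,2,6,5,3,4,8,7,9,10,11] [0,1,2,5,6,4,3,8,7,9,10,11])) (.split (.iso 191 [0,2,1,7,4,3,5,8,6,9,10,11] [0,2,1,5,4,6,8,3,7,9,10,11]) (.sep [1,2,4,5,6,7] [0,8,11] 1 2 9))) (.deg 10)) (.split (.split (.split (.red [2,2,1,2,2,2,2,2,2,2,2,2,0,1,0,2] [0,1,2,4,5] [3]) (.red [0,0,0,0,0,0,0,0,0,0,0,0,2,0,0,0] [1,2,4,5] [0,3])) (.split (.red [0,0,0,0,0,0,0,0,0,0,0,0,2,0,0,0] [0,2,4,5] [1,3]) (.clo 0 1 (.deg 9)))) (.deg 10))))) (.split (.fin (.split (.split (.split (.split .big (.iso 191 [0,1,2,6,5,3,4,8,7,10,9,11] [0,1,2,5,6,4,3,8,7,10,9,11])) (.split (.iso 191 [0,2,1,7,4,3,5,8,6,10,9,11] [0,2,1,5,4,6,8,3,7,10,9,11]) (.sep [1,2,4,5,6,7] [0,8,11] 1 2 10))) (.deg 9)) (.split (.split (.split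 (.red [2,2,1,2,2,2,2,2,2,2,2,0,2,1,0,2] [0,1,2,4,5] [3]) (.red [0,0,0,0,0,0,0,0,0,0,0,2,0,0,0,0] [1,2,4,5] [0,3])) (.split (.red [0,0,0,0,0,0,0,0,0,0,0,2,0,0,0,0] [0,2,4,5] [1,3]) (.clo 0 1 (.deg 10)))) (.deg 9)))) (.far 9 10))) (.far 7 8)))

theorem ok125 : chkA tbl q125 c125 q125.rt [] [] = true := by decide +kernel

def c126 : CA := .split (.split (.split (.split (.split (.fin (.split .big (.deg 11))) (.fin (.split (.split .big (.deg 10)) (.deg 11)))) (.split (.fin (.split (.split .big (.iso 179 [0,3,2,1,9,5,10,11,8,4,6,7] [0,3,2,1,9,5,10,11,8,4,6,7])) (.deg 11))) (.far 9 10))) (.split (.split (.fin (.split (.split .big (.red [2,1,2,1,2,2,0,2,2,1,1,2,0,2] [0,1,2,3,5] [4])) (.deg 11))) (.fin (.split (.split (.split .big (.red [0,0,0,0,0,0,0,0,0,0,0,0,0,2,0] [0,1,2,3,5] [4])) (.deg 10)) (.deg 11)))) (.far 8 9))) (.split (.split (.split (.fin (.split (.split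 .big (.deg 7)) (.deg 11))) (.fin (.split (.split (.split .big (.deg 7)) (.deg 10)) (.deg 11)))) (.split (.fin (.split (.split (.split .big (.deg 7)) (.split (.red [0,0,0,0,0,0,0,0,0,0,0,0,0,2,0] [0,2,3,4,5] [1]) (.deg 7))) (.deg 11))) (.far 9 10))) (.split (.split (.fin (.split (.split (.split .big (.deg 7)) (.split (.red [1,2,2,0,1,2,0,0,2,2,0,0,0,0,0] [0,1,2,3,5] [4]) (.deg 7))) (.deg 11))) (.fin (.split (.split (.split (.split .big (.deg 7)) (.split (.red [2,0,0,0,0,0,0,0,0,0,0,0,0,0,0,0] [0,1,2,3,5] [4]) (.deg 7))) (.deg 10)) (.split (.split (.split (.red [0,2,0,0,0,0,0,0,0,0,0,0,0,0,0,0] [0,1,2,4,5] [3]) (.deg 7)) (.split (.red [2,0,0,0,0,0,0,0,0,0,0,0,0,0,0,0] [0,1,2,5] [3,4]) (.deg 7))) (.deg 10))))) (.far 8 9)))) (.split (.split (.split (.split (.fin (.split (.split .big (.red [1,2,2,2,1,2,1,2,0,2,1,2,0,2] [1,2,3,4,5] [0])) (.deg 11))) (.fin (.split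 (.split (.split .big (.red [0,0,0,0,0,0,0,0,0,0,0,0,0,2,0] [1,2,3,4,5] [0])) (.deg 10)) (.deg 11)))) (.split (.fin (.split (.split (.split .big (.red [0,2,0,0,0,0,0,0,0,0,0,0,0,0,0] [1,2,3,4,5] [0])) (.split (.red [0,0,2,0,0,0,0,0,0,0,0,0,0,0,0] [0,2,3,4,5] [1]) (.red [0,2,0,0,0,0,0,0,0,0,0,0,0,0,0] [2,3,4,5] [0,1]))) (.deg 11))) (.far 9 10))) (.split (.split (.fin (.split (.split (.split .big (.red [1,2,2,2,1,2,1,2,0,2,1,2,2,0,0] [1,2,3,4,5] [0])) (.split (.red [2,1,2,1,2,2,0,2,2,1,1,2,2,0,0] [0,1,2,3,5] [4]) (.red [2,1,2,1,2,2,2,2,2,1,0,0,0,2,1] [1,2,3,5] [0,4]))) (.deg 11))) (.fin (.split (.split (.split (.split .big (.red [0,0,0,0,0,0,0,0,0,0,0,0,0,2,0,0] [1,2,3,4,5] [0])) (.split (.red [0,0,0,0,0,0,0,0,0,0,0,0,0,2,0,0] [0,1,2,3,5] [4]) (.red [0,0,0,0,0,0,0,0,0,0,0,0,0,2,0,0] [1,2,3,5] [0,4]))) (.deg 10)) (.split (.split (.split (.red [0,0,0,0,0,0,0,0,0,0,0,0,2,0,0,0]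 [0,1,2,4,5] [3]) (.red [0,0,0,0,0,0,0,0,0,0,0,0,2,0,0,0] [1,2,4,5] [0,3])) (.split (.red [0,0,0,0,0,0,0,0,0,0,0,0,2,0,0,0] [0,1,2,5] [3,4]) (.clo 0 1 (.deg 7)))) (.deg 10))))) (.far 8 9))) (.far 6 7))

theorem ok126 : chkA tbl q126 c126 q126.rt [] [] = true := by decide +kernel

def c127 : CA := .split (.split (.split (.split (.split (.fin (.split .big (.deg 11))) (.fin (.split (.split .big (.iso 177 [0,3,1,2,4,5,6,7,8,10,9,11] [0,2,3,1,4,5,6,7,8,10,9,11])) (.deg 11)))) (.split (.fin (.split (.split .big (.deg 9)) (.deg 11))) (.far 9 10))) (.split (.split (.fin (.split (.split .big (.red [0,0,0,0,0,0,0,0,0,0,0,0,0,2,0] [0,1,3,4,5] [2])) (.deg 11))) (.far 8 10)) (.split (.fin (.split (.split (.split .big (.red [0,0,0,0,0,0,0,0,0,0,0,0,0,2,0,0] [0,1,3,4,5] [2])) (.deg 9)) (.deg 11))) (.far 9 10)))) (.split (.split (.split (.fin (.split (.split .big (.iso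 193 [2,0,7,1,4,3,5,11,6,8,9,10] [1,3,0,5,4,6,8,2,9,10,11,7])) (.deg 11))) (.fin (.split (.split (.split .big (.red [0,0,0,0,0,0,0,0,0,0,0,0,2,0,0,0] [0,2,3,4,5] [1])) (.split (.red [0,0,0,2,0,0,0,0,0,0,0,0,0,0,0,0] [0,1,2,3,4] [5]) (.red [0,2,0,0,0,0,0,0,0,0,0,0,0,0,0,0] [0,2,3,4] [1,5]))) (.deg 11)))) (.split (.fin (.split (.split (.split .big (.red [0,0,0,0,0,0,0,0,0,0,0,0,0,1,1,0] [0,2,3,4,5] [1])) (.deg 9)) (.deg 11))) (.far 9 10))) (.far 7 8))) (.split (.split (.split (.split (.fin (.split (.split .big (.iso 193 [1,0,6,2,5,3,4,11,7,8,9,10] [1,0,3,5,6,4,2,8,9,10,11,7])) (.deg 11))) (.fin (.split (.split (.split .big (.red [0,0,0,0,0,0,0,0,0,0,0,0,2,0,0,0] [1,2,3,4,5] [0])) (.split (.red [0,0,0,0,2,0,0,0,0,0,0,0,0,0,0,0] [0,1,2,3,4] [5]) (.red [2,0,0,0,0,0,0,0,0,0,0,0,0,0,0,0] [1,2,3,4] [0,5]))) (.deg 11)))) (.split (.fin (.split (.split (.split .big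 (.red [0,0,0,0,0,0,0,0,0,0,0,0,0,1,1,0] [1,2,3,4,5] [0])) (.deg 9)) (.deg 11))) (.far 9 10))) (.far 6 8)) (.split (.split (.split (.fin (.split (.split (.split .big (.iso 190 [0,1,2,6,5,3,4,7,8,9,11,10] [0,1,2,5,6,4,3,7,8,9,11,10])) (.split (.iso 190 [0,2,1,7,4,3,5,6,8,9,11,10] [0,2,1,5,4,6,7,3,8,9,11,10]) (.sep [1,2,4,5,6,7] [0,8,11] 1 2 9))) (.deg 11))) (.pet [[0,3],[1],[4],[7],[2],[10],[6],[8],[11],[5]])) (.split (.pet [[0],[1],[4],[7],[2],[3,9,10],[6],[8],[11],[5]]) (.far 9 10))) (.far 7 8)))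

theorem ok127 : chkA tbl q127 c127 q127.rt [] [] = true := by decide +kernel

def c128 : CA := .split (.split (.split (.split (.split (.fin (.split .big (.deg 11))) (.fin (.split (.split .big (.iso 176 [0,1,2,3,4,5,6,9,7,10,8,11] [0,1,2,3,4,5,6,8,10,7,9,11])) (.deg 11)))) (.split (.fin (.split (.split .big (.red [2,2,2,2,2,2,2,2,2,2,0,1,1,0,0,2] [0,1,2,4,5] [3])) (.deg 11))) (.far 9 10))) (.split (.split (.fin (.split (.split .big (.deg 8)) (.deg 11))) (.pet [[0],[1],[4],[9],[2],[3,8,11],[6],[7],[10],[5]])) (.split (.fin (.split (.split (.split .big (.deg 8)) (.split (.red [0,2,0,0,0,0,0,0,0,0,0,0,0,0,0,0,0] [0,1,2,4,5] [3]) (.deg 8))) (.deg 11))) (.far 9 10)))) (.split (.split (.split (.fin (.split (.split .big (.red [0,0,2,0,0,0,0,0,0,0,0,0,0,0,0,0] [0,2,3,4,5] [1])) (.deg 11))) (.fin (.split (.split (.split .big (.red [0,0,2,0,0,0,0,0,0,0,0,0,0,0,0,0,0]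 [0,2,3,4,5] [1])) (.split (.red [2,0,0,0,0,0,0,0,0,0,0,0,0,0,0,0,0] [0,1,3,4,5] [2]) (.red [0,0,2,0,0,0,0,0,0,0,0,0,0,0,0,0,0] [0,3,4,5] [1,2]))) (.deg 11)))) (.far 7 9)) (.far 7 8))) (.split (.split (.split (.split (.fin (.split (.split .big (.red [2,2,2,2,2,1,1,2,2,2,0,2,2,0,0,2] [1,2,3,4,5] [0])) (.deg 11))) (.far 6 10)) (.far 6 9)) (.split (.split (.fin (.split (.split (.split .big (.red [2,0,0,0,0,0,0,0,0,0,0,0,0,0,0,0,0] [1,2,3,4,5] [0])) (.deg 8)) (.deg 11))) (.far 6 10)) (.far 6 9))) (.far 6 7))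

theorem ok128 : chkA tbl q128 c128 q128.rt [] [] = true := by decide +kernel

def c129 : CA := .split (.split (.split (.split (.split (.fin (.split .big (.deg 11))) (.fin (.split (.split .big (.deg 10)) (.deg 11)))) (.split (.fin (.split (.split .big (.iso 182 [0,1,2,3,9,4,6,8,5,7,10,11] [0,1,2,3,5,8,6,9,7,4,10,11])) (.deg 11))) (.far 9 10))) (.split (.split (.fin (.split (.split .big (.red [0,0,2,0,0,0,0,0,0,0,0,0,0,0,0] [0,1,3,4,5] [2])) (.deg 11))) (.fin (.split (.split (.split .big (.red [0,0,2,0,0,0,0,0,0,0,0,0,0,0,0,0] [0,1,3,4,5] [2])) (.deg 10)) (.deg 11)))) (.far 8 9))) (.split (.split (.split (.fin (.split (.split .big (.red [1,2,2,2,1,2,2,2,1,1,2,2,0,0,2] [0,2,3,4,5] [1])) (.deg 11))) (.fin (.split (.split (.split .big (.red [2,2,2,2,2,2,2,2,2,2,2,2,1,0,0,1] [0,2,3,4,5] [1])) (.deg 10)) (.deg 11)))) (.split (.fin (.split (.split (.split .big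 (.red [0,0,0,0,0,0,0,0,0,0,0,0,0,0,2,0] [0,2,3,4,5] [1])) (.split (.iso 181 [0,1,3,2,9,5,8,6,4,7,10,11] [0,1,3,2,8,5,7,9,6,4,10,11]) (.red [0,0,0,0,0,0,0,0,0,0,0,0,0,0,2,0] [0,2,3,5] [1,4]))) (.deg 11))) (.far 9 10))) (.far 7 8))) (.split (.split (.split (.split (.fin (.split (.split .big (.red [2,1,2,1,2,2,1,2,2,1,2,2,0,0,2] [1,2,3,4,5] [0])) (.deg 11))) (.fin (.split (.split (.split .big (.red [2,2,2,2,2,2,2,2,2,2,2,2,1,0,0,1] [1,2,3,4,5] [0])) (.deg 10)) (.deg 11)))) (.split (.fin (.split (.split (.split .big (.red [0,0,0,0,0,0,0,0,0,0,0,0,0,0,2,0] [1,2,3,4,5] [0])) (.split (.iso 181 [0,2,3,1,9,4,8,7,5,6,10,11] [0,3,1,2,5,8,9,7,6,4,10,11]) (.red [0,0,0,0,0,0,0,0,0,0,0,0,0,0,2,0] [1,2,3,5] [0,4]))) (.deg 11))) (.far 9 10))) (.far 6 8)) (.split (.split (.split (.fin (.split (.split (.split .big (.red [2,1,2,1,2,2,1,2,2,1,2,2,0,0,0,2] [1,2,3,4,5] [0]))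 (.split (.red [1,2,2,2,1,2,2,2,1,1,2,2,0,0,2,0] [0,2,3,4,5] [1]) (.sep [1,2,4,5,6,7] [0,8,11] 1 2 9))) (.deg 11))) (.pet [[0],[1],[4],[7],[2],[3,9,10],[6],[8],[11],[5]])) (.split (.pet [[0],[1],[4],[7],[2],[3,9],[6],[8],[11],[5]]) (.far 9 10))) (.far 7 8)))

theorem ok129 : chkA tbl q129 c129 q129.rt [] [] = true := by decide +kernel

def c130 : CA := .split (.split (.split (.split (.split (.fin (.split .big (.deg 11))) (.fin (.split (.split .big (.red [2,1,2,2,1,2,1,0,2,2,2,2,2,1,0] [0,1,2,3,4] [5])) (.deg 11)))) (.split (.fin (.split (.split .big (.deg 9)) (.deg 11))) (.fin (.split (.split (.split .big (.deg 9)) (.split (.red [2,1,2,2,1,2,1,1,2,2,2,2,2,0,0,0] [0,1,2,3,4] [5]) (.deg 9))) (.deg 11))))) (.split (.split (.fin (.split (.split .big (.red [0,2,0,0,0,0,0,0,0,0,0,0,0,0,0] [0,1,2,3,5] [4])) (.deg 11))) (.far 8 10)) (.split (.fin (.split (.split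 (.split .big (.red [0,2,0,0,0,0,0,0,0,0,0,0,0,0,0,0] [0,1,2,3,5] [4])) (.deg 9)) (.deg 11))) (.far 8 10)))) (.split (.split (.split (.fin (.split (.split .big (.red [0,0,2,0,0,0,0,0,0,0,0,0,0,0,0] [0,2,3,4,5] [1])) (.deg 11))) (.far 7 10)) (.split (.fin (.split (.split (.split .big (.red [0,0,2,0,0,0,0,0,0,0,0,0,0,0,0,0] [0,2,3,4,5] [1])) (.deg 9)) (.deg 11))) (.far 7 10))) (.far 7 8))) (.split (.split (.split (.split (.fin (.split (.split .big (.red [2,1,2,2,1,2,1,1,2,2,2,2,0,0,2] [1,2,3,4,5] [0])) (.deg 11))) (.pet [[0],[1],[5],[8],[2],[3],[6,11],[7],[10],[4]])) (.split (.fin (.split (.split (.split .big (.red [2,1,2,2,1,2,1,1,2,2,2,2,0,0,0,2] [1,2,3,4,5] [0])) (.deg 9)) (.deg 11))) (.pet [[0],[1],[5],[8],[2],[3],[6,11],[7],[10],[4]]))) (.split (.split (.fin (.split (.split (.split .big (.red [2,0,0,0,0,0,0,0,0,0,0,0,0,0,0,0] [1,2,3,4,5] [0])) (.split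 (.red [0,2,0,0,0,0,0,0,0,0,0,0,0,0,0,0] [0,1,2,3,5] [4]) (.sep [0,1,2,3,4,5,6,8] [7,10,11] 0 1 9))) (.deg 11))) (.far 8 10)) (.split (.fin (.split (.split (.split (.split .big (.red [2,0,0,0,0,0,0,0,0,0,0,0,0,0,0,0,0] [1,2,3,4,5] [0])) (.split (.red [0,2,0,0,0,0,0,0,0,0,0,0,0,0,0,0,0] [0,1,2,3,5] [4]) (.sep [0,1,2,3,4,5,6,8] [7,10,11] 0 1 9))) (.deg 9)) (.split (.split (.split (.red [2,0,0,0,0,0,0,0,0,0,0,0,0,0,0,0,0] [0,1,2,4,5] [3]) (.red [0,0,0,0,0,2,0,0,0,0,0,0,0,0,0,0,0] [1,2,4,5] [0,3])) (.split (.red [0,2,0,0,0,0,0,0,0,0,0,0,0,0,0,0,0] [0,1,2,5] [3,4]) (.clo 0 1 (.deg 9)))) (.deg 9)))) (.far 8 10)))) (.far 6 7))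

theorem ok130 : chkA tbl q130 c130 q130.rt [] [] = true := by decide +kernel

def c131 : CA := .split (.split (.split (.split (.split (.fin (.split .big (.deg 11))) (.fin (.split (.split .big (.iso 178 [0,3,1,2,4,5,6,7,8,10,9,11] [0,2,3,1,4,5,6,7,8,10,9,11])) (.deg 11)))) (.split (.fin (.split (.split .big (.deg 9)) (.deg 11))) (.far 9 10))) (.split (.split (.fin (.split (.split .big (.red [2,2,0,2,2,2,2,2,2,1,1,0,0,0,2] [0,1,2,3,5] [4])) (.deg 11))) (.far 8 10)) (.split (.fin (.split (.split (.split .big (.red [2,2,0,2,2,2,2,2,2,1,1,0,0,2,0,0] [0,1,2,3,5] [4])) (.deg 9)) (.deg 11))) (.far 9 10)))) (.split (.split (.split (.fin (.split (.split .big (.red [1,2,2,2,2,2,1,2,1,1,2,0,0,0,0] [0,2,3,4,5] [1])) (.deg 11))) (.fin (.split (.split (.split .big (.red [2,2,0,2,2,2,2,2,2,1,1,0,0,2,0,0] [0,2,3,4,5] [1])) (.split (.red [2,2,0,2,2,2,2,2,2,1,1,0,0,2,0,0]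 [0,1,2,3,4] [5]) (.red [2,2,1,2,2,2,2,2,2,2,2,0,2,0,2,1] [0,2,3,4] [1,5]))) (.deg 11)))) (.split (.fin (.split (.split (.split .big (.red [2,2,1,2,2,2,2,2,2,2,2,0,2,0,2,1] [0,2,3,4,5] [1])) (.deg 9)) (.deg 11))) (.far 9 10))) (.far 7 8))) (.split (.split (.split (.split (.fin (.split (.split .big (.iso 194 [1,0,6,2,4,3,5,11,7,8,9,10] [1,0,3,5,4,6,2,8,9,10,11,7])) (.deg 11))) (.fin (.split (.split (.split .big (.red [0,0,0,0,0,0,0,0,0,0,0,0,0,0,2,0] [1,2,3,4,5] [0])) (.split (.red [0,0,0,0,0,0,0,0,0,0,0,0,0,0,0,2] [0,1,2,3,4] [5]) (.red [0,0,0,0,0,0,0,0,0,0,0,0,0,0,0,2] [1,2,3,4] [0,5]))) (.deg 11)))) (.split (.fin (.split (.split (.split .big (.red [2,2,1,2,2,2,2,2,2,2,2,2,2,1,0,0] [1,2,3,4,5] [0])) (.deg 9)) (.deg 11))) (.far 9 10))) (.split (.split (.fin (.split (.split (.split .big (.red [2,2,0,2,2,2,2,2,2,1,1,0,0,0,0,2] [1,2,3,4,5] [0])) (.split (.red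 [2,2,0,2,2,2,2,2,2,1,1,0,0,2,0,0] [0,1,2,3,5] [4]) (.red [2,0,0,0,0,0,0,0,0,0,0,0,0,0,0,0] [1,2,3,5] [0,4]))) (.deg 11))) (.far 8 10)) (.split (.fin (.split (.split (.split (.split .big (.red [2,0,0,0,0,0,0,0,0,0,0,0,0,0,0,0,0] [1,2,3,4,5] [0])) (.split (.red [0,2,0,0,0,0,0,0,0,0,0,0,0,0,0,0,0] [0,1,2,3,5] [4]) (.red [2,0,0,0,0,0,0,0,0,0,0,0,0,0,0,0,0] [1,2,3,5] [0,4]))) (.deg 9)) (.split (.split (.split (.red [2,0,0,0,0,0,0,0,0,0,0,0,0,0,0,0,0] [0,1,2,4,5] [3]) (.red [0,0,0,0,0,2,0,0,0,0,0,0,0,0,0,0,0] [1,2,4,5] [0,3])) (.split (.red [0,2,0,0,0,0,0,0,0,0,0,0,0,0,0,0,0] [0,1,2,5] [3,4]) (.clo 0 1 (.pet [[0,3,10],[1],[5],[8],[2],[12],[6],[7],[9,11],[4]])))) (.deg 9)))) (.far 9 10)))) (.far 6 7))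

theorem ok131 : chkA tbl q131 c131 q131.rt [] [] = true := by decide +kernel

end Pool.Agent.TH395.P5
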