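import Pool.Agent.TH395.P5.Tab

set_option autoImplicit false
set_option maxRecDepth 100000

/-! # Certificates, part 7 -/

namespace Pool.Agent.TH395.P5

def c132 : CA := .split (.split (.split (.split (.split (.fin (.split .big (.deg 11))) (.fin (.split (.split .big (.deg 10)) (.deg 11)))) (.split (.fin (.split (.split .big (.red [2,2,2,2,2,2,2,2,2,2,0,1,1,2,0] [0,1,2,4,5] [3])) (.deg 11))) (.far 9 10))) (.split (.split (.fin (.split (.split .big (.deg 8)) (.deg 11))) (.fin (.split (.split (.split .big (.deg 8)) (.deg 10)) (.deg 11)))) (.split (.fin (.split (.split (.split .big (.deg 8)) (.split (.red [0,0,0,0,0,0,0,0,0,0,0,0,0,0,2,0] [0,1,2,4,5] [3]) (.deg 8))) (.deg 11))) (.far 9 10)))) (.split (.split (.split (.fin (.split (.split .big (.red [0,0,2,0,0,0,0,0,0,0,0,0,0,0,0] [0,2,3,4,5] [1])) (.deg 11))) (.fin (.split (.split (.split .big (.red [0,0,2,0,0,0,0,0,0,0,0,0,0,0,0,0]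 [0,2,3,4,5] [1])) (.deg 10)) (.deg 11)))) (.far 7 9)) (.far 7 8))) (.split (.split (.split (.split (.fin (.split (.split .big (.red [2,1,2,2,1,2,1,1,2,2,0,2,2,0,2] [1,2,3,4,5] [0])) (.deg 11))) (.fin (.split (.split (.split .big (.red [2,1,2,2,1,2,1,1,2,2,2,2,2,0,0,0] [1,2,3,4,5] [0])) (.deg 10)) (.deg 11)))) (.split (.fin (.split (.split (.split .big (.red [2,2,2,2,2,2,2,2,2,2,0,1,1,0,0,2] [1,2,3,4,5] [0])) (.split (.red [2,2,2,2,2,2,2,2,2,2,0,1,1,2,0,0] [0,1,2,4,5] [3]) (.red [2,0,0,0,0,0,0,0,0,0,0,0,0,0,0,0] [1,2,4,5] [0,3]))) (.deg 11))) (.far 9 10))) (.split (.split (.fin (.split (.split (.split .big (.red [0,0,0,0,0,0,0,0,0,0,0,0,0,0,2,0] [1,2,3,4,5] [0])) (.deg 8)) (.deg 11))) (.pet [[0],[1],[5],[9,10],[2],[3,8],[6],[7],[11],[4]])) (.split (.pet [[0],[1],[5],[9],[2],[3,8],[6],[7],[11],[4]]) (.far 9 10)))) (.far 6 7))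

theorem ok132 : chkA tbl q132 c132 q132.rt [] [] = true := by decide +kernel

def c133 : CA := .split (.split (.split (.split (.split (.fin (.split .big (.deg 11))) (.fin (.split (.split .big (.iso 180 [0,1,2,3,4,5,6,8,7,10,9,11] [0,1,2,3,4,5,6,8,7,10,9,11])) (.deg 11)))) (.split (.fin (.split (.split .big (.iso 181 [0,1,3,2,9,4,7,6,5,8,11,10] [0,1,3,2,5,8,7,6,9,4,11,10])) (.deg 11))) (.far 9 10))) (.split (.split (.fin (.split (.split .big (.red [0,0,0,0,0,0,0,0,0,0,0,0,0,2,0,0] [0,1,2,3,5] [4])) (.deg 11))) (.far 8 10)) (.far 8 9))) (.split (.split (.split (.fin (.split (.split .big (.red [0,0,2,0,0,0,0,0,0,0,0,0,0,0,0,0] [0,2,3,4,5] [1])) (.deg 11))) (.fin (.split (.split (.split .big (.red [0,0,2,0,0,0,0,0,0,0,0,0,0,0,0,0,0] [0,2,3,4,5] [1])) (.split (.red [2,0,0,0,0,0,0,0,0,0,0,0,0,0,0,0,0] [0,1,2,4,5] [3]) (.red [0,0,2,0,0,0,0,0,0,0,0,0,0,0,0,0,0] [0,2,4,5] [1,3])))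 (.deg 11)))) (.far 7 9)) (.far 7 8))) (.split (.split (.split (.split (.fin (.split (.split .big (.red [2,1,2,2,1,2,1,1,2,2,2,2,0,0,0,2] [1,2,3,4,5] [0])) (.deg 11))) (.pet [[0],[1],[5],[8],[2],[3,9],[6,11],[7],[10],[4]])) (.split (.pet [[0],[1],[5],[8,10],[2],[3],[6,11],[7],[9],[4]]) (.far 9 10))) (.split (.split (.fin (.split (.split (.split .big (.red [2,2,2,2,2,2,2,2,2,2,1,1,0,0,0,0,2] [1,2,3,4,5] [0])) (.split (.red [0,2,0,0,0,0,0,0,0,0,0,0,0,0,0,0,0] [0,1,2,3,5] [4]) (.red [2,0,0,0,0,0,0,0,0,0,0,0,0,0,0,0,0] [1,2,3,5] [0,4]))) (.deg 11))) (.far 8 10)) (.far 8 9))) (.far 6 7))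

theorem ok133 : chkA tbl q133 c133 q133.rt [] [] = true := by decide +kernel

def c134 : CA := .split (.split (.split (.split (.split (.fin (.split .big (.deg 11))) (.fin (.split (.split .big (.deg 10)) (.deg 11)))) (.split (.fin (.split (.split .big (.red [2,2,2,2,2,2,2,2,2,2,2,0,1,1,2,0] [0,1,3,4,5] [2])) (.deg 11))) (.far 9 10))) (.split (.split (.fin (.split (.split .big (.red [0,2,0,0,0,0,0,0,0,0,0,0,0,0,0,0] [0,1,2,3,5] [4])) (.deg 11))) (.far 8 10)) (.far 8 9))) (.split (.split (.split (.fin (.split (.split .big (.red [0,0,2,0,0,0,0,0,0,0,0,0,0,0,0,0] [0,2,3,4,5] [1])) (.deg 11))) (.fin (.split (.split (.split .big (.red [0,0,2,0,0,0,0,0,0,0,0,0,0,0,0,0,0] [0,2,3,4,5] [1])) (.deg 10)) (.deg 11)))) (.far 7 9)) (.far 7 8))) (.split (.split (.split (.split (.fin (.split (.split .big (.red [2,1,2,2,1,2,1,1,2,2,2,2,0,0,0,2] [1,2,3,4,5] [0])) (.deg 11))) (.pet [[0],[1],[5],[8],[2],[3],[6,11],[7],[9,10],[4]]))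 (.split (.pet [[0],[1],[5],[8],[2],[3],[6,11],[7],[9],[4]]) (.far 9 10))) (.split (.split (.fin (.split (.split (.split .big (.red [2,0,0,0,0,0,0,0,0,0,0,0,0,0,0,0,0] [1,2,3,4,5] [0])) (.split (.red [0,2,0,0,0,0,0,0,0,0,0,0,0,0,0,0,0] [0,1,2,3,5] [4]) (.sep [0,1,2,3,4,5,6,8] [7,9,11] 0 1 10))) (.deg 11))) (.far 8 10)) (.far 8 9))) (.far 6 7))

theorem ok134 : chkA tbl q134 c134 q134.rt [] [] = true := by decide +kernel

def c135 : CA := .split (.split (.split (.split (.split (.fin (.split .big (.deg 11))) (.fin (.split (.split .big (.deg 10)) (.deg 11)))) (.split (.fin (.split (.split .big (.red [1,2,2,1,2,2,2,1,2,2,0,0,2,1,0,2] [0,1,3,4,5] [2])) (.deg 11))) (.pet [[0],[1],[5],[8,10,11],[2],[3],[6],[7],[9],[4]]))) (.split (.split (.fin (.split (.split .big (.red [2,2,2,2,2,2,2,2,2,2,1,1,2,0,2,0] [0,1,2,3,5] [4])) (.deg 11))) (.far 8 10)) (.split (.pet [[0],[1],[5],[8,11],[2],[3],[6],[7],[9],[4]])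 (.far 8 10)))) (.split (.split (.split (.fin (.split (.split .big (.red [0,0,2,0,0,0,0,0,0,0,0,0,0,0,0,0] [0,2,3,4,5] [1])) (.deg 11))) (.fin (.split (.split (.split .big (.red [0,0,2,0,0,0,0,0,0,0,0,0,0,0,0,0,0] [0,2,3,4,5] [1])) (.deg 10)) (.deg 11)))) (.far 7 9)) (.far 7 8))) (.split (.split (.split (.split (.fin (.split (.split .big (.red [2,0,0,0,0,0,0,0,0,0,0,0,0,0,0,0] [1,2,3,4,5] [0])) (.deg 11))) (.fin (.split (.split (.split .big (.red [2,0,0,0,0,0,0,0,0,0,0,0,0,0,0,0,0] [1,2,3,4,5] [0])) (.deg 10)) (.deg 11)))) (.far 6 9)) (.split (.split (.fin (.split (.split (.split .big (.red [2,0,0,0,0,0,0,0,0,0,0,0,0,0,0,0,0] [1,2,3,4,5] [0])) (.split (.red [0,2,0,0,0,0,0,0,0,0,0,0,0,0,0,0,0] [0,1,2,3,5] [4]) (.red [0,2,0,0,0,0,0,0,0,0,0,0,0,0,0,0,0] [1,2,3,5] [0,4]))) (.deg 11))) (.far 8 10)) (.far 6 9))) (.far 6 7))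

theorem ok135 : chkA tbl q135 c135 q135.rt [] [] = true := by decide +kernel

def c136 : CA := .split (.split (.split (.split (.split (.fin (.split .big (.deg 11))) (.fin (.split (.split .big (.deg 10)) (.deg 11)))) (.split (.fin (.split (.split .big (.red [2,2,2,2,2,2,2,2,2,2,2,1,1,2,0] [0,1,2,4,5] [3])) (.deg 11))) (.far 9 10))) (.split (.split (.fin (.split (.split .big (.red [1,2,2,2,2,2,1,1,2,2,1,2,0,0,0] [0,1,3,4,5] [2])) (.deg 11))) (.fin (.split (.split (.split .big (.red [2,2,2,2,2,2,2,2,2,2,2,2,0,1,0,1] [0,1,3,4,5] [2])) (.deg 10)) (.deg 11)))) (.far 8 9))) (.split (.split (.split (.fin (.split (.split .big (.red [1,2,2,2,2,1,2,2,1,1,2,0,2,0,0] [0,2,3,4,5] [1])) (.deg 11))) (.fin (.split (.split (.split .big (.red [2,2,2,2,2,2,2,2,2,2,2,0,2,1,0,1] [0,2,3,4,5] [1])) (.deg 10)) (.deg 11)))) (.far 7 9)) (.split (.split (.fin (.split (.split (.split .big (.red [0,0,0,0,0,0,0,0,0,0,0,0,0,0,2,0]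 [0,2,3,4,5] [1])) (.split (.red [0,0,0,0,0,0,0,0,0,0,0,0,0,0,0,2] [0,1,3,4,5] [2]) (.sep [0,1,2,3,4,5,7,8] [6,9,11] 0 1 10))) (.deg 11))) (.fin (.split (.split (.split (.split .big (.red [2,0,0,0,0,0,0,0,0,0,0,0,0,0,0,0,0] [0,2,3,4,5] [1])) (.split (.red [2,0,0,0,0,0,0,0,0,0,0,0,0,0,0,0,0] [0,1,3,4,5] [2]) (.sep [0,1,2,3,4,5,7,8] [6,9,11] 0 1 10))) (.deg 10)) (.split (.split (.split (.red [2,0,0,0,0,0,0,0,0,0,0,0,0,0,0,0,0] [0,1,2,3,4] [5]) (.red [2,0,0,0,0,0,0,0,0,0,0,0,0,0,0,0,0] [0,2,3,4] [1,5])) (.split (.red [2,0,0,0,0,0,0,0,0,0,0,0,0,0,0,0,0] [0,1,3,4] [2,5]) (.clo 0 1 (.pet [[0,2],[4],[8],[1,3],[6],[7],[9],[10,11],[5],[12]])))) (.deg 10))))) (.far 8 9)))) (.split (.split (.split (.split (.fin (.split (.split .big (.red [1,2,2,2,2,1,2,2,1,1,2,0,0,0,2] [1,2,3,4,5] [0])) (.deg 11))) (.fin (.split (.split (.split .big (.red [0,0,0,0,0,0,0,0,0,0,0,0,0,2,0,0] [1,2,3,4,5]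 [0])) (.deg 10)) (.deg 11)))) (.split (.fin (.split (.split (.split .big (.red [0,0,0,0,0,0,0,0,0,0,0,0,0,0,2,0] [1,2,3,4,5] [0])) (.split (.red [0,0,0,0,0,0,0,0,0,0,0,0,0,0,2,0] [0,1,2,4,5] [3]) (.red [0,0,0,0,0,0,0,0,0,0,0,0,0,0,2,0] [1,2,4,5] [0,3]))) (.deg 11))) (.far 9 10))) (.far 6 8)) (.far 6 7))

theorem ok136 : chkA tbl q136 c136 q136.rt [] [] = true := by decide +kernel

def c137 : CA := .split (.split (.split (.split (.split (.fin (.split .big (.deg 11))) (.fin (.split (.split .big (.deg 10)) (.deg 11)))) (.split (.fin (.split (.split .big (.red [2,2,2,2,2,2,2,2,2,2,2,0,1,1,2,0] [0,1,2,4,5] [3])) (.deg 11))) (.far 9 10))) (.split (.split (.fin (.split (.split .big (.red [2,0,0,0,0,0,0,0,0,0,0,0,0,0,0,0] [0,1,3,4,5] [2])) (.deg 11))) (.fin (.split (.split (.split .big (.red [2,0,0,0,0,0,0,0,0,0,0,0,0,0,0,0,0] [0,1,3,4,5] [2])) (.deg 10)) (.deg 11)))) (.far 8 9)))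 (.split (.split (.split (.fin (.split (.split .big (.red [2,0,0,0,0,0,0,0,0,0,0,0,0,0,0,0] [0,2,3,4,5] [1])) (.deg 11))) (.fin (.split (.split (.split .big (.red [2,0,0,0,0,0,0,0,0,0,0,0,0,0,0,0,0] [0,2,3,4,5] [1])) (.deg 10)) (.deg 11)))) (.far 7 9)) (.far 7 8))) (.split (.split (.split (.split (.fin (.split (.split .big (.red [2,2,2,2,2,2,2,1,1,1,0,2,2,2,0,0] [1,2,3,4,5] [0])) (.deg 11))) (.pet [[0],[1],[3],[6,11],[2],[4],[5],[8],[9,10],[7]])) (.split (.pet [[0],[1],[3],[6,11],[2],[4],[5],[8],[9],[7]]) (.far 9 10))) (.far 6 8)) (.far 6 7))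

theorem ok137 : chkA tbl q137 c137 q137.rt [] [] = true := by decide +kernel

def c138 : CA := .split (.split (.split (.split (.split (.fin (.split .big (.deg 11))) (.fin (.split (.split .big (.deg 10)) (.deg 11)))) (.split (.fin (.split (.split .big (.red [0,0,0,0,0,0,0,0,0,2,0,0,0,0,0] [0,1,2,3,5] [4])) (.deg 11))) (.fin (.split (.split (.split .big (.red [0,0,0,0,0,0,0,0,0,2,0,0,0,0,0,0] [0,1,2,3,5] [4])) (.deg 10)) (.deg 11))))) (.split (.split (.fin (.split (.split .big (.red [2,1,2,2,2,0,2,2,1,2,1,1,2,2,0] [0,2,3,4,5] [1])) (.deg 11))) (.fin (.split (.split (.split .big (.red [2,1,2,2,2,1,2,2,1,2,0,1,2,2,0,0] [0,2,3,4,5] [1])) (.deg 10)) (.deg 11)))) (.far 7 8))) (.split (.split (.split (.fin (.split (.split .big (.red [0,0,0,0,0,2,0,0,0,0,0,0,0,0,0] [1,2,3,4,5] [0])) (.deg 11))) (.fin (.split (.split (.split .big (.red [0,0,0,0,0,2,0,0,0,0,0,0,0,0,0,0] [1,2,3,4,5]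 [0])) (.deg 10)) (.deg 11)))) (.far 6 8)) (.far 6 7))) (.split (.split (.split (.split (.fin (.split (.split .big (.red [2,1,2,2,2,1,2,2,1,2,0,1,2,2,0] [0,1,2,3,4] [5])) (.deg 11))) (.fin (.split (.split (.split .big (.red [2,1,2,2,2,1,2,2,1,2,0,1,2,2,0,0] [0,1,2,3,4] [5])) (.deg 10)) (.deg 11)))) (.far 5 8)) (.split (.split (.pet [[0],[1],[3],[8],[2],[5,11],[6],[7],[9],[4]]) (.pet [[0],[1],[3],[8],[2],[5,11],[6],[7],[9],[4]])) (.far 7 8))) (.far 5 6))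

theorem ok138 : chkA tbl q138 c138 q138.rt [] [] = true := by decide +kernel

def c139 : CA := .split (.split (.split (.split (.split (.fin (.split .big (.deg 11))) (.fin (.split (.split .big (.deg 10)) (.deg 11)))) (.split (.fin (.split (.split .big (.red [2,2,2,2,0,2,2,2,2,1,1,0,2,0,0] [0,1,2,3,5] [4])) (.deg 11))) (.far 8 10))) (.split (.split (.fin (.split (.split .big (.red [1,2,2,2,2,2,1,1,2,1,2,2,2,0,0] [0,2,3,4,5] [1])) (.deg 11))) (.fin (.split (.split (.split .big (.red [2,2,2,2,0,2,2,2,2,2,2,2,2,1,0,1] [0,2,3,4,5] [1])) (.deg 10)) (.deg 11)))) (.far 7 8))) (.split (.split (.split (.fin (.split (.split .big (.red [2,2,2,2,0,1,1,2,2,2,2,2,0,0,0] [1,2,3,4,5] [0])) (.deg 11))) (.far 6 10)) (.far 6 8)) (.far 6 7))) (.split (.split (.split (.split (.fin (.split (.split .big (.deg 5)) (.deg 11))) (.fin (.split (.split (.split .big (.deg 5)) (.deg 10)) (.deg 11))))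 (.split (.fin (.split (.split (.split .big (.deg 5)) (.split (.red [2,2,2,2,0,2,2,2,2,1,1,0,2,0,0,0] [0,1,2,3,5] [4]) (.deg 5))) (.deg 11))) (.far 8 10))) (.split (.split (.fin (.split (.split (.split .big (.deg 5)) (.split (.red [0,0,0,0,0,0,0,0,0,0,0,0,0,0,0,2] [0,2,3,4,5] [1]) (.deg 5))) (.deg 11))) (.pet [[0,5],[1],[3],[8],[2],[11],[6],[7],[9,10],[4]])) (.far 7 8))) (.split (.split (.split (.fin (.split (.split (.split .big (.deg 5)) (.split (.red [2,2,2,2,0,1,1,2,2,2,2,2,0,0,0,0] [1,2,3,4,5] [0]) (.deg 5))) (.deg 11))) (.far 6 10)) (.far 6 8)) (.far 6 7)))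

theorem ok139 : chkA tbl q139 c139 q139.rt [] [] = true := by decide +kernel

def c140 : CA := .split (.split (.split (.split (.split (.fin (.split .big (.deg 11))) (.fin (.split (.split .big (.iso 183 [0,1,2,3,4,5,6,7,8,10,9,11] [0,1,2,3,4,5,6,7,8,10,9,11])) (.deg 11)))) (.split (.fin (.split (.split .big (.red [2,0,0,0,0,0,0,0,0,0,0,0,0,0,0,0] [0,1,3,4,5] [2])) (.deg 11))) (.far 8 10))) (.split (.split (.fin (.split (.split .big (.red [0,0,0,0,0,0,0,2,0,0,0,0,0,0,0,0] [0,2,3,4,5] [1])) (.deg 11))) (.far 7 10)) (.far 7 8))) (.split (.split (.split (.fin (.split (.split .big (.red [0,0,0,0,0,2,0,0,0,0,0,0,0,0,0,0] [1,2,3,4,5] [0])) (.deg 11))) (.far 6 10)) (.far 6 8)) (.far 6 7))) (.split (.split (.split (.split (.fin (.split (.split .big (.deg 5)) (.deg 11))) (.pet [[0,5,11],[1],[3],[7],[2],[10],[6],[8],[9],[4]])) (.split (.fin (.split (.split (.split .big (.deg 5)) (.split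 (.red [2,0,0,0,0,0,0,0,0,0,0,0,0,0,0,0,0] [0,1,3,4,5] [2]) (.deg 5))) (.deg 11))) (.far 8 10))) (.split (.split (.fin (.split (.split (.split .big (.deg 5)) (.split (.red [0,0,0,0,0,0,0,2,0,0,0,0,0,0,0,0,0] [0,2,3,4,5] [1]) (.deg 5))) (.deg 11))) (.far 7 10)) (.far 7 8))) (.split (.split (.split (.fin (.split (.split (.split .big (.deg 5)) (.split (.red [0,0,0,0,0,2,0,0,0,0,0,0,0,0,0,0,0] [1,2,3,4,5] [0]) (.deg 5))) (.deg 11))) (.far 6 10)) (.far 6 8)) (.far 6 7)))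

theorem ok140 : chkA tbl q140 c140 q140.rt [] [] = true := by decide +kernel

def c141 : CA := .split (.split (.split (.split (.split (.fin (.split .big (.deg 11))) (.fin (.split (.split .big (.deg 10)) (.deg 11)))) (.split (.fin (.split (.split .big (.red [2,2,2,2,2,2,2,2,2,2,2,0,1,1,2,0] [0,1,2,4,5] [3])) (.deg 11))) (.far 9 10))) (.split (.split (.fin (.split (.split .big (.red [0,0,0,0,0,0,0,0,2,0,0,0,0,0,0,0] [0,1,2,3,5] [4])) (.deg 11))) (.fin (.split (.split (.split .big (.red [0,0,0,0,0,0,0,0,2,0,0,0,0,0,0,0,0] [0,1,2,3,5] [4])) (.deg 10)) (.deg 11)))) (.far 7 9))) (.split (.split (.split (.fin (.split (.split .big (.red [1,2,2,2,2,1,1,2,1,2,2,2,0,0,0,2] [0,2,3,4,5] [1])) (.deg 11))) (.pet [[0],[1],[3],[7],[2],[9,10],[5],[6,11],[8],[4]])) (.split (.pet [[0],[1],[3],[7],[2],[9],[5],[6,11],[8],[4]]) (.far 9 10))) (.far 6 7))) (.split (.split (.split (.split (.fin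 (.split (.split .big (.red [0,0,0,0,2,0,0,0,0,0,0,0,0,0,0,0] [0,1,2,3,4] [5])) (.deg 11))) (.fin (.split (.split (.split .big (.red [0,0,0,0,2,0,0,0,0,0,0,0,0,0,0,0,0] [0,1,2,3,4] [5])) (.deg 10)) (.deg 11)))) (.far 5 9)) (.far 5 7)) (.far 5 6))

theorem ok141 : chkA tbl q141 c141 q141.rt [] [] = true := by decide +kernel

def c142 : CA := .split (.split (.split (.split (.split (.fin (.split .big (.deg 11))) (.fin (.split (.split .big (.deg 10)) (.deg 11)))) (.split (.fin (.split (.split .big (.red [0,0,0,0,0,0,0,0,0,0,0,0,2,0,0] [1,2,3,4,5] [0])) (.deg 11))) (.far 8 10))) (.split (.split (.fin (.split (.split .big (.iso 177 [0,7,1,2,3,4,5,6,8,9,11,10] [0,2,3,4,5,6,7,1,8,9,11,10])) (.deg 11))) (.far 7 10)) (.far 7 8))) (.split (.split (.split (.fin (.split (.split .big (.iso 195 [2,6,0,1,3,4,11,5,7,8,9,10] [2,3,0,4,5,7,1,8,9,10,11,6])) (.deg 11))) (.fin (.split (.split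 (.split .big (.iso 185 [2,0,6,1,3,4,5,7,8,9,11,10] [1,3,0,4,5,6,2,7,8,9,11,10])) (.deg 10)) (.deg 11)))) (.far 6 8)) (.split (.split (.fin (.split (.split (.split .big (.iso 187 [2,0,6,1,3,4,5,8,9,7,10,11] [1,3,0,4,5,6,2,9,7,8,10,11])) (.split (.red [2,1,0,2,0,2,0,0,2,0,1,1,0,2,0,0] [0,1,3,4,5] [2]) (.red [0,0,0,0,0,0,0,0,0,0,0,0,2,0,0,0] [0,3,4,5] [1,2]))) (.deg 11))) (.far 7 10)) (.far 7 8)))) (.split (.split (.split (.split (.fin (.split (.split .big (.iso 195 [1,5,0,2,4,3,11,6,7,8,9,10] [2,0,3,5,4,1,7,8,9,10,11,6])) (.deg 11))) (.fin (.split (.split (.split .big (.iso 185 [1,0,5,2,4,3,6,7,8,9,11,10] [1,0,3,5,4,2,6,7,8,9,11,10])) (.deg 10)) (.deg 11)))) (.far 5 8)) (.split (.split (.fin (.split (.split (.split .big (.iso 187 [1,0,5,2,4,3,6,8,9,7,10,11] [1,0,3,5,4,2,6,9,7,8,10,11])) (.split (.red [1,2,2,0,0,0,0,2,2,1,0,1,0,2,0,0] [0,1,3,4,5] [2]) (.red [0,0,0,0,0,0,0,0,0,0,0,0,2,0,0,0]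 [0,1,3,4] [2,5]))) (.deg 11))) (.far 7 10)) (.far 7 8))) (.split (.split (.split (.fin (.split (.split (.split .big (.iso 199 [1,0,5,4,2,3,7,8,6,9,10,11] [1,0,4,5,3,2,8,6,7,9,10,11])) (.split (.iso 199 [2,0,6,3,1,4,7,8,5,9,10,11] [1,4,0,3,5,8,2,6,7,9,10,11]) (.sep [1,2,3,4,5,6] [0,8,11] 1 2 7))) (.deg 11))) (.pet [[0,7],[1],[3],[6],[2],[9,10],[5],[8],[11],[4]])) (.far 6 8)) (.split (.split (.pet [[0],[1],[3],[6],[2],[7,9],[5],[8],[11],[4]]) (.far 7 10)) (.far 7 8))))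

theorem ok142 : chkA tbl q142 c142 q142.rt [] [] = true := by decide +kernel

def c143 : CA := .split (.split (.split (.split (.split (.fin (.split .big (.deg 11))) (.fin (.split (.split .big (.iso 176 [0,1,2,10,3,4,5,6,7,8,11,9] [0,1,2,4,5,6,7,8,9,11,3,10])) (.deg 11)))) (.split (.fin (.split (.split .big (.deg 9)) (.deg 11))) (.pet [[0],[1],[3],[6],[2],[10],[5],[7],[8,9,11],[4]]))) (.split (.split (.fin (.split (.split .big (.red [2,0,0,0,0,0,0,0,0,0,0,0,0,0,0,0] [0,1,3,4,5] [2])) (.deg 11))) (.far 7 10)) (.split (.fin (.split (.split (.split .big (.red [2,0,0,0,0,0,0,0,0,0,0,0,0,0,0,0,0] [0,1,3,4,5] [2])) (.deg 9)) (.deg 11))) (.far 7 10)))) (.split (.split (.split (.fin (.split (.split .big (.red [2,2,2,2,2,2,1,1,2,2,0,2,0,2,2,0] [0,2,3,4,5] [1])) (.deg 11))) (.fin (.split (.split (.split .big (.red [0,0,0,0,0,0,2,0,0,0,0,0,0,0,0,0,0] [0,2,3,4,5] [1])) (.split (.red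 [2,0,0,0,0,0,0,0,0,0,0,0,0,0,0,0,0] [0,1,2,4,5] [3]) (.red [0,2,0,0,0,0,0,0,0,0,0,0,0,0,0,0,0] [0,2,4,5] [1,3]))) (.deg 11)))) (.far 6 9)) (.far 6 7))) (.split (.split (.split (.split (.fin (.split (.split .big (.red [2,2,2,2,1,1,2,2,2,2,2,0,0,2,2,0] [0,1,2,3,4] [5])) (.deg 11))) (.fin (.split (.split (.split .big (.red [0,0,0,0,2,0,0,0,0,0,0,0,0,0,0,0,0] [0,1,2,3,4] [5])) (.split (.red [0,2,0,0,0,0,0,0,0,0,0,0,0,0,0,0,0] [0,1,2,4,5] [3]) (.red [2,0,0,0,0,0,0,0,0,0,0,0,0,0,0,0,0] [0,1,2,4] [3,5]))) (.deg 11)))) (.far 5 9)) (.far 5 7)) (.far 5 6))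

theorem ok143 : chkA tbl q143 c143 q143.rt [] [] = true := by decide +kernel

def c144 : CA := .split (.split (.split (.split (.split (.fin (.split .big (.deg 11))) (.fin (.split (.split .big (.deg 10)) (.deg 11)))) (.split (.fin (.split (.split .big (.red [2,2,2,2,2,2,2,2,2,2,2,0,1,1,2,0] [0,1,3,4,5] [2])) (.deg 11))) (.far 9 10))) (.split (.split (.fin (.split (.split .big (.red [0,0,0,0,0,0,0,2,0,0,0,0,0,0,0,0] [0,2,3,4,5] [1])) (.deg 11))) (.fin (.split (.split (.split .big (.red [0,0,0,0,0,0,0,2,0,0,0,0,0,0,0,0,0] [0,2,3,4,5] [1])) (.deg 10)) (.deg 11)))) (.far 7 9))) (.split (.split (.split (.fin (.split (.split .big (.red [0,0,0,0,0,2,0,0,0,0,0,0,0,0,0,0] [1,2,3,4,5] [0])) (.deg 11))) (.fin (.split (.split (.split .big (.red [0,0,0,0,0,2,0,0,0,0,0,0,0,0,0,0,0] [1,2,3,4,5] [0])) (.deg 10)) (.deg 11)))) (.far 6 9)) (.far 6 7))) (.split (.split (.split (.split (.fin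 (.split (.split .big (.red [1,2,2,2,2,2,1,1,2,1,2,2,0,0,0,2] [0,1,2,3,4] [5])) (.deg 11))) (.pet [[0],[1],[3],[7],[2],[5,11],[6],[9,10],[8],[4]])) (.split (.pet [[0],[1],[3],[7],[2],[5,11],[6],[9],[8],[4]]) (.far 9 10))) (.far 5 7)) (.far 5 6))

theorem ok144 : chkA tbl q144 c144 q144.rt [] [] = true := by decide +kernel

def c145 : CA := .split (.split (.split (.split (.split (.fin (.split .big (.deg 11))) (.fin (.split (.split .big (.deg 10)) (.deg 11)))) (.split (.fin (.split (.split .big (.iso 179 [1,9,0,3,4,2,11,10,5,6,7,8] [2,0,5,3,4,8,9,10,11,1,7,6])) (.deg 11))) (.far 9 10))) (.split (.split (.fin (.split (.split .big (.deg 8)) (.deg 11))) (.fin (.split (.split (.split .big (.deg 8)) (.deg 10)) (.deg 11)))) (.split (.fin (.split (.split (.split .big (.deg 8)) (.split (.red [0,0,0,0,0,0,0,2,0,0,0,0,0,0,0] [0,1,3,4,5] [2]) (.deg 8))) (.deg 11))) (.far 9 10)))) (.split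 (.split (.split (.fin (.split (.split .big (.iso 179 [0,7,1,2,6,3,11,8,5,4,9,10] [0,2,3,5,9,8,4,1,7,10,11,6])) (.deg 11))) (.fin (.split (.split (.split .big (.red [0,0,0,0,0,0,0,0,0,0,2,0,0,0,0] [0,1,2,4,5] [3])) (.deg 10)) (.deg 11)))) (.split (.fin (.split (.split (.split .big (.red [1,2,2,2,1,2,1,2,2,0,2,1,0,2,0] [0,1,2,4,5] [3])) (.split (.red [1,2,2,1,2,1,2,2,1,0,2,2,0,0,2] [0,1,3,4,5] [2]) (.red [1,2,2,2,1,2,1,2,2,0,2,1,0,2,0] [0,1,4,5] [2,3]))) (.deg 11))) (.far 9 10))) (.far 7 8))) (.split (.split (.split (.split (.fin (.split (.split .big (.iso 174 [2,3,5,0,1,4,6,11,7,8,9,10] [3,4,0,1,5,2,6,8,9,10,11,7])) (.deg 11))) (.fin (.split (.split (.split .big (.red [2,1,1,0,2,2,0,2,0,0,2,0,0,0,0] [0,1,2,3,4] [5])) (.deg 10)) (.deg 11)))) (.split (.fin (.split (.split (.split .big (.red [2,1,1,2,2,2,2,2,1,0,2,1,0,2,0] [0,1,2,3,4] [5])) (.split (.red [1,2,2,1,2,1,2,2,1,0,2,2,0,0,2]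 [0,1,3,4,5] [2]) (.red [2,1,1,2,2,2,2,2,0,0,2,1,0,2,1] [0,1,3,4] [2,5]))) (.deg 11))) (.far 9 10))) (.split (.split (.fin (.split (.split (.split .big (.red [2,1,1,0,2,2,0,2,0,0,2,0,0,0,0] [0,1,2,3,4] [5])) (.deg 8)) (.deg 11))) (.fin (.split (.split (.split (.split .big (.red [2,1,1,0,2,2,0,2,0,0,2,0,0,0,0,0] [0,1,2,3,4] [5])) (.deg 8)) (.deg 10)) (.split (.split (.split (.red [2,0,0,0,0,0,0,0,0,0,0,0,0,0,0,0] [0,1,2,3,5] [4]) (.red [0,0,0,0,2,0,0,0,0,0,0,0,0,0,0,0] [0,1,2,3] [4,5])) (.deg 8)) (.deg 10))))) (.split (.fin (.split (.split (.split (.split .big (.red [0,0,0,0,2,0,0,0,0,0,0,0,0,0,0,0] [0,1,2,3,4] [5])) (.deg 8)) (.split (.split (.red [2,0,0,0,0,0,0,0,0,0,0,0,0,0,0,0] [0,1,3,4,5] [2]) (.red [0,0,2,0,0,0,0,0,0,0,0,0,0,0,0,0] [0,1,3,4] [2,5])) (.deg 8))) (.split (.split (.split (.red [2,0,0,0,0,0,0,0,0,0,0,0,0,0,0,0] [0,1,2,3,5] [4]) (.red [0,0,0,0,2,0,0,0,0,0,0,0,0,0,0,0]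 [0,1,2,3] [4,5])) (.deg 8)) (.split (.split (.red [0,0,0,0,0,0,0,0,0,0,2,0,0,0,0,0] [0,1,3,5] [2,4]) (.clo 0 1 (.deg 10))) (.deg 8))))) (.far 9 10)))) (.split (.split (.split (.fin (.split (.split (.split .big (.red [2,1,1,2,2,2,2,2,1,0,2,1,0,2,0] [0,1,2,3,4] [5])) (.split (.red [1,2,2,2,1,2,1,2,2,0,2,1,0,0,2] [0,1,2,4,5] [3]) (.red [2,1,1,2,2,2,2,2,1,0,2,0,0,2,1] [0,1,2,4] [3,5]))) (.deg 11))) (.fin (.split (.split (.split (.split .big (.red [0,0,0,0,0,2,0,0,0,0,0,0,0,0,0,0] [0,1,2,3,4] [5])) (.split (.red [2,0,0,0,0,0,0,0,0,0,0,0,0,0,0,0] [0,1,2,4,5] [3]) (.red [0,2,0,0,0,0,0,0,0,0,0,0,0,0,0,0] [0,1,2,4] [3,5]))) (.deg 10)) (.split (.split (.split (.red [2,0,0,0,0,0,0,0,0,0,0,0,0,0,0,0] [0,1,2,3,5] [4]) (.red [0,0,0,0,0,2,0,0,0,0,0,0,0,0,0,0] [0,1,2,3] [4,5])) (.split (.red [0,0,0,0,0,0,0,2,0,0,0,0,0,0,0,0] [0,1,2,5] [3,4]) (.clo 0 1 (.deg 8)))) (.deg 10))))) (.split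 (.fin (.split (.split (.split (.split .big (.red [2,1,1,2,2,2,2,2,1,0,2,1,0,2,2,0] [0,1,2,3,4] [5])) (.split (.red [1,2,2,2,1,2,1,2,2,0,2,1,0,2,0,2] [0,1,2,4,5] [3]) (.red [2,2,2,0,2,2,2,2,2,2,1,0,0,2,1,1] [0,1,2,4] [3,5]))) (.split (.split (.red [1,2,2,1,2,1,2,2,1,0,2,2,0,0,2,2] [0,1,3,4,5] [2]) (.red [2,2,2,2,2,2,0,1,0,0,2,2,2,1,2,1] [0,1,3,4] [2,5])) (.split (.red [2,2,2,2,1,1,2,2,2,0,2,2,0,0,1,2] [0,1,4,5] [2,3]) (.clo 0 1 (.deg 10))))) (.split (.split (.split (.red [2,0,2,2,1,1,2,1,1,2,1,0,0,2,2,2] [0,1,2,3,5] [4]) (.red [2,1,1,2,2,2,2,2,1,0,2,0,0,2,2,1] [0,1,2,3] [4,5])) (.split (.red [1,2,2,2,1,2,1,2,2,0,2,0,0,2,1,2] [0,1,2,5] [3,4]) (.clo 0 1 (.deg 10)))) (.split (.split (.red [1,2,2,1,2,1,2,2,0,0,2,2,0,1,2,2] [0,1,3,5] [2,4]) (.clo 0 1 (.deg 10))) (.split (.clo 0 1 (.deg 10)) (.two 0)))))) (.far 9 10))) (.far 7 8)))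

theorem ok145 : chkA tbl q145 c145 q145.rt [] [] = true := by decide +kernel

end Pool.Agent.TH395.P5
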