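import Pool.Agent.TH395.P5.Tab

set_option autoImplicit false
set_option maxRecDepth 100000

/-! # Certificates, part 8 -/

namespace Pool.Agent.TH395.P5

def c146 : CA := .split (.split (.split (.split (.split (.fin (.split .big (.deg 11))) (.fin (.split (.split .big (.deg 10)) (.deg 11)))) (.split (.fin (.split (.split .big (.red [2,1,1,2,2,2,2,2,0,1,1,2,0] [0,1,2,4,5] [3])) (.deg 11))) (.fin (.split (.split (.split .big (.red [1,2,2,1,2,2,2,2,1,0,2,1,0,0] [0,1,2,4,5] [3])) (.deg 10)) (.deg 11))))) (.split (.split (.fin (.split (.split .big (.red [1,2,2,1,2,2,2,2,1,2,0,1,0] [0,1,3,4,5] [2])) (.deg 11))) (.fin (.split (.split (.split .big (.red [2,1,1,2,2,2,2,2,2,1,1,0,0,0] [0,1,3,4,5] [2])) (.deg 10)) (.deg 11)))) (.far 8 9))) (.split (.split (.split (.fin (.split (.split .big (.deg 7)) (.deg 11))) (.fin (.split (.split (.split .big (.deg 7)) (.deg 10)) (.deg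 11)))) (.split (.fin (.split (.split (.split .big (.deg 7)) (.split (.red [1,2,2,1,2,2,2,2,1,2,2,1,0,0] [0,1,2,4,5] [3]) (.deg 7))) (.deg 11))) (.fin (.split (.split (.split (.split .big (.deg 7)) (.split (.red [1,2,2,1,2,2,2,2,1,2,2,1,0,0,0] [0,1,2,4,5] [3]) (.deg 7))) (.deg 10)) (.split (.split (.split (.iso 184 [0,1,2,3,4,5,6,8,7,9,11,10] [0,1,2,3,4,5,6,8,7,9,11,10]) (.deg 7)) (.split (.red [2,1,1,2,2,2,0,2,2,1,1,2,0,2,0] [0,1,2,4] [3,5]) (.deg 7))) (.deg 10)))))) (.split (.split (.fin (.split (.split (.split .big (.deg 7)) (.split (.red [0,0,0,0,0,0,0,0,0,0,0,0,0,2] [0,1,3,4,5] [2]) (.deg 7))) (.deg 11))) (.fin (.split (.split (.split (.split .big (.deg 7)) (.split (.red [0,0,0,0,0,0,0,0,0,0,0,0,0,0,2] [0,1,3,4,5] [2]) (.deg 7))) (.deg 10)) (.split (.split (.split (.iso 195 [0,1,2,4,3,5,6,9,7,8,11,10] [0,1,2,4,3,5,6,8,9,7,11,10]) (.deg 7)) (.split (.red [0,0,0,0,0,0,0,0,0,0,0,0,0,0,2]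 [0,1,3,4] [2,5]) (.deg 7))) (.deg 10))))) (.far 8 9)))) (.split (.split (.split (.split (.fin (.split (.split .big (.deg 6)) (.deg 11))) (.fin (.split (.split (.split .big (.deg 6)) (.deg 10)) (.deg 11)))) (.split (.fin (.split (.split (.split .big (.deg 6)) (.split (.red [0,0,0,0,0,0,0,0,0,0,0,0,0,2] [0,1,2,4,5] [3]) (.deg 6))) (.deg 11))) (.fin (.split (.split (.split (.split .big (.deg 6)) (.split (.red [0,0,0,0,0,0,0,0,0,0,0,0,0,0,2] [0,1,2,4,5] [3]) (.deg 6))) (.deg 10)) (.split (.split (.split (.iso 195 [0,2,1,3,4,5,7,8,6,9,11,10] [0,2,1,3,4,5,8,6,7,9,11,10]) (.deg 6)) (.split (.red [0,0,0,0,0,0,0,0,0,0,0,0,0,0,2] [0,1,2,4] [3,5]) (.deg 6))) (.deg 10)))))) (.split (.split (.fin (.split (.split (.split .big (.deg 6)) (.split (.red [2,1,1,2,2,2,2,2,2,1,1,2,0,0] [0,1,3,4,5] [2]) (.deg 6))) (.deg 11))) (.fin (.split (.split (.split (.split .big (.deg 6)) (.split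 (.red [2,1,1,2,2,2,2,2,2,1,1,2,0,0,0] [0,1,3,4,5] [2]) (.deg 6))) (.deg 10)) (.split (.split (.split (.iso 184 [0,2,1,4,3,5,7,9,6,8,11,10] [0,2,1,4,3,5,8,6,9,7,11,10]) (.deg 6)) (.split (.red [1,2,2,1,2,2,2,0,1,2,2,1,0,2,0] [0,1,3,4] [2,5]) (.deg 6))) (.deg 10))))) (.far 8 9))) (.split (.split (.split (.fin (.split (.split (.split .big (.deg 6)) (.deg 7)) (.deg 11))) (.fin (.split (.split (.split (.split .big (.deg 6)) (.deg 7)) (.deg 10)) (.split (.split (.split (.iso 186 [0,1,2,3,4,5,8,9,11,6,7,10] [0,1,2,3,4,5,9,10,6,7,11,8]) (.deg 6)) (.deg 7)) (.deg 10))))) (.split (.fin (.split (.split (.split (.split .big (.deg 6)) (.deg 7)) (.split (.split (.red [0,0,0,0,0,0,0,0,0,0,0,0,0,0,2] [0,1,2,4,5] [3]) (.deg 6)) (.deg 7))) (.split (.split (.split (.red [0,0,0,0,0,0,2,0,0,0,0,0,0,0,0] [0,1,2,3,4] [5]) (.deg 6)) (.deg 7)) (.split (.split (.sep [0,1,2,3,4,5,9,11]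 [6,7,8] 0 1 10) (.deg 6)) (.deg 7))))) (.fin (.split (.split (.split (.split (.split .big (.deg 6)) (.deg 7)) (.split (.split (.red [0,0,0,0,0,0,0,0,0,0,0,0,0,0,0,2] [0,1,2,4,5] [3]) (.deg 6)) (.deg 7))) (.deg 10)) (.split (.split (.split (.split (.red [0,0,0,0,0,0,0,0,0,0,0,0,0,0,0,2] [0,1,2,3,4] [5]) (.deg 6)) (.deg 7)) (.split (.split (.red [0,0,0,0,0,0,0,0,0,0,0,0,0,0,0,2] [0,1,2,4] [3,5]) (.deg 6)) (.deg 7))) (.deg 10)))))) (.split (.split (.fin (.split (.split (.split (.split .big (.deg 6)) (.deg 7)) (.split (.split (.red [0,0,0,0,0,0,0,0,0,0,0,0,0,2,0] [0,1,3,4,5] [2]) (.deg 6)) (.deg 7))) (.split (.split (.split (.red [0,0,0,0,0,0,0,2,0,0,0,0,0,0,0] [0,1,2,3,4] [5]) (.deg 6)) (.deg 7)) (.split (.split (.sep [0,1,2,3,4,5,8,11] [6,7,9] 0 1 10) (.deg 6)) (.deg 7))))) (.fin (.split (.split (.split (.split (.split .big (.deg 6)) (.deg 7)) (.split (.split (.red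 [0,0,0,0,0,0,0,0,0,0,0,0,0,0,2,0] [0,1,3,4,5] [2]) (.deg 6)) (.deg 7))) (.deg 10)) (.split (.split (.split (.split (.red [0,0,0,0,0,0,0,0,0,0,0,0,0,0,2,0] [0,1,2,3,4] [5]) (.deg 6)) (.deg 7)) (.split (.split (.red [0,0,0,0,0,0,0,0,0,0,0,0,0,0,2,0] [0,1,3,4] [2,5]) (.deg 6)) (.deg 7))) (.deg 10))))) (.far 8 9))))

theorem ok146 : chkA tbl q146 c146 q146.rt [] [] = true := by decide +kernel

def c147 : CA := .split (.split (.split (.split (.split (.fin (.split .big (.deg 11))) (.fin (.split (.split .big (.red [2,1,1,2,2,2,0,0,1,2,2,2,1,2] [0,2,3,4,5] [1])) (.deg 11)))) (.split (.fin (.split (.split .big (.red [1,2,2,1,2,2,1,2,0,0,2,2,1,2] [0,1,2,3,4] [5])) (.deg 11))) (.far 9 10))) (.split (.split (.fin (.split (.split .big (.deg 8)) (.deg 11))) (.fin (.split (.split (.split .big (.deg 8)) (.split (.red [2,1,1,2,2,2,2,0,1,2,2,2,1,0,0] [0,2,3,4,5] [1]) (.deg 8)))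 (.deg 11)))) (.split (.fin (.split (.split (.split .big (.deg 8)) (.split (.red [1,2,2,1,2,2,1,2,2,0,2,2,1,0,0] [0,1,2,3,4] [5]) (.deg 8))) (.deg 11))) (.far 9 10)))) (.split (.split (.split (.fin (.split (.split .big (.red [2,1,1,2,2,2,2,1,1,2,0,2,0,2] [0,1,2,4,5] [3])) (.deg 11))) (.fin (.split (.split (.split .big (.red [0,2,0,0,0,0,0,0,0,0,0,0,0,0,0] [0,1,2,4,5] [3])) (.split (.red [0,2,0,0,0,0,0,0,0,0,0,0,0,0,0] [0,2,3,4,5] [1]) (.sep [0,1,2,3,4,5,7,10] [6,9,11] 0 1 8))) (.deg 11)))) (.split (.fin (.split (.split (.split .big (.red [0,0,0,0,0,0,0,0,0,0,0,0,0,2,0] [0,1,2,4,5] [3])) (.split (.red [0,0,0,0,0,0,0,0,0,0,0,0,0,0,2] [0,1,2,3,4] [5]) (.sep [0,1,2,3,4,5,7,9] [6,10,11] 0 1 8))) (.deg 11))) (.far 9 10))) (.split (.split (.fin (.split (.split (.split .big (.red [1,2,2,1,2,2,1,2,2,1,2,2,0,0,0] [0,1,2,4,5] [3])) (.deg 8)) (.deg 11))) (.fin (.split (.split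 (.split (.split .big (.red [0,2,0,0,0,0,0,0,0,0,0,0,0,0,0,0] [0,1,2,4,5] [3])) (.deg 8)) (.split (.split (.red [0,2,0,0,0,0,0,0,0,0,0,0,0,0,0,0] [0,2,3,4,5] [1]) (.sep [0,1,2,3,4,5,7,10] [6,9,11] 0 1 8)) (.deg 8))) (.split (.split (.split (.red [0,2,0,0,0,0,0,0,0,0,0,0,0,0,0,0] [0,1,3,4,5] [2]) (.red [0,0,0,0,0,0,0,0,2,0,0,0,0,0,0,0] [0,1,4,5] [2,3])) (.deg 8)) (.split (.split (.red [0,2,0,0,0,0,0,0,0,0,0,0,0,0,0,0] [0,3,4,5] [1,2]) (.clo 0 1 (.deg 8))) (.deg 8)))))) (.split (.fin (.split (.split (.split (.split .big (.red [0,0,0,0,0,0,0,0,0,0,0,0,0,2,0,0] [0,1,2,4,5] [3])) (.deg 8)) (.split (.split (.red [0,0,0,0,0,0,0,0,0,0,0,0,0,0,0,2] [0,1,2,3,4] [5]) (.sep [0,1,2,3,4,5,7,9] [6,10,11] 0 1 8)) (.deg 8))) (.split (.split (.split (.iso 187 [0,1,2,3,4,5,6,7,11,9,8,10] [0,1,2,3,4,5,6,7,10,9,11,8]) (.red [0,0,0,0,0,0,0,0,0,0,0,0,0,2,0,0] [0,1,4,5] [2,3])) (.deg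 8)) (.split (.split (.red [0,0,0,0,0,0,0,0,0,0,0,0,0,0,0,2] [0,1,3,4] [2,5]) (.clo 0 1 (.deg 8))) (.deg 8))))) (.far 9 10))))) (.split (.split (.split (.split (.fin (.split (.split .big (.red [1,2,2,1,2,2,1,2,2,1,2,0,0,2] [1,2,3,4,5] [0])) (.deg 11))) (.fin (.split (.split (.split .big (.red [0,0,0,0,0,0,0,0,0,0,0,0,0,2,0] [1,2,3,4,5] [0])) (.split (.red [0,0,0,0,0,0,0,0,0,0,0,0,0,0,2] [0,2,3,4,5] [1]) (.sep [0,1,2,3,4,5,6,10] [7,9,11] 0 1 8))) (.deg 11)))) (.split (.fin (.split (.split (.split .big (.red [2,0,0,0,0,0,0,0,0,0,0,0,0,0,0] [1,2,3,4,5] [0])) (.split (.red [2,0,0,0,0,0,0,0,0,0,0,0,0,0,0] [0,1,2,3,4] [5]) (.sep [0,1,2,3,4,5,6,9] [7,10,11] 0 1 8))) (.deg 11))) (.far 9 10))) (.split (.split (.fin (.split (.split (.split .big (.red [2,1,1,2,2,2,2,1,1,2,2,2,0,0,0] [1,2,3,4,5] [0])) (.deg 8)) (.deg 11))) (.fin (.split (.split (.split (.split .big (.red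 [0,0,0,0,0,0,0,0,0,0,0,0,0,2,0,0] [1,2,3,4,5] [0])) (.deg 8)) (.split (.split (.red [0,0,0,0,0,0,0,0,0,0,0,0,0,0,0,2] [0,2,3,4,5] [1]) (.sep [0,1,2,3,4,5,6,10] [7,9,11] 0 1 8)) (.deg 8))) (.split (.split (.split (.iso 187 [0,2,1,4,3,5,7,6,11,10,8,9] [0,2,1,4,3,5,7,6,10,11,9,8]) (.red [0,0,0,0,0,0,0,0,0,0,0,0,0,2,0,0] [1,3,4,5] [0,2])) (.deg 8)) (.split (.split (.red [0,0,0,0,0,0,0,0,0,0,0,0,0,0,0,2] [0,3,4,5] [1,2]) (.clo 0 1 (.deg 8))) (.deg 8)))))) (.split (.fin (.split (.split (.split (.split .big (.red [2,0,0,0,0,0,0,0,0,0,0,0,0,0,0,0] [1,2,3,4,5] [0])) (.deg 8)) (.split (.split (.red [2,0,0,0,0,0,0,0,0,0,0,0,0,0,0,0] [0,1,2,3,4] [5]) (.sep [0,1,2,3,4,5,6,9] [7,10,11] 0 1 8)) (.deg 8))) (.split (.split (.split (.red [2,0,0,0,0,0,0,0,0,0,0,0,0,0,0,0] [0,1,3,4,5] [2]) (.red [0,0,0,0,0,0,2,0,0,0,0,0,0,0,0,0] [1,3,4,5] [0,2])) (.deg 8)) (.split (.split (.red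 [2,0,0,0,0,0,0,0,0,0,0,0,0,0,0,0] [0,1,3,4] [2,5]) (.clo 0 1 (.deg 8))) (.deg 8))))) (.far 9 10)))) (.far 6 7))

theorem ok147 : chkA tbl q147 c147 q147.rt [] [] = true := by decide +kernel

def c148 : CA := .split (.split (.split (.split (.split (.fin (.split .big (.deg 11))) (.fin (.split (.split .big (.red [2,2,1,1,2,1,2,2,2,2,0,0,2,1,2] [0,2,3,4,5] [1])) (.deg 11)))) (.split (.fin (.split (.split .big (.red [2,2,1,1,2,1,2,2,2,2,2,1,0,0,2] [0,1,2,3,4] [5])) (.deg 11))) (.pet [[0],[1],[3],[4],[2],[5],[9,11],[6],[7],[10]]))) (.split (.split (.fin (.split (.split .big (.deg 8)) (.deg 11))) (.fin (.split (.split (.split .big (.deg 8)) (.split (.red [2,2,1,1,2,1,2,2,2,2,2,0,2,1,0,0] [0,2,3,4,5] [1]) (.deg 8))) (.deg 11)))) (.split (.fin (.split (.split (.split .big (.deg 8)) (.split (.red [2,2,1,1,2,1,2,2,2,2,2,1,2,0,0,0] [0,1,2,3,4] [5]) (.deg 8))) (.deg 11)))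 (.pet [[0],[1],[3],[4],[2],[5],[11,9],[6],[7],[10]])))) (.split (.split (.split (.fin (.split (.split .big (.red [0,2,0,0,0,0,0,0,0,0,0,0,0,0,0] [0,1,2,4,5] [3])) (.deg 11))) (.fin (.split (.split (.split .big (.red [0,2,0,0,0,0,0,0,0,0,0,0,0,0,0,0] [0,1,2,4,5] [3])) (.split (.red [0,2,0,0,0,0,0,0,0,0,0,0,0,0,0,0] [0,2,3,4,5] [1]) (.sep [0,1,2,3,4,5,7,10] [6,9,11] 0 1 8))) (.deg 11)))) (.far 7 9)) (.split (.split (.fin (.split (.split (.split .big (.red [0,2,0,0,0,0,0,0,0,0,0,0,0,0,0,0] [0,1,2,4,5] [3])) (.deg 8)) (.deg 11))) (.fin (.split (.split (.split (.split .big (.red [0,2,0,0,0,0,0,0,0,0,0,0,0,0,0,0,0] [0,1,2,4,5] [3])) (.deg 8)) (.split (.split (.red [0,2,0,0,0,0,0,0,0,0,0,0,0,0,0,0,0] [0,2,3,4,5] [1]) (.sep [0,1,2,3,4,5,7,10] [6,9,11] 0 1 8)) (.deg 8))) (.split (.split (.split (.red [0,2,0,0,0,0,0,0,0,0,0,0,0,0,0,0,0] [0,1,3,4,5] [2]) (.red [0,0,0,0,0,0,0,0,2,0,0,0,0,0,0,0,0]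 [0,1,4,5] [2,3])) (.deg 8)) (.split (.split (.red [0,2,0,0,0,0,0,0,0,0,0,0,0,0,0,0,0] [0,3,4,5] [1,2]) (.clo 0 1 (.deg 8))) (.deg 8)))))) (.far 7 9)))) (.split (.split (.split (.split (.fin (.split (.split .big (.red [2,0,0,0,0,0,0,0,0,0,0,0,0,0,0] [1,2,3,4,5] [0])) (.deg 11))) (.far 6 10)) (.split (.fin (.split (.split (.split .big (.red [2,0,0,0,0,0,0,0,0,0,0,0,0,0,0,0] [1,2,3,4,5] [0])) (.split (.red [2,0,0,0,0,0,0,0,0,0,0,0,0,0,0,0] [0,1,2,3,4] [5]) (.sep [0,1,2,3,4,5,6,9] [7,10,11] 0 1 8))) (.deg 11))) (.far 6 10))) (.split (.split (.fin (.split (.split (.split .big (.red [2,0,0,0,0,0,0,0,0,0,0,0,0,0,0,0] [1,2,3,4,5] [0])) (.deg 8)) (.deg 11))) (.far 6 10)) (.split (.fin (.split (.split (.split (.split .big (.red [2,0,0,0,0,0,0,0,0,0,0,0,0,0,0,0,0] [1,2,3,4,5] [0])) (.deg 8)) (.split (.split (.red [2,0,0,0,0,0,0,0,0,0,0,0,0,0,0,0,0] [0,1,2,3,4] [5]) (.sep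 [0,1,2,3,4,5,6,9] [7,10,11] 0 1 8)) (.deg 8))) (.split (.split (.split (.red [2,0,0,0,0,0,0,0,0,0,0,0,0,0,0,0,0] [0,1,3,4,5] [2]) (.red [0,0,0,0,0,0,2,0,0,0,0,0,0,0,0,0,0] [1,3,4,5] [0,2])) (.deg 8)) (.split (.split (.red [2,0,0,0,0,0,0,0,0,0,0,0,0,0,0,0,0] [0,1,3,4] [2,5]) (.clo 0 1 (.deg 8))) (.deg 8))))) (.far 6 10)))) (.far 6 7))

theorem ok148 : chkA tbl q148 c148 q148.rt [] [] = true := by decide +kernel

def c149 : CA := .split (.split (.split (.split (.split (.fin (.split .big (.deg 11))) (.fin (.split (.split .big (.deg 10)) (.deg 11)))) (.split (.fin (.split (.split .big (.iso 173 [0,4,2,1,5,3,9,7,6,10,8,11] [0,3,2,5,1,4,8,7,10,6,9,11])) (.deg 11))) (.far 9 10))) (.split (.split (.fin (.split (.split .big (.deg 8)) (.deg 11))) (.fin (.split (.split (.split .big (.deg 8)) (.deg 10)) (.deg 11)))) (.split (.fin (.split (.split (.split .big (.deg 8)) (.split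 (.red [1,2,2,1,2,2,0,0,0,0,0,0,0,0] [0,1,2,4,5] [3]) (.deg 8))) (.deg 11))) (.far 9 10)))) (.split (.split (.split (.fin (.split (.split .big (.deg 7)) (.deg 11))) (.fin (.split (.split (.split .big (.deg 7)) (.deg 10)) (.deg 11)))) (.split (.fin (.split (.split (.split .big (.deg 7)) (.split (.red [2,2,1,1,2,1,2,0,2,2,2,0,1,2] [0,1,2,4,5] [3]) (.deg 7))) (.deg 11))) (.far 9 10))) (.split (.split (.fin (.split (.split (.split .big (.deg 7)) (.deg 8)) (.deg 11))) (.fin (.split (.split (.split (.split .big (.deg 7)) (.deg 8)) (.deg 10)) (.split (.split (.split (.red [2,2,2,2,2,2,0,2,1,2,2,0,2,2,1] [0,1,2,3,4] [5]) (.deg 7)) (.deg 8)) (.deg 10))))) (.split (.fin (.split (.split (.split (.split .big (.deg 7)) (.deg 8)) (.split (.split (.red [0,2,0,0,0,0,0,0,0,0,0,0,0,0,0] [0,1,2,4,5] [3]) (.deg 7)) (.deg 8))) (.split (.split (.split (.red [2,0,0,0,0,0,0,0,0,0,0,0,0,0,0]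 [0,1,2,3,4] [5]) (.deg 7)) (.deg 8)) (.split (.split (.red [0,0,0,0,0,0,0,0,0,2,0,0,0,0,0] [0,1,2,4] [3,5]) (.deg 7)) (.deg 8))))) (.far 9 10))))) (.split (.split (.split (.split (.fin (.split (.split .big (.deg 6)) (.deg 11))) (.fin (.split (.split (.split .big (.deg 6)) (.deg 10)) (.deg 11)))) (.split (.fin (.split (.split (.split .big (.deg 6)) (.split (.red [0,0,0,0,0,0,0,0,0,0,0,0,0,2] [0,1,2,4,5] [3]) (.deg 6))) (.deg 11))) (.far 9 10))) (.split (.split (.fin (.split (.split (.split .big (.deg 6)) (.deg 8)) (.deg 11))) (.fin (.split (.split (.split (.split .big (.deg 6)) (.deg 8)) (.deg 10)) (.split (.split (.split (.red [0,0,2,0,0,2,2,0,1,0,0,0,2,2,1] [0,1,2,3,4] [5]) (.deg 6)) (.deg 8)) (.deg 10))))) (.split (.fin (.split (.split (.split (.split .big (.deg 6)) (.deg 8)) (.split (.split (.red [0,0,0,0,0,0,0,0,0,2,0,0,0,0,0] [0,1,2,4,5] [3]) (.deg 6)) (.deg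 8))) (.split (.split (.split (.red [0,0,2,0,0,0,0,0,0,0,0,0,0,0,0] [0,1,2,3,4] [5]) (.deg 6)) (.deg 8)) (.split (.split (.red [0,0,0,0,0,0,0,0,0,2,0,0,0,0,0] [0,1,2,4] [3,5]) (.deg 6)) (.deg 8))))) (.far 9 10)))) (.split (.split (.split (.fin (.split (.split (.split .big (.deg 6)) (.deg 7)) (.deg 11))) (.fin (.split (.split (.split (.split .big (.deg 6)) (.deg 7)) (.deg 10)) (.split (.split (.split (.red [2,2,2,2,2,2,1,1,0,2,2,2,0,0,2] [0,1,2,3,4] [5]) (.deg 6)) (.deg 7)) (.deg 10))))) (.split (.fin (.split (.split (.split (.split .big (.deg 6)) (.deg 7)) (.split (.split (.red [0,0,0,0,0,0,0,0,0,0,0,0,0,0,2] [0,1,2,4,5] [3]) (.deg 6)) (.deg 7))) (.split (.split (.split (.red [0,0,0,0,0,0,2,0,0,0,0,0,0,0,0] [0,1,2,3,4] [5]) (.deg 6)) (.deg 7)) (.split (.split (.red [0,0,0,0,0,0,2,0,0,0,0,0,0,0,0] [0,1,2,4] [3,5]) (.deg 6)) (.deg 7))))) (.far 9 10))) (.split (.split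 (.fin (.split (.split (.split (.split .big (.deg 6)) (.deg 7)) (.deg 8)) (.split (.split (.split (.red [1,2,2,2,0,2,2,0,2,2,2,0,2,1,2] [0,1,2,3,4] [5]) (.deg 6)) (.deg 7)) (.deg 8)))) (.fin (.split (.split (.split (.split (.split .big (.deg 6)) (.deg 7)) (.deg 8)) (.deg 10)) (.split (.split (.split (.split (.red [0,2,0,0,0,0,0,0,0,0,0,0,0,0,0,0] [0,1,2,3,4] [5]) (.deg 6)) (.deg 7)) (.deg 8)) (.deg 10))))) (.split (.fin (.split (.split (.split (.split (.split .big (.deg 6)) (.deg 7)) (.deg 8)) (.split (.split (.split (.red [0,2,0,0,0,0,0,0,0,0,0,0,0,0,0,0] [0,1,2,4,5] [3]) (.deg 6)) (.deg 7)) (.deg 8))) (.split (.split (.split (.split (.red [2,0,0,0,0,0,0,0,0,0,0,0,0,0,0,0] [0,1,2,3,4] [5]) (.deg 6)) (.deg 7)) (.deg 8)) (.split (.split (.split (.red [0,0,0,0,0,0,0,0,0,2,0,0,0,0,0,0] [0,1,2,4] [3,5]) (.deg 6)) (.deg 7)) (.deg 8))))) (.far 9 10)))))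

theorem ok149 : chkA tbl q149 c149 q149.rt [] [] = true := by decide +kernel

def c150 : CA := .split (.split (.split (.split (.split (.fin (.split .big (.deg 11))) (.fin (.split (.split .big (.deg 10)) (.deg 11)))) (.split (.fin (.split (.split .big (.red [2,2,2,2,2,2,0,0,2,2,1,1,2,0] [0,1,2,4,5] [3])) (.deg 11))) (.far 9 10))) (.split (.split (.fin (.split (.split .big (.red [1,2,2,1,2,2,2,2,1,2,0,1,0,0] [0,1,3,4,5] [2])) (.deg 11))) (.fin (.split (.split (.split .big (.red [2,1,1,2,2,2,2,2,2,1,1,0,0,0,0] [0,1,3,4,5] [2])) (.deg 10)) (.deg 11)))) (.far 8 9))) (.split (.split (.split (.fin (.split (.split .big (.deg 7)) (.deg 11))) (.fin (.split (.split (.split .big (.deg 7)) (.deg 10)) (.deg 11)))) (.split (.fin (.split (.split (.split .big (.deg 7)) (.split (.red [2,2,2,2,2,2,0,0,2,2,1,1,2,0,0] [0,1,2,4,5] [3]) (.deg 7))) (.deg 11))) (.far 9 10))) (.split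 (.split (.fin (.split (.split (.split .big (.deg 7)) (.split (.red [0,0,0,0,0,0,0,0,0,0,0,0,0,0,2] [0,1,3,4,5] [2]) (.deg 7))) (.deg 11))) (.fin (.split (.split (.split (.split .big (.deg 7)) (.split (.red [0,0,0,0,0,0,0,0,0,0,0,0,0,0,0,2] [0,1,3,4,5] [2]) (.deg 7))) (.deg 10)) (.split (.split (.split (.red [0,0,0,0,0,0,0,0,0,0,0,0,0,0,0,2] [0,1,2,3,4] [5]) (.deg 7)) (.split (.red [0,0,0,0,0,0,0,0,0,0,0,0,0,0,0,2] [0,1,3,4] [2,5]) (.deg 7))) (.deg 10))))) (.far 8 9)))) (.split (.split (.split (.split (.fin (.split (.split .big (.deg 6)) (.deg 11))) (.fin (.split (.split (.split .big (.deg 6)) (.deg 10)) (.deg 11)))) (.split (.fin (.split (.split (.split .big (.deg 6)) (.split (.red [0,0,0,0,0,0,0,0,0,0,0,0,0,2,0] [0,1,2,4,5] [3]) (.deg 6))) (.deg 11))) (.far 9 10))) (.split (.split (.fin (.split (.split (.split .big (.deg 6)) (.split (.red [2,1,1,2,2,2,2,2,2,1,1,2,0,0,0]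 [0,1,3,4,5] [2]) (.deg 6))) (.deg 11))) (.fin (.split (.split (.split (.split .big (.deg 6)) (.split (.red [2,0,0,0,0,0,0,0,0,0,0,0,0,0,0,0] [0,1,3,4,5] [2]) (.deg 6))) (.deg 10)) (.split (.split (.split (.red [2,2,2,2,2,2,0,0,1,1,2,2,0,0,2,0] [0,1,2,3,4] [5]) (.deg 6)) (.split (.red [0,0,0,0,0,0,0,0,2,0,0,0,0,0,0,0] [0,1,3,4] [2,5]) (.deg 6))) (.deg 10))))) (.far 8 9))) (.split (.split (.split (.fin (.split (.split (.split .big (.deg 6)) (.deg 7)) (.deg 11))) (.fin (.split (.split (.split (.split .big (.deg 6)) (.deg 7)) (.deg 10)) (.split (.split (.split (.red [2,2,2,2,2,2,1,2,2,2,2,2,0,0,1,2] [0,1,2,3,4] [5]) (.deg 6)) (.deg 7)) (.deg 10))))) (.split (.fin (.split (.split (.split (.split .big (.deg 6)) (.deg 7)) (.split (.split (.red [0,2,0,0,0,0,0,0,0,0,0,0,0,0,0,0] [0,1,2,4,5] [3]) (.deg 6)) (.deg 7))) (.split (.split (.split (.red [0,0,0,0,0,0,2,0,0,0,0,0,0,0,0,0]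 [0,1,2,3,4] [5]) (.deg 6)) (.deg 7)) (.split (.split (.red [0,0,0,0,0,0,0,0,0,0,2,0,0,0,0,0] [0,1,2,4] [3,5]) (.deg 6)) (.deg 7))))) (.far 9 10))) (.split (.split (.fin (.split (.split (.split (.split .big (.deg 6)) (.deg 7)) (.split (.split (.red [0,0,0,0,0,0,0,0,0,0,0,0,0,0,2,0] [0,1,3,4,5] [2]) (.deg 6)) (.deg 7))) (.split (.split (.split (.red [0,0,0,0,0,0,0,2,0,0,0,0,0,0,0,0] [0,1,2,3,4] [5]) (.deg 6)) (.deg 7)) (.split (.split (.sep [0,1,2,3,4,5,8,11] [6,7,9] 0 1 10) (.deg 6)) (.deg 7))))) (.fin (.split (.split (.split (.split (.split .big (.deg 6)) (.deg 7)) (.split (.split (.red [2,0,0,0,0,0,0,0,0,0,0,0,0,0,0,0,0] [0,1,3,4,5] [2]) (.deg 6)) (.deg 7))) (.deg 10)) (.split (.split (.split (.split (.red [2,0,0,0,0,0,0,0,0,0,0,0,0,0,0,0,0] [0,1,2,3,4] [5]) (.deg 6)) (.deg 7)) (.split (.split (.red [0,0,0,0,0,0,0,0,2,0,0,0,0,0,0,0,0] [0,1,3,4] [2,5]) (.deg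 6)) (.deg 7))) (.deg 10))))) (.far 8 9))))

theorem ok150 : chkA tbl q150 c150 q150.rt [] [] = true := by decide +kernel

def c151 : CA := .split (.split (.split (.split (.split (.fin (.split .big (.deg 11))) (.fin (.split (.split .big (.iso 179 [0,1,2,5,3,4,6,7,8,10,9,11] [0,1,2,4,5,3,6,7,8,10,9,11])) (.deg 11)))) (.split (.fin (.split (.split .big (.red [2,2,1,1,2,1,2,2,0,2,2,2,1,0] [0,1,2,3,5] [4])) (.deg 11))) (.far 9 10))) (.split (.split (.fin (.split (.split .big (.red [2,1,1,2,2,2,2,2,1,2,0,1,2,0] [0,1,2,4,5] [3])) (.deg 11))) (.far 8 10)) (.split (.fin (.split (.split (.split .big (.red [2,1,1,2,2,2,2,2,1,2,0,1,2,0,0] [0,1,2,4,5] [3])) (.split (.red [2,2,1,1,2,1,2,2,0,2,2,2,1,0,0] [0,1,2,3,5] [4]) (.red [2,1,1,2,2,2,2,0,1,2,2,1,2,0,0] [0,1,2,5] [3,4]))) (.deg 11))) (.far 9 10)))) (.split (.split (.split (.fin (.split (.split .big (.deg 7)) (.deg 11)))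 (.fin (.split (.split (.split .big (.deg 7)) (.split (.red [0,0,0,0,0,0,0,2,0,0,0,0,0,0,0] [0,1,3,4,5] [2]) (.deg 7))) (.deg 11)))) (.split (.fin (.split (.split (.split .big (.deg 7)) (.split (.red [2,0,0,0,0,0,0,0,0,0,0,0,0,0,0] [0,1,2,3,5] [4]) (.deg 7))) (.deg 11))) (.far 9 10))) (.split (.split (.fin (.split (.split (.split .big (.deg 7)) (.split (.red [1,2,2,1,2,2,0,0,0,0,2,2,2,0,0] [0,1,2,4,5] [3]) (.deg 7))) (.deg 11))) (.far 8 10)) (.split (.fin (.split (.split (.split (.split .big (.deg 7)) (.split (.red [0,2,0,0,0,0,0,0,0,0,0,0,0,0,0,0] [0,1,2,4,5] [3]) (.deg 7))) (.split (.split (.red [0,2,0,0,0,0,0,0,0,0,0,0,0,0,0,0] [0,1,2,3,5] [4]) (.deg 7)) (.split (.red [0,2,0,0,0,0,0,0,0,0,0,0,0,0,0,0] [0,1,2,5] [3,4]) (.deg 7)))) (.split (.split (.split (.red [2,0,0,0,0,0,0,0,0,0,0,0,0,0,0,0] [0,1,2,3,4] [5]) (.deg 7)) (.split (.red [0,0,0,0,0,0,0,0,2,0,0,0,0,0,0,0]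 [0,1,2,4] [3,5]) (.deg 7))) (.split (.split (.red [0,2,0,0,0,0,0,0,0,0,0,0,0,0,0,0] [0,1,2,3] [4,5]) (.deg 7)) (.split (.clo 0 1 (.deg 6)) (.deg 7)))))) (.far 9 10))))) (.split (.split (.split (.split (.fin (.split (.split .big (.deg 6)) (.deg 11))) (.fin (.split (.split (.split .big (.deg 6)) (.split (.red [0,0,0,0,0,0,0,0,0,0,2,0,0,0,0] [0,1,3,4,5] [2]) (.deg 6))) (.deg 11)))) (.split (.fin (.split (.split (.split .big (.deg 6)) (.split (.red [0,0,0,0,0,0,0,0,0,0,0,0,0,0,2] [0,1,2,3,5] [4]) (.deg 6))) (.deg 11))) (.far 9 10))) (.split (.split (.fin (.split (.split (.split .big (.deg 6)) (.split (.red [0,0,0,0,0,0,0,0,0,0,0,0,0,0,2] [0,1,2,4,5] [3]) (.deg 6))) (.deg 11))) (.far 8 10)) (.split (.fin (.split (.split (.split (.split .big (.deg 6)) (.split (.red [0,0,0,0,0,0,0,0,0,0,0,0,0,0,0,2] [0,1,2,4,5] [3]) (.deg 6))) (.split (.split (.red [0,0,0,0,0,0,0,0,0,0,0,0,0,0,0,2]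 [0,1,2,3,5] [4]) (.deg 6)) (.split (.red [0,0,0,0,0,0,0,0,0,0,0,0,0,0,0,2] [0,1,2,5] [3,4]) (.deg 6)))) (.split (.split (.split (.red [0,0,0,0,0,0,2,0,0,0,0,0,0,0,0,0] [0,1,2,3,4] [5]) (.deg 6)) (.split (.red [0,0,0,0,0,0,2,0,0,0,0,0,0,0,0,0] [0,1,2,4] [3,5]) (.deg 6))) (.split (.split (.red [0,0,0,0,0,0,2,0,0,0,0,0,0,0,0,0] [0,1,2,3] [4,5]) (.deg 6)) (.split (.clo 0 1 (.deg 7)) (.deg 6)))))) (.far 9 10)))) (.split (.split (.split (.fin (.split (.split (.split .big (.deg 6)) (.deg 7)) (.deg 11))) (.fin (.split (.split (.split (.split .big (.deg 6)) (.deg 7)) (.split (.split (.red [0,2,0,0,0,0,0,0,0,0,0,0,0,0,0,0] [0,1,3,4,5] [2]) (.deg 6)) (.deg 7))) (.split (.split (.split (.red [2,0,0,0,0,0,0,0,0,0,0,0,0,0,0,0] [0,1,2,3,4] [5]) (.deg 6)) (.deg 7)) (.split (.split (.red [0,2,0,0,0,0,0,0,0,0,0,0,0,0,0,0] [0,1,3,4] [2,5]) (.deg 6)) (.deg 7)))))) (.split (.fin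 (.split (.split (.split (.split .big (.deg 6)) (.deg 7)) (.split (.split (.red [0,2,0,0,0,0,0,0,0,0,0,0,0,0,0,0] [0,1,2,3,5] [4]) (.deg 6)) (.deg 7))) (.split (.split (.split (.red [2,0,0,0,0,0,0,0,0,0,0,0,0,0,0,0] [0,1,2,3,4] [5]) (.deg 6)) (.deg 7)) (.split (.split (.red [0,2,0,0,0,0,0,0,0,0,0,0,0,0,0,0] [0,1,2,3] [4,5]) (.deg 6)) (.deg 7))))) (.far 9 10))) (.split (.split (.fin (.split (.split (.split (.split .big (.deg 6)) (.deg 7)) (.split (.split (.red [0,2,0,0,0,0,0,0,0,0,0,0,0,0,0,0] [0,1,2,4,5] [3]) (.deg 6)) (.deg 7))) (.split (.split (.split (.red [2,0,0,0,0,0,0,0,0,0,0,0,0,0,0,0] [0,1,2,3,4] [5]) (.deg 6)) (.deg 7)) (.split (.split (.red [0,0,0,0,0,0,0,0,2,0,0,0,0,0,0,0] [0,1,2,4] [3,5]) (.deg 6)) (.deg 7))))) (.far 8 10)) (.split (.fin (.split (.split (.split (.split (.split .big (.deg 6)) (.deg 7)) (.split (.split (.red [0,2,0,0,0,0,0,0,0,0,0,0,0,0,0,0,0]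 [0,1,2,4,5] [3]) (.deg 6)) (.deg 7))) (.split (.split (.split (.red [0,2,0,0,0,0,0,0,0,0,0,0,0,0,0,0,0] [0,1,2,3,5] [4]) (.deg 6)) (.deg 7)) (.split (.split (.red [0,2,0,0,0,0,0,0,0,0,0,0,0,0,0,0,0] [0,1,2,5] [3,4]) (.deg 6)) (.deg 7)))) (.split (.split (.split (.split (.red [2,0,0,0,0,0,0,0,0,0,0,0,0,0,0,0,0] [0,1,2,3,4] [5]) (.deg 6)) (.deg 7)) (.split (.split (.red [0,0,0,0,0,0,0,0,2,0,0,0,0,0,0,0,0] [0,1,2,4] [3,5]) (.deg 6)) (.deg 7))) (.split (.split (.split (.red [0,2,0,0,0,0,0,0,0,0,0,0,0,0,0,0,0] [0,1,2,3] [4,5]) (.deg 6)) (.deg 7)) (.split (.split (.clo 0 1 (.pet [[0,1],[2],[3,4,7],[8],[5],[6],[9],[12],[11],[10]])) (.deg 6)) (.deg 7)))))) (.far 9 10)))))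

theorem ok151 : chkA tbl q151 c151 q151.rt [] [] = true := by decide +kernel

end Pool.Agent.TH395.P5
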