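import Pool.Agent.TH395.P5.Tab

set_option autoImplicit false
set_option maxRecDepth 100000

/-! # Certificates, part 9 -/

namespace Pool.Agent.TH395.P5

def c152 : CA := .split (.split (.split (.split (.split (.fin (.split .big (.deg 11))) (.fin (.split (.split .big (.deg 10)) (.deg 11)))) (.split (.fin (.split (.split .big (.iso 192 [0,2,1,4,3,9,5,6,8,7,10,11] [0,2,1,4,3,6,7,9,8,5,10,11])) (.deg 11))) (.far 9 10))) (.split (.split (.fin (.split (.split .big (.red [2,1,1,2,2,2,2,2,1,1,2,0,0,0] [0,1,2,4,5] [3])) (.deg 11))) (.fin (.split (.split (.split .big (.red [1,2,2,1,2,2,2,1,2,2,1,0,0,0,0] [0,1,2,4,5] [3])) (.deg 10)) (.deg 11)))) (.split (.fin (.split (.split (.split .big (.red [1,2,2,1,2,2,2,1,2,2,1,2,0,0,0] [0,1,2,4,5] [3])) (.split (.iso 194 [0,2,1,4,3,9,5,6,7,8,10,11] [0,2,1,4,3,6,7,8,9,5,10,11]) (.red [1,2,2,1,2,2,2,1,2,2,1,2,0,0,0] [0,1,2,5]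 [3,4]))) (.deg 11))) (.far 9 10)))) (.split (.split (.split (.fin (.split (.split .big (.red [1,2,2,1,2,2,2,1,2,0,1,0,0,2] [0,2,3,4,5] [1])) (.deg 11))) (.fin (.split (.split (.split .big (.red [2,2,2,2,2,2,0,2,2,2,2,1,2,2,1] [0,2,3,4,5] [1])) (.deg 10)) (.deg 11)))) (.split (.fin (.split (.split (.split .big (.red [0,0,0,0,0,0,0,0,0,0,0,0,0,2,0] [0,2,3,4,5] [1])) (.split (.iso 193 [0,2,1,4,3,9,5,6,8,7,10,11] [0,2,1,4,3,6,7,9,8,5,10,11]) (.red [0,0,0,0,0,0,0,0,0,0,0,0,0,2,0] [0,2,3,5] [1,4]))) (.deg 11))) (.far 9 10))) (.far 7 8))) (.split (.split (.split (.split (.fin (.split (.split .big (.deg 6)) (.deg 11))) (.fin (.split (.split (.split .big (.deg 6)) (.deg 10)) (.deg 11)))) (.split (.fin (.split (.split (.split .big (.deg 6)) (.split (.iso 189 [2,0,4,1,3,9,5,8,7,10,6,11] [1,3,0,4,2,6,10,8,7,5,9,11]) (.deg 6))) (.deg 11))) (.far 9 10))) (.split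 (.split (.fin (.split (.split (.split .big (.deg 6)) (.split (.red [0,0,0,0,0,0,0,0,0,0,0,0,0,0,2] [0,1,2,4,5] [3]) (.deg 6))) (.deg 11))) (.fin (.split (.split (.split (.split .big (.deg 6)) (.split (.red [0,0,0,0,0,0,0,0,0,0,0,0,0,0,0,2] [0,1,2,4,5] [3]) (.deg 6))) (.deg 10)) (.split (.split (.split (.iso 185 [0,1,2,3,4,5,7,6,8,11,9,10] [0,1,2,3,4,5,7,6,8,10,11,9]) (.deg 6)) (.split (.red [0,0,0,0,0,0,0,0,0,0,0,0,0,0,0,2] [0,1,2,4] [3,5]) (.deg 6))) (.deg 10))))) (.split (.fin (.split (.split (.split (.split .big (.deg 6)) (.split (.red [0,0,0,0,0,0,0,0,0,0,0,0,0,0,0,2] [0,1,2,4,5] [3]) (.deg 6))) (.split (.split (.red [0,0,0,0,0,0,0,0,0,0,0,0,0,0,0,2] [0,1,2,3,5] [4]) (.deg 6)) (.split (.red [0,0,0,0,0,0,0,0,0,0,0,0,0,0,0,2] [0,1,2,5] [3,4]) (.deg 6)))) (.split (.split (.split (.red [0,0,0,0,0,0,2,0,0,0,0,0,0,0,0,0] [0,1,2,3,4] [5]) (.deg 6)) (.split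 (.sep [0,1,2,3,4,5,8,11] [6,7,9] 0 1 10) (.deg 6))) (.split (.split (.red [0,0,0,0,0,0,2,0,0,0,0,0,0,0,0,0] [0,1,2,3] [4,5]) (.deg 6)) (.split (.clo 0 1 (.deg 10)) (.deg 6)))))) (.far 9 10)))) (.split (.split (.split (.fin (.split (.split (.split .big (.deg 6)) (.split (.red [1,2,2,1,2,2,2,1,2,2,1,0,0,2,0] [0,2,3,4,5] [1]) (.deg 6))) (.deg 11))) (.fin (.split (.split (.split (.split .big (.deg 6)) (.split (.red [0,0,0,0,0,0,0,0,0,0,0,0,2,0,0,0] [0,2,3,4,5] [1]) (.deg 6))) (.deg 10)) (.split (.split (.split (.iso 197 [0,1,2,4,3,5,8,6,7,11,9,10] [0,1,2,4,3,5,7,8,6,10,11,9]) (.deg 6)) (.split (.red [0,0,0,0,0,0,0,0,0,0,0,2,0,0,0,0] [0,2,3,4] [1,5]) (.deg 6))) (.deg 10))))) (.split (.fin (.split (.split (.split (.split .big (.deg 6)) (.split (.red [0,0,0,0,0,0,0,0,0,0,0,0,0,2,0,0] [0,2,3,4,5] [1]) (.deg 6))) (.split (.split (.red [0,0,0,0,0,0,0,0,0,0,0,0,0,2,0,0]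 [0,1,2,3,5] [4]) (.deg 6)) (.split (.red [0,0,0,0,0,0,0,0,0,0,0,0,0,2,0,0] [0,2,3,5] [1,4]) (.deg 6)))) (.split (.split (.split (.red [0,0,0,0,0,0,0,0,0,0,0,2,0,0,0,0] [0,1,2,3,4] [5]) (.deg 6)) (.split (.sep [0,1,2,3,4,5,7,11] [6,8,9] 0 1 10) (.deg 6))) (.split (.split (.red [0,2,0,0,0,0,0,0,0,0,0,0,0,0,0,0] [0,1,2,3] [4,5]) (.deg 6)) (.split (.clo 0 1 (.deg 10)) (.deg 6)))))) (.far 9 10))) (.far 7 8)))

theorem ok152 : chkA tbl q152 c152 q152.rt [] [] = true := by decide +kernel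

def c153 : CA := .split (.split (.split (.split (.split (.fin (.split .big (.deg 11))) (.fin (.split (.split .big (.iso 184 [0,1,2,3,4,5,6,7,9,8,10,11] [0,1,2,3,4,5,6,7,9,8,10,11])) (.deg 11)))) (.split (.fin (.split (.split .big (.iso 194 [0,2,1,4,3,9,5,6,7,8,11,10] [0,2,1,4,3,6,7,8,9,5,11,10])) (.deg 11))) (.far 9 10))) (.split (.split (.fin (.split (.split .big (.red [2,2,2,2,2,2,0,2,2,1,1,0,0,0,2] [0,1,2,4,5] [3])) (.deg 11))) (.far 8 10)) (.far 8 9))) (.split (.split (.split (.fin (.split (.split .big (.red [1,2,2,1,2,2,2,1,2,0,1,0,0,0,2] [0,2,3,4,5] [1])) (.deg 11))) (.fin (.split (.split (.split .big (.red [2,2,2,2,2,2,0,2,2,1,1,0,2,0,0,0] [0,2,3,4,5] [1])) (.split (.red [2,2,2,2,2,2,0,2,2,1,1,0,2,0,0,0] [0,1,3,4,5] [2]) (.red [2,2,2,2,2,2,0,2,2,2,2,1,0,2,2,1] [0,3,4,5] [1,2]))) (.deg 11)))) (.split (.fin (.split (.split (.split .big (.red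 [0,0,0,0,0,0,0,0,0,0,0,0,0,0,2,0] [0,2,3,4,5] [1])) (.split (.red [1,2,2,0,2,0,0,1,0,0,0,2,0,0,1,2] [0,1,2,3,5] [4]) (.red [0,0,0,0,0,0,0,0,0,0,0,0,0,0,2,0] [0,2,3,5] [1,4]))) (.deg 11))) (.far 9 10))) (.far 7 8))) (.split (.split (.split (.split (.fin (.split (.split .big (.deg 6)) (.deg 11))) (.fin (.split (.split (.split .big (.deg 6)) (.split (.iso 197 [0,2,1,3,4,5,7,9,8,10,6,11] [0,2,1,3,4,5,10,6,8,7,9,11]) (.deg 6))) (.deg 11)))) (.split (.fin (.split (.split (.split .big (.deg 6)) (.split (.red [2,2,2,2,2,2,0,2,2,2,2,1,1,2,2,0] [0,1,2,3,5] [4]) (.deg 6))) (.deg 11))) (.far 9 10))) (.split (.split (.fin (.split (.split (.split .big (.deg 6)) (.split (.red [0,0,0,0,0,0,0,0,0,0,0,0,0,0,2,0] [0,1,2,4,5] [3]) (.deg 6))) (.deg 11))) (.far 8 10)) (.far 8 9))) (.split (.split (.split (.fin (.split (.split (.split .big (.deg 6)) (.split (.red [2,2,2,2,2,2,2,2,2,2,2,1,1,0,2,0]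 [0,2,3,4,5] [1]) (.deg 6))) (.deg 11))) (.fin (.split (.split (.split (.split .big (.deg 6)) (.split (.red [2,0,0,0,0,0,0,0,0,0,0,0,0,0,0,0,0] [0,2,3,4,5] [1]) (.deg 6))) (.split (.split (.red [0,2,0,0,0,0,0,0,0,0,0,0,0,0,0,0,0] [0,1,3,4,5] [2]) (.deg 6)) (.split (.red [2,0,0,0,0,0,0,0,0,0,0,0,0,0,0,0,0] [0,3,4,5] [1,2]) (.deg 6)))) (.split (.split (.split (.red [2,0,0,0,0,0,0,0,0,0,0,0,0,0,0,0,0] [0,1,2,3,4] [5]) (.deg 6)) (.split (.red [0,0,0,0,0,0,0,2,0,0,0,0,0,0,0,0,0] [0,2,3,4] [1,5]) (.deg 6))) (.split (.split (.red [2,0,0,0,0,0,0,0,0,0,0,0,0,0,0,0,0] [0,1,3,4] [2,5]) (.deg 6)) (.split (.clo 0 1 (.pet [[0],[1,6],[3],[4],[2],[5],[12],[7,11],[8],[9,10]])) (.deg 6))))))) (.split (.fin (.split (.split (.split (.split .big (.deg 6)) (.split (.red [0,0,2,0,0,0,0,0,0,0,0,0,0,0,0,0,0] [0,2,3,4,5] [1]) (.deg 6))) (.split (.split (.red [0,2,0,0,0,0,0,0,0,0,0,0,0,0,0,0,0]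 [0,1,2,3,5] [4]) (.deg 6)) (.split (.red [0,2,0,0,0,0,0,0,0,0,0,0,0,0,0,0,0] [0,2,3,5] [1,4]) (.deg 6)))) (.split (.split (.split (.red [2,0,0,0,0,0,0,0,0,0,0,0,0,0,0,0,0] [0,1,2,3,4] [5]) (.deg 6)) (.split (.sep [0,1,2,3,4,5,7,11] [6,8,9] 0 1 10) (.deg 6))) (.split (.split (.red [0,2,0,0,0,0,0,0,0,0,0,0,0,0,0,0,0] [0,1,2,3] [4,5]) (.deg 6)) (.split (.clo 0 1 (.pet [[0],[1,6],[3],[4],[2],[5],[12],[7,11],[8],[9,10]])) (.deg 6)))))) (.far 9 10))) (.far 7 8)))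

theorem ok153 : chkA tbl q153 c153 q153.rt [] [] = true := by decide +kernel

def c154 : CA := .split (.split (.split (.split (.split (.fin (.split .big (.deg 11))) (.fin (.split (.split .big (.deg 10)) (.deg 11)))) (.split (.fin (.split (.split .big (.red [2,2,1,1,2,1,2,2,2,2,2,2,1,0,0] [0,1,2,3,5] [4])) (.deg 11))) (.fin (.split (.split (.split .big (.red [2,2,1,1,2,1,2,2,2,2,2,2,1,0,0,0] [0,1,2,3,5] [4])) (.deg 10)) (.deg 11))))) (.split (.split (.fin (.split (.split .big (.red [2,2,2,2,2,2,0,2,2,1,1,2,2,2,0] [0,1,2,4,5] [3])) (.deg 11))) (.far 8 10)) (.split (.fin (.split (.split (.split .big (.red [2,2,2,2,2,2,0,2,2,1,1,2,2,2,0,0] [0,1,2,4,5] [3])) (.split (.red [2,2,2,2,2,2,0,2,2,1,1,2,2,0,2,0] [0,1,2,3,5] [4]) (.red [0,2,0,0,0,0,0,0,0,0,0,0,0,0,0,0] [0,1,2,5] [3,4]))) (.deg 11))) (.far 8 10)))) (.split (.split (.split (.fin (.split (.split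 .big (.red [2,0,0,0,0,0,0,0,0,0,0,0,0,0,0] [0,2,3,4,5] [1])) (.deg 11))) (.fin (.split (.split (.split .big (.red [2,0,0,0,0,0,0,0,0,0,0,0,0,0,0,0] [0,2,3,4,5] [1])) (.deg 10)) (.deg 11)))) (.far 7 9)) (.far 7 8))) (.split (.split (.split (.split (.fin (.split (.split .big (.deg 6)) (.deg 11))) (.fin (.split (.split (.split .big (.deg 6)) (.deg 10)) (.deg 11)))) (.split (.fin (.split (.split (.split .big (.deg 6)) (.split (.red [0,0,0,0,0,0,0,0,0,0,0,0,0,0,0,2] [0,1,2,3,5] [4]) (.deg 6))) (.deg 11))) (.pet [[0],[1,6],[3],[4],[2],[5],[11],[7],[8,10],[9]]))) (.split (.split (.fin (.split (.split (.split .big (.deg 6)) (.split (.red [0,0,0,0,0,0,0,0,0,0,0,0,0,0,2,0] [0,1,2,4,5] [3]) (.deg 6))) (.deg 11))) (.far 8 10)) (.split (.pet [[0],[1,6],[3],[4],[2],[5],[11],[7],[8],[9]]) (.far 8 10)))) (.split (.split (.split (.fin (.split (.split (.split .big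 (.deg 6)) (.split (.red [2,0,0,0,0,0,0,0,0,0,0,0,0,0,0,0] [0,2,3,4,5] [1]) (.deg 6))) (.deg 11))) (.fin (.split (.split (.split (.split .big (.deg 6)) (.split (.red [2,0,0,0,0,0,0,0,0,0,0,0,0,0,0,0,0] [0,2,3,4,5] [1]) (.deg 6))) (.deg 10)) (.split (.split (.split (.red [2,2,2,2,2,2,0,1,1,2,2,0,0,0,0,2,0] [0,1,2,3,4] [5]) (.deg 6)) (.split (.red [0,0,0,0,0,0,0,2,0,0,0,0,0,0,0,0,0] [0,2,3,4] [1,5]) (.deg 6))) (.deg 10))))) (.far 7 9)) (.far 7 8)))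

theorem ok154 : chkA tbl q154 c154 q154.rt [] [] = true := by decide +kernel

def c155 : CA := .split (.split (.split (.split (.split (.fin (.split .big (.deg 11))) (.fin (.split (.split .big (.iso 196 [0,1,2,4,3,5,6,8,7,10,9,11] [0,1,2,4,3,5,6,8,7,10,9,11])) (.deg 11)))) (.split (.fin (.split (.split .big (.red [2,2,2,2,2,2,0,2,2,2,2,1,1,0,0,2] [0,1,2,3,5] [4])) (.deg 11))) (.far 9 10))) (.split (.split (.fin (.split (.split .big (.red [2,2,2,2,2,2,0,2,2,1,1,2,2,0,0,2] [0,1,2,4,5] [3])) (.deg 11))) (.far 8 10)) (.far 8 9))) (.split (.split (.split (.fin (.split (.split .big (.red [2,0,0,0,0,0,0,0,0,0,0,0,0,0,0,0] [0,2,3,4,5] [1])) (.deg 11))) (.far 7 10)) (.far 7 9)) (.far 7 8))) (.split (.split (.split (.split (.fin (.split (.split .big (.deg 6)) (.deg 11))) (.pet [[0],[1,6,11],[3],[4],[2],[5],[10],[7],[8],[9]])) (.split (.fin (.split (.split (.split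 .big (.deg 6)) (.split (.red [0,2,0,0,0,0,0,0,0,0,0,0,0,0,0,0,0] [0,1,2,3,5] [4]) (.deg 6))) (.deg 11))) (.far 9 10))) (.split (.split (.fin (.split (.split (.split .big (.deg 6)) (.split (.red [0,2,0,0,0,0,0,0,0,0,0,0,0,0,0,0,0] [0,1,2,4,5] [3]) (.deg 6))) (.deg 11))) (.far 8 10)) (.far 8 9))) (.split (.split (.split (.fin (.split (.split (.split .big (.deg 6)) (.split (.red [2,0,0,0,0,0,0,0,0,0,0,0,0,0,0,0,0] [0,2,3,4,5] [1]) (.deg 6))) (.deg 11))) (.far 7 10)) (.far 7 9)) (.far 7 8)))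

theorem ok155 : chkA tbl q155 c155 q155.rt [] [] = true := by decide +kernel

def c156 : CA := .split (.split (.split (.split (.split (.fin (.split .big (.deg 11))) (.fin (.split (.split .big (.iso 186 [0,1,2,3,4,5,6,7,10,8,9,11] [0,1,2,3,4,5,6,7,9,10,8,11])) (.deg 11)))) (.split (.fin (.split (.split .big (.iso 189 [2,0,4,1,3,9,5,7,6,11,8,10] [1,3,0,4,2,6,8,7,10,5,11,9])) (.deg 11))) (.far 9 10))) (.split (.split (.fin (.split (.split .big (.iso 189 [1,0,3,2,4,8,5,6,7,11,9,10] [1,0,3,2,4,6,7,8,5,10,11,9])) (.deg 11))) (.far 8 10)) (.far 8 9))) (.split (.split (.split (.fin (.split (.split .big (.red [2,1,1,2,2,2,2,1,1,2,0,0,0,0,2] [0,1,2,4,5] [3])) (.deg 11))) (.fin (.split (.split (.split .big (.red [2,2,2,2,2,2,2,2,2,2,1,0,2,0,2,1] [0,1,2,4,5] [3])) (.split (.red [2,2,2,2,2,2,2,2,2,2,1,2,2,1,0,0] [0,1,3,4,5] [2]) (.red [0,0,0,0,0,0,0,0,0,0,0,0,2,0,0,0]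 [0,1,4,5] [2,3]))) (.deg 11)))) (.split (.fin (.split (.split (.split .big (.red [0,0,0,0,0,0,0,0,0,0,2,0,1,2,1,2] [0,1,2,4,5] [3])) (.split (.red [2,2,2,2,2,2,2,2,2,2,0,1,0,2,2,1] [0,2,3,4,5] [1]) (.red [0,0,0,0,2,0,0,0,0,0,0,0,0,0,0,0] [0,2,4,5] [1,3]))) (.deg 11))) (.far 9 10))) (.split (.split (.fin (.split (.split (.split .big (.red [0,0,0,0,0,0,0,0,0,0,0,0,0,0,2,0] [0,1,2,4,5] [3])) (.split (.red [0,0,0,0,0,0,0,0,0,0,0,0,0,1,0,1] [0,1,2,3,5] [4]) (.red [0,0,0,0,0,0,0,0,0,0,0,0,0,0,2,0] [0,1,2,5] [3,4]))) (.deg 11))) (.far 8 10)) (.far 8 9)))) (.split (.split (.split (.split (.fin (.split (.split .big (.red [1,2,2,1,2,2,1,2,2,1,0,0,0,0,2] [1,2,3,4,5] [0])) (.deg 11))) (.fin (.split (.split (.split .big (.red [2,2,2,2,2,2,2,2,2,2,0,1,0,2,2,1] [1,2,3,4,5] [0])) (.split (.red [2,2,2,2,2,2,2,2,2,2,2,1,1,2,0,0] [0,1,3,4,5] [2]) (.red [0,0,0,0,0,0,0,0,0,0,0,0,0,2,0,0]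 [1,3,4,5] [0,2]))) (.deg 11)))) (.split (.fin (.split (.split (.split .big (.red [0,0,0,0,0,0,0,0,0,0,0,0,0,0,2,0] [1,2,3,4,5] [0])) (.split (.red [0,0,0,0,0,0,0,0,0,0,0,0,1,0,0,1] [0,2,3,4,5] [1]) (.red [0,0,0,0,0,0,0,0,0,0,0,0,0,0,2,0] [2,3,4,5] [0,1]))) (.deg 11))) (.far 9 10))) (.split (.split (.fin (.split (.split (.split .big (.red [0,0,0,0,0,0,0,0,0,0,0,2,2,1,1,2] [1,2,3,4,5] [0])) (.split (.red [2,2,2,2,2,2,2,2,2,2,1,0,2,0,2,1] [0,1,2,3,5] [4]) (.red [0,0,0,0,2,0,0,0,0,0,0,0,0,0,0,0] [1,2,3,5] [0,4]))) (.deg 11))) (.far 8 10)) (.far 8 9))) (.far 6 7))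

theorem ok156 : chkA tbl q156 c156 q156.rt [] [] = true := by decide +kernel

def c157 : CA := .split (.split (.split (.split (.split (.fin (.split .big (.deg 11))) (.fin (.split (.split .big (.deg 10)) (.deg 11)))) (.split (.fin (.split (.split .big (.red [2,2,2,2,2,2,2,2,2,2,2,1,1,2,0] [0,2,3,4,5] [1])) (.deg 11))) (.far 9 10))) (.split (.split (.fin (.split (.split .big (.red [2,1,1,2,2,2,2,1,1,2,2,2,0,0,0] [0,1,2,3,5] [4])) (.deg 11))) (.far 8 10)) (.far 8 9))) (.split (.split (.split (.fin (.split (.split .big (.red [2,1,1,2,2,2,2,1,1,2,0,2,0,0,2] [0,1,2,4,5] [3])) (.deg 11))) (.fin (.split (.split (.split .big (.red [0,0,0,0,0,0,0,0,0,0,2,0,1,2,1,2] [0,1,2,4,5] [3])) (.deg 10)) (.deg 11)))) (.split (.fin (.split (.split (.split .big (.red [0,2,0,0,0,0,0,0,0,0,0,0,0,0,0,0] [0,1,2,4,5] [3])) (.split (.red [0,2,0,0,0,0,0,0,0,0,0,0,0,0,0,0] [0,2,3,4,5]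 [1]) (.red [0,2,0,0,0,0,0,0,0,0,0,0,0,0,0,0] [0,2,4,5] [1,3]))) (.deg 11))) (.far 9 10))) (.split (.split (.fin (.split (.split (.split .big (.red [0,0,0,0,0,0,0,0,0,0,0,0,0,0,2,0] [0,1,2,4,5] [3])) (.split (.red [0,0,0,0,0,0,0,0,0,0,0,0,0,0,0,2] [0,1,2,3,5] [4]) (.sep [0,1,2,3,4,5,7,8] [6,9,11] 0 1 10))) (.deg 11))) (.far 8 10)) (.far 8 9)))) (.split (.split (.split (.split (.fin (.split (.split .big (.red [1,2,2,1,2,2,1,2,2,1,2,0,0,0,2] [1,2,3,4,5] [0])) (.deg 11))) (.fin (.split (.split (.split .big (.red [0,0,0,0,0,0,0,0,0,0,0,0,0,0,2,0] [1,2,3,4,5] [0])) (.deg 10)) (.deg 11)))) (.split (.fin (.split (.split (.split .big (.red [0,0,0,0,0,0,0,0,0,0,0,0,0,0,2,0] [1,2,3,4,5] [0])) (.split (.red [0,0,0,0,0,0,0,0,0,0,0,0,0,0,2,0] [0,2,3,4,5] [1]) (.red [0,0,0,0,0,0,0,0,0,0,0,0,0,0,2,0] [2,3,4,5] [0,1]))) (.deg 11))) (.far 9 10))) (.split (.split (.fin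 (.split (.split (.split .big (.red [0,0,2,0,0,0,0,0,0,0,0,0,0,0,0,0] [1,2,3,4,5] [0])) (.split (.red [2,0,0,0,0,0,0,0,0,0,0,0,0,0,0,0] [0,1,2,3,5] [4]) (.sep [0,1,2,3,4,5,6,8] [7,9,11] 0 1 10))) (.deg 11))) (.far 8 10)) (.far 8 9))) (.far 6 7))

theorem ok157 : chkA tbl q157 c157 q157.rt [] [] = true := by decide +kernel

def c158 : CA := .split (.split (.split (.split (.split (.fin (.split .big (.deg 11))) (.fin (.split (.split .big (.deg 10)) (.deg 11)))) (.split (.fin (.split (.split .big (.red [1,2,2,1,2,2,1,2,2,0,2,2,1,0,0] [0,2,3,4,5] [1])) (.deg 11))) (.fin (.split (.split (.split .big (.red [2,2,2,2,2,2,2,2,2,0,2,2,2,1,0,1] [0,2,3,4,5] [1])) (.deg 10)) (.deg 11))))) (.split (.split (.fin (.split (.split .big (.red [1,2,2,1,2,2,1,2,0,0,2,2,1,0,2] [0,1,2,3,5] [4])) (.deg 11))) (.fin (.split (.split (.split .big (.red [0,0,0,0,0,0,0,0,0,0,0,0,0,2,0,0]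 [0,1,2,3,5] [4])) (.deg 10)) (.deg 11)))) (.far 8 9))) (.split (.split (.split (.fin (.split (.split .big (.red [2,2,2,2,2,2,2,2,1,1,2,2,2,2,0] [0,1,2,4,5] [3])) (.deg 11))) (.far 7 10)) (.split (.fin (.split (.split (.split .big (.red [0,2,0,0,0,0,0,0,0,0,0,0,0,0,0,0] [0,1,2,4,5] [3])) (.split (.red [0,2,0,0,0,0,0,0,0,0,0,0,0,0,0,0] [0,2,3,4,5] [1]) (.red [0,2,0,0,0,0,0,0,0,0,0,0,0,0,0,0] [0,2,4,5] [1,3]))) (.deg 11))) (.far 7 10))) (.split (.split (.fin (.split (.split (.split .big (.red [0,0,0,0,0,0,0,0,0,0,0,0,0,0,0,2] [0,1,2,4,5] [3])) (.split (.red [0,0,0,0,0,0,0,0,0,0,0,0,0,0,0,2] [0,1,2,3,5] [4]) (.red [0,0,0,0,0,0,0,0,0,0,0,0,0,0,0,2] [0,1,2,5] [3,4]))) (.deg 11))) (.far 7 10)) (.far 8 9)))) (.split (.split (.split (.split (.fin (.split (.split .big (.red [1,2,2,1,2,2,1,2,2,1,2,0,0,0,2] [1,2,3,4,5] [0])) (.deg 11))) (.fin (.split (.split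 (.split .big (.red [2,2,2,2,2,2,2,2,2,2,2,2,0,1,0,1] [1,2,3,4,5] [0])) (.deg 10)) (.deg 11)))) (.split (.fin (.split (.split (.split .big (.red [0,0,0,0,0,0,0,0,0,0,0,0,0,0,2,0] [1,2,3,4,5] [0])) (.split (.red [0,0,0,0,0,0,0,0,0,0,0,0,0,0,0,2] [0,2,3,4,5] [1]) (.sep [0,1,2,3,4,5,6,9] [7,8,11] 0 1 10))) (.deg 11))) (.fin (.split (.split (.split (.split .big (.red [2,0,0,0,0,0,0,0,0,0,0,0,0,0,0,0,0] [1,2,3,4,5] [0])) (.split (.red [0,2,0,0,0,0,0,0,0,0,0,0,0,0,0,0,0] [0,2,3,4,5] [1]) (.sep [0,1,2,3,4,5,6,9] [7,8,11] 0 1 10))) (.deg 10)) (.split (.split (.split (.red [0,2,0,0,0,0,0,0,0,0,0,0,0,0,0,0,0] [0,1,2,3,4] [5]) (.red [0,0,0,0,0,0,2,0,0,0,0,0,0,0,0,0,0] [1,2,3,4] [0,5])) (.split (.red [0,2,0,0,0,0,0,0,0,0,0,0,0,0,0,0,0] [0,2,3,4] [1,5]) (.clo 0 1 (.pet [[0],[1,8],[3],[4],[2,9],[5],[12],[6],[7],[10,11]])))) (.deg 10)))))) (.split (.split (.fin (.split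 (.split (.split .big (.red [2,0,0,0,0,0,0,0,0,0,0,0,0,0,0,0] [1,2,3,4,5] [0])) (.split (.red [2,0,0,0,0,0,0,0,0,0,0,0,0,0,0,0] [0,1,2,3,5] [4]) (.sep [0,1,2,3,4,5,6,8] [7,9,11] 0 1 10))) (.deg 11))) (.fin (.split (.split (.split (.split .big (.red [2,0,0,0,0,0,0,0,0,0,0,0,0,0,0,0,0] [1,2,3,4,5] [0])) (.split (.red [2,0,0,0,0,0,0,0,0,0,0,0,0,0,0,0,0] [0,1,2,3,5] [4]) (.sep [0,1,2,3,4,5,6,8] [7,9,11] 0 1 10))) (.deg 10)) (.split (.split (.split (.red [2,0,0,0,0,0,0,0,0,0,0,0,0,0,0,0,0] [0,1,2,3,4] [5]) (.red [0,0,0,0,0,0,2,0,0,0,0,0,0,0,0,0,0] [1,2,3,4] [0,5])) (.split (.red [2,0,0,0,0,0,0,0,0,0,0,0,0,0,0,0,0] [0,1,2,3] [4,5]) (.clo 0 1 (.flow [(10,2),(9,1),(7,3)] 0)))) (.deg 10))))) (.far 8 9))) (.far 6 7))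

theorem ok158 : chkA tbl q158 c158 q158.rt [] [] = true := by decide +kernel

def c159 : CA := .split (.split (.split (.split (.split (.fin (.split .big (.deg 11))) (.fin (.split (.split .big (.deg 10)) (.deg 11)))) (.split (.fin (.split (.split .big (.red [0,2,0,0,0,0,0,0,0,0,0,0,0,0,0,0] [0,2,3,4,5] [1])) (.deg 11))) (.fin (.split (.split (.split .big (.red [0,2,0,0,0,0,0,0,0,0,0,0,0,0,0,0,0] [0,2,3,4,5] [1])) (.deg 10)) (.deg 11))))) (.split (.split (.fin (.split (.split .big (.red [2,2,2,2,2,2,1,0,2,2,0,1,2,1,0,2] [0,1,2,3,5] [4])) (.deg 11))) (.pet [[0],[1],[3],[4],[2],[5],[8],[6],[7,10,11],[9]])) (.far 8 9))) (.split (.split (.split (.fin (.split (.split .big (.red [2,2,2,2,2,2,2,2,1,1,2,2,2,0,2,0] [0,1,2,4,5] [3])) (.deg 11))) (.far 7 10)) (.split (.fin (.split (.split (.split .big (.red [0,2,0,0,0,0,0,0,0,0,0,0,0,0,0,0,0] [0,1,2,4,5] [3]))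 (.split (.red [0,2,0,0,0,0,0,0,0,0,0,0,0,0,0,0,0] [0,2,3,4,5] [1]) (.red [0,2,0,0,0,0,0,0,0,0,0,0,0,0,0,0,0] [0,2,4,5] [1,3]))) (.deg 11))) (.far 7 10))) (.split (.split (.pet [[0],[1],[3],[4],[2],[5],[8],[6],[7,11],[9]]) (.far 7 10)) (.far 8 9)))) (.split (.split (.split (.split (.fin (.split (.split .big (.red [2,0,0,0,0,0,0,0,0,0,0,0,0,0,0,0] [1,2,3,4,5] [0])) (.deg 11))) (.fin (.split (.split (.split .big (.red [2,0,0,0,0,0,0,0,0,0,0,0,0,0,0,0,0] [1,2,3,4,5] [0])) (.deg 10)) (.deg 11)))) (.far 6 9)) (.far 6 8)) (.far 6 7))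

theorem ok159 : chkA tbl q159 c159 q159.rt [] [] = true := by decide +kernel

def c160 : CA := .split (.split (.split (.split (.split (.fin (.split .big (.deg 11))) (.fin (.split (.split .big (.deg 10)) (.deg 11)))) (.split (.fin (.split (.split .big (.iso 188 [2,0,4,1,3,9,5,6,7,10,11,8] [1,3,0,4,2,6,7,8,11,5,9,10])) (.deg 11))) (.far 9 10))) (.split (.split (.fin (.split (.split .big (.red [2,2,1,1,2,1,2,2,2,2,2,1,0,0,2] [0,1,2,3,5] [4])) (.deg 11))) (.fin (.split (.split (.split .big (.red [2,2,2,2,2,2,2,2,2,2,2,2,1,0,0,1] [0,1,2,3,5] [4])) (.deg 10)) (.deg 11)))) (.split (.fin (.split (.split (.split .big (.red [0,0,0,0,0,0,0,0,0,0,0,0,0,0,2,0] [0,1,2,3,5] [4])) (.split (.iso 191 [2,0,4,1,3,9,5,6,7,10,11,8] [1,3,0,4,2,6,7,8,11,5,9,10]) (.red [0,0,0,0,0,0,0,0,0,0,0,0,0,0,2,0] [0,2,3,5] [1,4]))) (.deg 11))) (.far 9 10)))) (.split (.split (.split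 (.fin (.split (.split .big (.red [0,2,0,0,0,0,0,0,0,0,0,0,0,0,0] [0,1,2,4,5] [3])) (.deg 11))) (.fin (.split (.split (.split .big (.red [0,2,0,0,0,0,0,0,0,0,0,0,0,0,0,0] [0,1,2,4,5] [3])) (.deg 10)) (.deg 11)))) (.split (.fin (.split (.split (.split .big (.red [0,2,0,0,0,0,0,0,0,0,0,0,0,0,0,0] [0,1,2,4,5] [3])) (.split (.red [2,2,2,2,2,2,2,2,1,1,2,0,0,0,0,0] [0,2,3,4,5] [1]) (.red [0,2,0,0,0,0,0,0,0,0,0,0,0,0,0,0] [0,2,4,5] [1,3]))) (.deg 11))) (.far 9 10))) (.far 7 8))) (.split (.split (.split (.split (.fin (.split (.split .big (.red [2,2,2,2,2,2,2,2,1,1,1,2,0,0,2] [1,2,3,4,5] [0])) (.deg 11))) (.fin (.split (.split (.split .big (.red [2,2,2,2,2,2,2,2,2,2,2,2,1,0,0,1] [1,2,3,4,5] [0])) (.deg 10)) (.deg 11)))) (.split (.fin (.split (.split (.split .big (.red [0,0,0,0,0,0,0,0,0,0,0,0,0,0,2,0] [1,2,3,4,5] [0])) (.split (.iso 190 [2,0,4,1,3,9,5,7,6,10,8,11]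 [1,3,0,4,2,6,8,7,10,5,9,11]) (.red [0,0,0,0,0,0,0,0,0,0,0,0,0,0,2,0] [2,3,4,5] [0,1]))) (.deg 11))) (.far 9 10))) (.split (.split (.fin (.split (.split (.split .big (.red [2,2,2,2,2,2,2,2,1,1,1,2,0,0,0,2] [1,2,3,4,5] [0])) (.split (.red [2,2,1,1,2,1,2,2,2,2,2,1,2,0,0,0] [0,1,2,3,5] [4]) (.sep [0,1,3,4,5,6,8] [2,7,11] 0 1 9))) (.deg 11))) (.pet [[0],[1],[3],[4],[2,9,10],[5],[8],[6],[7],[11]])) (.split (.pet [[0],[1],[3],[4],[2,9],[5],[8],[6],[7],[11]]) (.far 9 10)))) (.far 6 7))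

theorem ok160 : chkA tbl q160 c160 q160.rt [] [] = true := by decide +kernel

end Pool.Agent.TH395.P5
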