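import Pool.Agent.TH395.P5.Tab

set_option autoImplicit false
set_option maxRecDepth 100000

/-! # Certificates, part 11 -/

namespace Pool.Agent.TH395.P5

def c172 : CA := .split (.split (.split (.split (.split (.fin (.split .big (.deg 11))) (.fin (.split (.split .big (.iso 199 [0,2,1,4,3,5,9,7,6,10,11,8] [0,2,1,4,3,5,8,7,11,6,9,10])) (.deg 11)))) (.split (.fin (.split (.split .big (.iso 190 [2,0,3,1,4,9,5,6,7,11,8,10] [1,3,0,2,4,6,7,8,10,5,11,9])) (.deg 11))) (.far 9 10))) (.split (.split (.fin (.split (.split .big (.red [2,2,1,1,2,1,2,2,2,2,2,1,0,0,0,2] [0,1,2,3,5] [4])) (.deg 11))) (.pet [[0],[1],[4],[3],[2,9],[5],[8,11],[7],[6],[10]])) (.split (.pet [[0],[1],[4],[3],[2],[5],[8,11],[7,10],[6],[9]]) (.far 9 10)))) (.split (.split (.split (.fin (.split (.split .big (.red [0,0,0,0,0,0,0,0,0,0,0,0,0,2,0,0] [0,1,2,4,5] [3])) (.deg 11))) (.far 7 10)) (.far 7 9)) (.split (.split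 (.fin (.split (.split (.split .big (.red [2,0,0,0,0,0,0,0,0,0,0,0,0,0,0,0,0] [0,1,2,4,5] [3])) (.split (.red [2,2,2,2,2,2,2,2,1,1,2,2,2,0,0,0,0] [0,1,2,3,5] [4]) (.red [2,0,0,0,0,0,0,0,0,0,0,0,0,0,0,0,0] [0,1,2,5] [3,4]))) (.deg 11))) (.far 7 10)) (.far 7 9)))) (.split (.split (.split (.split (.fin (.split (.split .big (.red [0,2,0,0,0,0,0,0,0,0,0,0,0,0,0,0] [1,2,3,4,5] [0])) (.deg 11))) (.fin (.split (.split (.split .big (.red [0,2,0,0,0,0,0,0,0,0,0,0,0,0,0,0,0] [1,2,3,4,5] [0])) (.split (.red [0,2,0,0,0,0,0,0,0,0,0,0,0,0,0,0,0] [0,1,3,4,5] [2]) (.red [0,2,0,0,0,0,0,0,0,0,0,0,0,0,0,0,0] [1,3,4,5] [0,2]))) (.deg 11)))) (.split (.fin (.split (.split (.split .big (.red [0,2,0,0,0,0,0,0,0,0,0,0,0,0,0,0,0] [1,2,3,4,5] [0])) (.split (.red [0,2,0,0,0,0,0,0,0,0,0,0,0,0,0,0,0] [0,2,3,4,5] [1]) (.red [0,2,0,0,0,0,0,0,0,0,0,0,0,0,0,0,0] [2,3,4,5] [0,1]))) (.deg 11))) (.far 9 10))) (.far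 6 8)) (.far 6 7))

theorem ok172 : chkA tbl q172 c172 q172.rt [] [] = true := by decide +kernel

def c173 : CA := .split (.split (.split (.split (.split (.fin (.split .big (.deg 12))) (.fin (.split (.split .big (.deg 11)) (.deg 12)))) (.split (.fin (.split (.split .big (.deg 10)) (.deg 12))) (.fin (.split (.split (.split .big (.deg 10)) (.deg 11)) (.deg 12))))) (.split (.split (.fin (.split (.split .big (.deg 9)) (.deg 12))) (.fin (.split (.split (.split .big (.deg 9)) (.deg 11)) (.deg 12)))) (.split (.fin (.split (.split (.split .big (.deg 9)) (.deg 10)) (.deg 12))) (.fin (.split (.split (.split (.split .big (.deg 9)) (.deg 10)) (.deg 11)) (.split (.split (.split (.red [2,2,2,2,2,2,2,2,0,0,1,1,0,0,2,2] [1,2,3,4,5] [0]) (.deg 9)) (.deg 10)) (.deg 11))))))) (.split (.split (.split (.fin (.split (.split .big (.deg 8)) (.deg 12))) (.fin (.split (.split (.split .big (.deg 8)) (.deg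 11)) (.deg 12)))) (.split (.fin (.split (.split (.split .big (.deg 8)) (.deg 10)) (.deg 12))) (.fin (.split (.split (.split (.split .big (.deg 8)) (.deg 10)) (.deg 11)) (.split (.split (.split (.red [2,2,2,2,2,2,2,2,0,1,0,0,1,2,0,2] [1,2,3,4,5] [0]) (.deg 8)) (.deg 10)) (.deg 11)))))) (.split (.split (.fin (.split (.split (.split .big (.deg 8)) (.deg 9)) (.deg 12))) (.fin (.split (.split (.split (.split .big (.deg 8)) (.deg 9)) (.deg 11)) (.split (.split (.split (.red [2,2,2,2,2,2,2,2,0,1,0,0,1,2,0,2] [1,2,3,4,5] [0]) (.deg 8)) (.deg 9)) (.deg 11))))) (.split (.fin (.split (.split (.split (.split .big (.deg 8)) (.deg 9)) (.deg 10)) (.split (.split (.split (.red [2,2,2,2,2,2,2,2,0,0,1,1,0,2,2,0] [1,2,3,4,5] [0]) (.deg 8)) (.deg 9)) (.deg 10)))) (.fin (.split (.split (.split (.split (.split .big (.deg 8)) (.deg 9)) (.deg 10)) (.deg 11)) (.split (.split (.split (.split (.red [2,0,0,0,0,0,0,0,0,0,0,0,0,0,0,0,0]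 [1,2,3,4,5] [0]) (.deg 8)) (.deg 9)) (.deg 10)) (.deg 11)))))))) (.split (.split (.split (.split (.fin (.split (.split .big (.deg 7)) (.deg 12))) (.fin (.split (.split (.split .big (.deg 7)) (.deg 11)) (.deg 12)))) (.split (.fin (.split (.split (.split .big (.deg 7)) (.deg 10)) (.deg 12))) (.fin (.split (.split (.split (.split .big (.deg 7)) (.deg 10)) (.deg 11)) (.split (.split (.split (.red [1,2,2,2,0,0,0,0,0,0,0,2,0,0,2,1] [1,2,3,4,5] [0]) (.deg 7)) (.deg 10)) (.deg 11)))))) (.split (.split (.fin (.split (.split (.split .big (.deg 7)) (.deg 9)) (.deg 12))) (.fin (.split (.split (.split (.split .big (.deg 7)) (.deg 9)) (.deg 11)) (.split (.split (.split (.red [2,2,2,1,2,2,0,2,0,0,2,0,2,2,2,1] [1,2,3,4,5] [0]) (.deg 7)) (.deg 9)) (.deg 11))))) (.split (.fin (.split (.split (.split (.split .big (.deg 7)) (.deg 9)) (.deg 10)) (.split (.split (.split (.red [0,0,0,0,0,0,0,0,0,0,0,0,0,0,2,0]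 [1,2,3,4,5] [0]) (.deg 7)) (.deg 9)) (.deg 10)))) (.fin (.split (.split (.split (.split (.split .big (.deg 7)) (.deg 9)) (.deg 10)) (.deg 11)) (.split (.split (.split (.split (.red [2,0,0,0,0,0,0,0,0,0,0,0,0,0,0,0,0] [1,2,3,4,5] [0]) (.deg 7)) (.deg 9)) (.deg 10)) (.deg 11))))))) (.split (.split (.split (.fin (.split (.split (.split .big (.deg 7)) (.deg 8)) (.deg 12))) (.fin (.split (.split (.split (.split .big (.deg 7)) (.deg 8)) (.deg 11)) (.split (.split (.split (.red [0,0,0,0,0,0,0,0,0,0,0,0,0,0,2,0] [1,2,3,4,5] [0]) (.deg 7)) (.deg 8)) (.deg 11))))) (.split (.fin (.split (.split (.split (.split .big (.deg 7)) (.deg 8)) (.deg 10)) (.split (.split (.split (.red [2,2,1,2,0,2,2,2,0,2,0,2,0,2,2,1] [1,2,3,4,5] [0]) (.deg 7)) (.deg 8)) (.deg 10)))) (.fin (.split (.split (.split (.split (.split .big (.deg 7)) (.deg 8)) (.deg 10)) (.deg 11)) (.split (.split (.split (.split (.red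 [2,0,0,0,0,0,0,0,0,0,0,0,0,0,0,0,0] [1,2,3,4,5] [0]) (.deg 7)) (.deg 8)) (.deg 10)) (.deg 11)))))) (.split (.split (.fin (.split (.split (.split (.split .big (.deg 7)) (.deg 8)) (.deg 9)) (.split (.split (.split (.red [2,1,0,0,2,0,2,0,0,2,0,0,0,0,2,1] [1,2,3,4,5] [0]) (.deg 7)) (.deg 8)) (.deg 9)))) (.fin (.split (.split (.split (.split (.split .big (.deg 7)) (.deg 8)) (.deg 9)) (.deg 11)) (.split (.split (.split (.split (.red [0,2,0,0,0,0,0,0,0,0,0,0,0,0,0,0,0] [1,2,3,4,5] [0]) (.deg 7)) (.deg 8)) (.deg 9)) (.deg 11))))) (.split (.fin (.split (.split (.split (.split (.split .big (.deg 7)) (.deg 8)) (.deg 9)) (.deg 10)) (.split (.split (.split (.split (.red [0,2,0,0,0,0,0,0,0,0,0,0,0,0,0,0,0] [1,2,3,4,5] [0]) (.deg 7)) (.deg 8)) (.deg 9)) (.deg 10)))) (.fin (.split (.split (.split (.split (.split (.split .big (.deg 7)) (.deg 8)) (.deg 9)) (.deg 10)) (.deg 11)) (.split (.split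 (.split (.split (.split (.red [2,0,0,0,0,0,0,0,0,0,0,0,0,0,0,0,0,0] [1,2,3,4,5] [0]) (.deg 7)) (.deg 8)) (.deg 9)) (.deg 10)) (.deg 11))))))))

theorem ok173 : chkA tbl q173 c173 q173.rt [] [] = true := by decide +kernel

def c174 : CA := .split (.split (.split (.split (.split (.fin (.split .big (.deg 12))) (.fin (.split (.split .big (.deg 11)) (.deg 12)))) (.split (.fin (.split (.split .big (.red [1,2,2,2,1,2,1,2,0,0,2,2,1,2,0] [1,2,3,4,5] [0])) (.deg 12))) (.far 10 11))) (.split (.split (.fin (.split (.split .big (.deg 9)) (.deg 12))) (.fin (.split (.split (.split .big (.deg 9)) (.deg 11)) (.deg 12)))) (.split (.fin (.split (.split (.split .big (.deg 9)) (.split (.red [0,0,0,0,0,0,0,0,2,0,0,0,0,0,0,0] [1,2,3,4,5] [0]) (.deg 9))) (.deg 12))) (.far 10 11)))) (.split (.split (.split (.fin (.split (.split .big (.red [2,1,2,2,1,1,2,2,2,1,2,0,0,2,0] [0,1,3,4,5] [2])) (.deg 12)))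 (.fin (.split (.split (.split .big (.red [0,0,0,0,0,0,0,0,0,0,0,2,0,0,0,0] [0,1,3,4,5] [2])) (.deg 11)) (.deg 12)))) (.split (.fin (.split (.split (.split .big (.red [2,1,2,2,1,1,2,2,2,1,2,0,0,2,0,0] [0,1,3,4,5] [2])) (.split (.red [1,2,2,2,1,2,1,2,0,0,2,2,1,2,0,0] [1,2,3,4,5] [0]) (.red [2,1,2,2,1,1,2,2,2,1,0,2,2,0,0,0] [1,3,4,5] [0,2]))) (.deg 12))) (.far 10 11))) (.far 8 9))) (.split (.split (.split (.split (.fin (.split (.split .big (.deg 7)) (.deg 12))) (.fin (.split (.split (.split .big (.deg 7)) (.deg 11)) (.deg 12)))) (.split (.fin (.split (.split (.split .big (.deg 7)) (.split (.red [0,0,0,0,0,0,0,0,0,0,0,0,0,0,0,2] [1,2,3,4,5] [0]) (.deg 7))) (.deg 12))) (.far 10 11))) (.split (.split (.fin (.split (.split (.split .big (.deg 7)) (.deg 9)) (.deg 12))) (.fin (.split (.split (.split (.split .big (.deg 7)) (.deg 9)) (.deg 11)) (.split (.split (.split (.red [2,0,0,0,0,0,0,0,0,0,0,0,0,0,0,0,0]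 [0,1,2,3,4] [5]) (.deg 7)) (.deg 9)) (.deg 11))))) (.split (.fin (.split (.split (.split (.split .big (.deg 7)) (.deg 9)) (.split (.split (.red [0,0,0,2,0,0,0,0,0,0,0,0,0,0,0,0,0] [1,2,3,4,5] [0]) (.deg 7)) (.deg 9))) (.split (.split (.split (.red [2,0,0,0,0,0,0,0,0,0,0,0,0,0,0,0,0] [0,1,2,3,4] [5]) (.deg 7)) (.deg 9)) (.split (.split (.red [0,0,0,0,0,0,0,0,0,0,0,2,0,0,0,0,0] [1,2,3,4] [0,5]) (.deg 7)) (.deg 9))))) (.far 10 11)))) (.split (.split (.split (.fin (.split (.split (.split .big (.deg 7)) (.split (.red [0,0,0,0,0,0,0,0,0,0,0,0,0,0,0,2] [0,1,3,4,5] [2]) (.deg 7))) (.deg 12))) (.fin (.split (.split (.split (.split .big (.deg 7)) (.split (.red [0,0,2,0,0,0,0,0,0,0,0,0,0,0,0,0,0] [0,1,3,4,5] [2]) (.deg 7))) (.deg 11)) (.split (.split (.split (.red [0,2,0,0,0,0,0,0,0,0,0,0,0,0,0,0,0] [0,1,2,3,4] [5]) (.deg 7)) (.split (.red [0,0,0,0,0,0,0,0,2,0,0,0,0,0,0,0,0] [0,1,3,4]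 [2,5]) (.deg 7))) (.deg 11))))) (.split (.fin (.split (.split (.split (.split .big (.deg 7)) (.split (.red [0,0,0,0,0,0,0,0,0,0,0,0,0,0,0,0,2] [0,1,3,4,5] [2]) (.deg 7))) (.split (.split (.red [0,0,0,0,0,0,0,0,0,0,0,0,0,0,0,0,2] [1,2,3,4,5] [0]) (.deg 7)) (.split (.red [0,0,0,0,0,0,0,0,0,0,0,0,0,0,0,0,2] [1,3,4,5] [0,2]) (.deg 7)))) (.split (.split (.split (.red [0,0,0,0,0,0,0,2,0,0,0,0,0,0,0,0,0] [0,1,2,3,4] [5]) (.deg 7)) (.split (.red [0,0,0,0,0,0,0,2,0,0,0,0,0,0,0,0,0] [0,1,3,4] [2,5]) (.deg 7))) (.split (.split (.red [0,0,0,0,0,0,0,2,0,0,0,0,0,0,0,0,0] [1,2,3,4] [0,5]) (.deg 7)) (.split (.clo 0 1 (.deg 11)) (.deg 7)))))) (.far 10 11))) (.far 8 9)))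

theorem ok174 : chkA tbl q174 c174 q174.rt [] [] = true := by decide +kernel

def c175 : CA := .split (.split (.split (.split (.split (.fin (.split .big (.deg 12))) (.fin (.split (.split .big (.deg 11)) (.deg 12)))) (.split (.fin (.split (.split .big (.red [0,0,0,0,0,0,0,0,0,0,0,0,0,0,2,0,0] [0,1,2,3,4] [5])) (.deg 12))) (.far 9 11))) (.split (.split (.fin (.split (.split .big (.red [2,2,2,2,2,2,2,0,1,2,2,1,1,2,2,0,0] [0,1,3,4,5] [2])) (.deg 12))) (.fin (.split (.split (.split .big (.red [2,2,2,2,2,2,2,0,0,2,2,2,2,0,2,1,0,1] [0,1,3,4,5] [2])) (.deg 11)) (.deg 12)))) (.far 8 9))) (.split (.split (.split (.fin (.split (.split .big (.red [0,0,0,0,0,0,0,0,0,0,0,0,0,2,0,0,0] [0,2,3,4,5] [1])) (.deg 12))) (.far 7 11)) (.far 7 9)) (.far 7 8))) (.split (.split (.split (.split (.fin (.split (.split .big (.red [2,2,2,2,2,2,2,1,1,2,2,0,1,2,2,0,0] [1,2,3,4,5] [0])) (.deg 12))) (.fin (.split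 (.split (.split .big (.red [2,2,2,2,2,2,2,2,2,2,2,0,0,2,0,1,0,1] [1,2,3,4,5] [0])) (.deg 11)) (.deg 12)))) (.far 6 9)) (.split (.split (.pet [[0],[1],[4],[6,12],[2],[3],[5],[9],[8],[7,10]]) (.pet [[0,2],[3],[8],[12],[6],[7],[9],[5],[10,11],[1,4]])) (.far 8 9))) (.far 6 7))

theorem ok175 : chkA tbl q175 c175 q175.rt [] [] = true := by decide +kernel

def c176 : CA := .split (.split (.split (.split (.split (.fin (.split .big (.deg 12))) (.fin (.split (.split .big (.deg 11)) (.deg 12)))) (.split (.fin (.split (.split .big (.deg 10)) (.deg 12))) (.pet [[0],[1],[4],[7],[2],[3,10,12],[6],[8],[9,11],[5]]))) (.split (.split (.fin (.split (.split .big (.red [0,0,2,0,0,0,0,0,0,0,0,0,0,0,0,0,0] [0,1,3,4,5] [2])) (.deg 12))) (.fin (.split (.split (.split .big (.red [0,0,2,0,0,0,0,0,0,0,0,0,0,0,0,0,0,0] [0,1,3,4,5] [2])) (.deg 11)) (.deg 12)))) (.far 8 10))) (.split (.split (.split (.fin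 (.split (.split .big (.red [2,2,2,2,2,2,2,1,1,2,2,2,0,2,0,0,0] [0,2,3,4,5] [1])) (.deg 12))) (.far 7 11)) (.split (.fin (.split (.split (.split .big (.red [0,2,0,0,0,0,0,0,0,0,0,0,0,0,0,0,0,0] [0,2,3,4,5] [1])) (.deg 10)) (.deg 12))) (.far 7 11))) (.far 7 8))) (.split (.split (.split (.split (.fin (.split (.split .big (.red [2,2,2,2,2,1,1,2,2,2,2,2,2,0,0,0,0] [1,2,3,4,5] [0])) (.deg 12))) (.far 6 11)) (.split (.fin (.split (.split (.split .big (.red [2,0,0,0,0,0,0,0,0,0,0,0,0,0,0,0,0,0] [1,2,3,4,5] [0])) (.deg 10)) (.deg 12))) (.far 6 11))) (.far 6 8)) (.far 6 7))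

theorem ok176 : chkA tbl q176 c176 q176.rt [] [] = true := by decide +kernel

def c177 : CA := .split (.split (.split (.split (.split (.fin (.split .big (.deg 12))) (.fin (.split (.split .big (.deg 11)) (.deg 12)))) (.split (.fin (.split (.split .big (.deg 10)) (.deg 12))) (.fin (.split (.split (.split .big (.deg 10)) (.deg 11)) (.deg 12))))) (.split (.split (.fin (.split (.split .big (.red [0,0,0,0,0,0,0,0,0,0,0,0,2,0,0,0] [0,1,2,4,5] [3])) (.deg 12))) (.far 8 11)) (.split (.fin (.split (.split (.split .big (.red [0,0,0,0,0,0,0,0,0,0,0,0,2,0,0,0,0] [0,1,2,4,5] [3])) (.deg 10)) (.deg 12))) (.far 8 11)))) (.split (.split (.split (.fin (.split (.split .big (.iso 209 [0,3,7,2,1,4,5,12,6,8,9,10,11] [0,4,3,1,5,6,8,2,9,10,11,12,7])) (.deg 12))) (.fin (.split (.split (.split .big (.iso 201 [0,3,2,7,1,4,5,6,8,9,10,12,11] [0,4,2,1,5,6,7,3,8,9,10,12,11])) (.deg 11)) (.deg 12)))) (.split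 (.fin (.split (.split (.split .big (.red [0,0,0,0,0,0,0,0,0,0,0,2,1,0,0,1,0] [0,1,3,4,5] [2])) (.deg 10)) (.deg 12))) (.fin (.split (.split (.split (.split .big (.red [0,0,2,0,0,0,0,0,0,0,0,0,0,0,0,0,0,0] [0,1,3,4,5] [2])) (.deg 10)) (.deg 11)) (.split (.split (.split (.red [0,0,0,0,0,0,0,0,0,0,0,2,0,0,0,0,0,0] [0,1,2,3,5] [4]) (.red [0,0,2,0,0,0,0,0,0,0,0,0,0,0,0,0,0,0] [0,1,3,5] [2,4])) (.deg 10)) (.deg 11)))))) (.far 7 8))) (.split (.split (.split (.split (.fin (.split (.split .big (.iso 209 [0,2,6,3,1,5,4,12,7,8,9,10,11] [0,4,1,3,6,5,2,8,9,10,11,12,7])) (.deg 12))) (.fin (.split (.split (.split .big (.iso 201 [0,2,3,6,1,5,4,7,8,9,10,12,11] [0,4,1,2,6,5,3,7,8,9,10,12,11])) (.deg 11)) (.deg 12)))) (.split (.fin (.split (.split (.split .big (.red [0,0,0,0,0,0,0,0,0,0,0,2,1,0,0,1,0] [1,2,3,4,5] [0])) (.deg 10)) (.deg 12))) (.fin (.split (.split (.split (.split .big (.red [0,2,0,0,0,0,0,0,0,0,0,0,0,0,0,0,0,0]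 [1,2,3,4,5] [0])) (.deg 10)) (.deg 11)) (.split (.split (.split (.red [0,0,0,0,0,0,0,0,0,0,0,2,0,0,0,0,0,0] [0,1,2,3,5] [4]) (.red [0,2,0,0,0,0,0,0,0,0,0,0,0,0,0,0,0,0] [1,2,3,5] [0,4])) (.deg 10)) (.deg 11)))))) (.far 6 8)) (.split (.split (.split (.fin (.split (.split (.split .big (.iso 204 [0,2,3,6,1,5,4,8,7,9,10,11,12] [0,4,1,2,6,5,3,8,7,9,10,11,12])) (.split (.iso 204 [0,3,2,7,1,4,5,8,6,9,10,11,12] [0,4,2,1,5,6,8,3,7,9,10,11,12]) (.sep [2,3,4,5,6,7] [0,8,12] 2 3 10))) (.deg 12))) (.pet [[0,1],[2],[4],[7],[3],[9,11],[6],[8],[12],[5]])) (.split (.pet [[0],[1,9,10],[8],[4],[2],[3],[12],[5],[7],[6]]) (.pet [[0,1],[2],[4],[7],[3],[9,11],[6],[8],[12],[5]]))) (.far 7 8)))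

theorem ok177 : chkA tbl q177 c177 q177.rt [] [] = true := by decide +kernel

def c178 : CA := .split (.split (.split (.split (.split (.fin (.split .big (.deg 12))) (.fin (.split (.split .big (.deg 11)) (.deg 12)))) (.split (.fin (.split (.split .big (.deg 10)) (.deg 12))) (.fin (.split (.split (.split .big (.deg 10)) (.deg 11)) (.deg 12))))) (.split (.split (.fin (.split (.split .big (.red [1,2,2,2,2,2,2,2,2,2,2,2,1,2,0,0] [0,1,2,3,5] [4])) (.deg 12))) (.far 8 11)) (.split (.fin (.split (.split (.split .big (.red [1,2,2,2,2,2,2,2,2,2,2,2,1,0,2,0,0] [0,1,2,3,5] [4])) (.deg 10)) (.deg 12))) (.far 8 11)))) (.split (.split (.split (.fin (.split (.split .big (.red [2,1,2,2,2,2,1,2,1,1,2,0,0,0,0,0] [0,1,3,4,5] [2])) (.deg 12))) (.fin (.split (.split (.split .big (.red [1,2,2,2,2,2,2,2,2,2,2,2,1,2,0,0,0] [0,1,3,4,5] [2])) (.deg 11)) (.deg 12)))) (.split (.fin (.split (.split (.split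 .big (.red [1,2,2,2,2,2,2,2,2,2,2,2,0,0,0,2,1] [0,1,3,4,5] [2])) (.deg 10)) (.deg 12))) (.fin (.split (.split (.split (.split .big (.red [0,0,0,0,0,0,0,0,0,0,0,0,0,0,0,2,0,0] [0,1,3,4,5] [2])) (.deg 10)) (.deg 11)) (.split (.split (.split (.red [0,0,0,0,0,0,0,0,0,0,0,2,0,0,0,0,0,0] [0,1,2,4,5] [3]) (.red [0,0,0,0,2,0,0,0,0,0,0,0,0,0,0,0,0,0] [0,1,4,5] [2,3])) (.deg 10)) (.deg 11)))))) (.far 7 8))) (.split (.split (.split (.split (.fin (.split (.split .big (.iso 210 [0,2,6,3,1,4,5,12,7,8,9,10,11] [0,4,1,3,5,6,2,8,9,10,11,12,7])) (.deg 12))) (.fin (.split (.split (.split .big (.red [2,1,2,2,2,2,1,2,1,1,2,0,0,0,0,0,0] [1,2,3,4,5] [0])) (.deg 11)) (.deg 12)))) (.split (.fin (.split (.split (.split .big (.red [1,2,2,2,2,2,2,2,2,2,2,2,1,0,2,0,0] [1,2,3,4,5] [0])) (.deg 10)) (.deg 12))) (.fin (.split (.split (.split (.split .big (.red [0,0,0,0,2,0,0,0,0,0,0,0,0,0,0,0,0,0] [1,2,3,4,5]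 [0])) (.deg 10)) (.deg 11)) (.split (.split (.split (.red [0,0,0,0,0,0,0,0,0,0,0,2,0,0,0,0,0,0] [0,1,2,4,5] [3]) (.red [0,0,0,0,2,0,0,0,0,0,0,0,0,0,0,0,0,0] [1,2,4,5] [0,3])) (.deg 10)) (.deg 11)))))) (.split (.split (.fin (.split (.split (.split .big (.red [0,2,2,2,2,2,2,2,2,1,1,0,0,0,0,0,2] [1,2,3,4,5] [0])) (.split (.red [1,2,2,2,2,2,2,2,2,2,2,2,1,2,0,0,0] [0,1,2,3,5] [4]) (.red [0,0,2,0,0,0,0,0,0,0,0,0,0,0,0,0,0] [1,2,3,5] [0,4]))) (.deg 12))) (.far 8 11)) (.split (.fin (.split (.split (.split (.split .big (.red [0,2,0,0,0,0,0,0,0,0,0,0,0,0,0,0,0,0] [1,2,3,4,5] [0])) (.split (.red [0,0,2,0,0,0,0,0,0,0,0,0,0,0,0,0,0,0] [0,1,2,3,5] [4]) (.red [0,0,2,0,0,0,0,0,0,0,0,0,0,0,0,0,0,0] [1,2,3,5] [0,4]))) (.deg 10)) (.split (.split (.split (.red [2,0,0,0,0,0,0,0,0,0,0,0,0,0,0,0,0,0] [0,1,2,4,5] [3]) (.red [0,2,0,0,0,0,0,0,0,0,0,0,0,0,0,0,0,0] [1,2,4,5] [0,3])) (.split (.red [0,0,2,0,0,0,0,0,0,0,0,0,0,0,0,0,0,0]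 [0,1,2,5] [3,4]) (.clo 0 1 (.deg 11)))) (.deg 10)))) (.far 8 11)))) (.far 6 7))

theorem ok178 : chkA tbl q178 c178 q178.rt [] [] = true := by decide +kernel

def c179 : CA := .split (.split (.split (.split (.split (.fin (.split .big (.deg 12))) (.fin (.split (.split .big (.deg 11)) (.deg 12)))) (.split (.fin (.split (.split .big (.red [2,2,1,1,1,2,2,2,0,0,2,2,1,2,0] [0,1,2,4,5] [3])) (.deg 12))) (.far 10 11))) (.split (.split (.fin (.split (.split .big (.red [2,1,2,1,2,2,0,2,2,1,1,0,0,2,2] [0,1,2,3,5] [4])) (.deg 12))) (.fin (.split (.split (.split .big (.red [2,2,1,0,1,0,0,0,2,2,0,2,0,0,0,0] [0,1,2,3,5] [4])) (.deg 11)) (.deg 12)))) (.split (.fin (.split (.split (.split .big (.red [2,1,2,1,2,2,2,2,2,1,1,0,0,2,0,0] [0,1,2,3,5] [4])) (.split (.red [2,2,1,1,1,2,2,2,0,0,2,2,1,2,0,0] [0,1,2,4,5] [3]) (.red [2,1,2,1,2,2,2,0,2,1,1,2,2,0,0,0] [0,1,2,5] [3,4]))) (.deg 12))) (.far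 10 11)))) (.split (.split (.split (.fin (.split (.split .big (.deg 7)) (.deg 12))) (.fin (.split (.split (.split .big (.deg 7)) (.deg 11)) (.deg 12)))) (.split (.fin (.split (.split (.split .big (.deg 7)) (.split (.red [2,0,0,0,0,0,0,0,0,0,0,0,0,0,0,0] [0,1,2,4,5] [3]) (.deg 7))) (.deg 12))) (.far 10 11))) (.split (.split (.fin (.split (.split (.split .big (.deg 7)) (.split (.red [2,2,1,0,1,0,0,0,2,2,0,2,0,0,0,0] [0,1,2,3,5] [4]) (.deg 7))) (.deg 12))) (.fin (.split (.split (.split (.split .big (.deg 7)) (.split (.red [2,2,1,0,1,0,0,0,2,2,0,2,0,0,0,0,0] [0,1,2,3,5] [4]) (.deg 7))) (.deg 11)) (.split (.split (.split (.red [2,0,0,0,0,0,0,0,0,0,0,0,0,0,0,0,0] [0,1,2,3,4] [5]) (.deg 7)) (.split (.red [0,0,0,0,0,0,0,0,2,0,0,0,0,0,0,0,0] [0,1,2,3] [4,5]) (.deg 7))) (.deg 11))))) (.split (.fin (.split (.split (.split (.split .big (.deg 7)) (.split (.red [0,0,2,0,0,0,0,0,0,0,0,0,0,0,0,0,0]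 [0,1,2,3,5] [4]) (.deg 7))) (.split (.split (.red [0,2,0,0,0,0,0,0,0,0,0,0,0,0,0,0,0] [0,1,2,4,5] [3]) (.deg 7)) (.split (.red [0,2,0,0,0,0,0,0,0,0,0,0,0,0,0,0,0] [0,1,2,5] [3,4]) (.deg 7)))) (.split (.split (.split (.red [2,0,0,0,0,0,0,0,0,0,0,0,0,0,0,0,0] [0,1,2,3,4] [5]) (.deg 7)) (.split (.red [0,0,0,0,0,0,0,0,2,0,0,0,0,0,0,0,0] [0,1,2,3] [4,5]) (.deg 7))) (.split (.split (.red [0,2,0,0,0,0,0,0,0,0,0,0,0,0,0,0,0] [0,1,2,4] [3,5]) (.deg 7)) (.split (.clo 0 1 (.deg 11)) (.deg 7)))))) (.far 10 11))))) (.split (.split (.split (.split (.fin (.split (.split .big (.deg 6)) (.deg 12))) (.fin (.split (.split (.split .big (.deg 6)) (.deg 11)) (.deg 12)))) (.split (.fin (.split (.split (.split .big (.deg 6)) (.split (.red [0,0,0,0,0,0,0,0,0,0,0,0,0,0,0,2] [0,1,2,4,5] [3]) (.deg 6))) (.deg 12))) (.far 10 11))) (.split (.split (.fin (.split (.split (.split .big (.deg 6)) (.split (.red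 [0,0,0,0,0,0,0,0,0,0,0,0,0,0,0,2] [0,1,2,3,5] [4]) (.deg 6))) (.deg 12))) (.fin (.split (.split (.split (.split .big (.deg 6)) (.split (.red [0,0,2,0,0,0,0,0,0,0,0,0,0,0,0,0,0] [0,1,2,3,5] [4]) (.deg 6))) (.deg 11)) (.split (.split (.split (.red [2,0,0,0,0,0,0,0,0,0,0,0,0,0,0,0,0] [0,1,2,3,4] [5]) (.deg 6)) (.split (.red [0,0,0,0,0,0,0,0,2,0,0,0,0,0,0,0,0] [0,1,2,3] [4,5]) (.deg 6))) (.deg 11))))) (.split (.fin (.split (.split (.split (.split .big (.deg 6)) (.split (.red [0,0,0,0,0,0,0,0,0,0,0,0,0,0,0,0,2] [0,1,2,3,5] [4]) (.deg 6))) (.split (.split (.red [0,0,0,0,0,0,0,0,0,0,0,0,0,0,0,0,2] [0,1,2,4,5] [3]) (.deg 6)) (.split (.red [0,0,0,0,0,0,0,0,0,0,0,0,0,0,0,0,2] [0,1,2,5] [3,4]) (.deg 6)))) (.split (.split (.split (.red [0,0,0,0,0,0,2,0,0,0,0,0,0,0,0,0,0] [0,1,2,3,4] [5]) (.deg 6)) (.split (.red [0,0,0,0,0,0,2,0,0,0,0,0,0,0,0,0,0] [0,1,2,3] [4,5]) (.deg 6))) (.split (.split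 (.red [0,0,0,0,0,0,2,0,0,0,0,0,0,0,0,0,0] [0,1,2,4] [3,5]) (.deg 6)) (.split (.clo 0 1 (.deg 11)) (.deg 6)))))) (.far 10 11)))) (.split (.split (.split (.fin (.split (.split (.split .big (.deg 6)) (.deg 7)) (.deg 12))) (.fin (.split (.split (.split (.split .big (.deg 6)) (.deg 7)) (.deg 11)) (.split (.split (.split (.red [0,2,0,0,0,0,0,0,0,0,0,0,0,0,0,0,0] [0,1,2,3,4] [5]) (.deg 6)) (.deg 7)) (.deg 11))))) (.split (.fin (.split (.split (.split (.split .big (.deg 6)) (.deg 7)) (.split (.split (.red [0,2,0,0,0,0,0,0,0,0,0,0,0,0,0,0,0] [0,1,2,4,5] [3]) (.deg 6)) (.deg 7))) (.split (.split (.split (.red [2,0,0,0,0,0,0,0,0,0,0,0,0,0,0,0,0] [0,1,2,3,4] [5]) (.deg 6)) (.deg 7)) (.split (.split (.red [0,2,0,0,0,0,0,0,0,0,0,0,0,0,0,0,0] [0,1,2,4] [3,5]) (.deg 6)) (.deg 7))))) (.far 10 11))) (.split (.split (.fin (.split (.split (.split (.split .big (.deg 6)) (.deg 7)) (.split (.split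 (.red [0,0,2,0,0,0,0,0,0,0,0,0,0,0,0,0,0] [0,1,2,3,5] [4]) (.deg 6)) (.deg 7))) (.split (.split (.split (.red [2,0,0,0,0,0,0,0,0,0,0,0,0,0,0,0,0] [0,1,2,3,4] [5]) (.deg 6)) (.deg 7)) (.split (.split (.red [0,0,0,0,0,0,0,0,2,0,0,0,0,0,0,0,0] [0,1,2,3] [4,5]) (.deg 6)) (.deg 7))))) (.fin (.split (.split (.split (.split (.split .big (.deg 6)) (.deg 7)) (.split (.split (.red [0,0,2,0,0,0,0,0,0,0,0,0,0,0,0,0,0,0] [0,1,2,3,5] [4]) (.deg 6)) (.deg 7))) (.deg 11)) (.split (.split (.split (.split (.red [2,0,0,0,0,0,0,0,0,0,0,0,0,0,0,0,0,0] [0,1,2,3,4] [5]) (.deg 6)) (.deg 7)) (.split (.split (.red [0,0,0,0,0,0,0,0,2,0,0,0,0,0,0,0,0,0] [0,1,2,3] [4,5]) (.deg 6)) (.deg 7))) (.deg 11))))) (.split (.fin (.split (.split (.split (.split (.split .big (.deg 6)) (.deg 7)) (.split (.split (.red [0,0,2,0,0,0,0,0,0,0,0,0,0,0,0,0,0,0] [0,1,2,3,5] [4]) (.deg 6)) (.deg 7))) (.split (.split (.split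 (.red [0,2,0,0,0,0,0,0,0,0,0,0,0,0,0,0,0,0] [0,1,2,4,5] [3]) (.deg 6)) (.deg 7)) (.split (.split (.red [0,2,0,0,0,0,0,0,0,0,0,0,0,0,0,0,0,0] [0,1,2,5] [3,4]) (.deg 6)) (.deg 7)))) (.split (.split (.split (.split (.red [2,0,0,0,0,0,0,0,0,0,0,0,0,0,0,0,0,0] [0,1,2,3,4] [5]) (.deg 6)) (.deg 7)) (.split (.split (.red [0,0,0,0,0,0,0,0,2,0,0,0,0,0,0,0,0,0] [0,1,2,3] [4,5]) (.deg 6)) (.deg 7))) (.split (.split (.split (.red [0,2,0,0,0,0,0,0,0,0,0,0,0,0,0,0,0,0] [0,1,2,4] [3,5]) (.deg 6)) (.deg 7)) (.split (.split (.clo 0 1 (.deg 11)) (.deg 6)) (.deg 7)))))) (.far 10 11)))))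

theorem ok179 : chkA tbl q179 c179 q179.rt [] [] = true := by decide +kernel

def c180 : CA := .split (.split (.split (.split (.split (.fin (.split .big (.deg 12))) (.fin (.split (.split .big (.deg 11)) (.deg 12)))) (.split (.fin (.split (.split .big (.iso 200 [0,3,1,2,10,4,8,6,5,7,9,12,11] [0,2,3,1,5,8,7,9,6,10,4,12,11])) (.deg 12))) (.far 10 11))) (.split (.split (.fin (.split (.split .big (.red [0,0,2,0,0,0,0,0,0,0,0,0,0,0,0,0,0] [0,1,3,4,5] [2])) (.deg 12))) (.fin (.split (.split (.split .big (.red [0,0,2,0,0,0,0,0,0,0,0,0,0,0,0,0,0,0] [0,1,3,4,5] [2])) (.deg 11)) (.deg 12)))) (.far 8 10))) (.split (.split (.split (.fin (.split (.split .big (.red [0,0,0,0,0,0,0,0,0,0,0,0,2,0,0,0,0] [0,2,3,4,5] [1])) (.deg 12))) (.far 7 11)) (.far 7 10)) (.far 7 8))) (.split (.split (.split (.split (.fin (.split (.split .big (.red [2,1,2,2,1,2,1,2,2,1,2,2,0,0,0,0,2] [1,2,3,4,5] [0])) (.deg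 12))) (.pet [[0],[1],[5],[7],[2],[3,10],[6,12],[8],[9,11],[4]])) (.split (.pet [[0],[1],[5],[7,9],[2],[3],[6,12],[8],[10],[4]]) (.far 10 11))) (.far 6 8)) (.split (.split (.split (.fin (.split (.split (.split .big (.red [2,2,2,2,2,2,2,1,1,2,2,2,0,2,0,0,0,0] [1,2,3,4,5] [0])) (.split (.red [0,2,0,0,0,0,0,0,0,0,0,0,0,0,0,0,0,0] [0,2,3,4,5] [1]) (.red [0,2,0,0,0,0,0,0,0,0,0,0,0,0,0,0,0,0] [2,3,4,5] [0,1]))) (.deg 12))) (.far 7 11)) (.far 7 10)) (.far 7 8)))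

theorem ok180 : chkA tbl q180 c180 q180.rt [] [] = true := by decide +kernel

def c181 : CA := .split (.split (.split (.split (.split (.fin (.split .big (.deg 12))) (.fin (.split (.split .big (.iso 200 [0,2,1,3,4,5,6,7,8,9,11,10,12] [0,2,1,3,4,5,6,7,8,9,11,10,12])) (.deg 12)))) (.split (.fin (.split (.split .big (.deg 10)) (.deg 12))) (.far 10 11))) (.split (.split (.fin (.split (.split .big (.red [0,0,0,0,0,0,0,0,0,0,0,0,0,0,0,2,0] [0,2,3,4,5] [1])) (.deg 12))) (.far 9 11)) (.split (.fin (.split (.split (.split .big (.red [0,0,0,0,0,0,0,0,0,0,0,0,0,0,0,2,0,0] [0,2,3,4,5] [1])) (.deg 10)) (.deg 12))) (.far 10 11)))) (.split (.split (.split (.fin (.split (.split .big (.red [2,2,1,2,2,1,2,2,1,1,2,2,2,0,0,0,0] [0,1,3,4,5] [2])) (.deg 12))) (.pet [[0],[1],[7,12],[11],[2,4],[3],[8],[5],[9],[6]])) (.split (.pet [[0],[1],[7],[4,10,11,12],[2],[3],[8],[5],[9],[6]]) (.far 10 11))) (.split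 (.split (.fin (.split (.split (.split .big (.red [2,2,2,2,2,2,2,2,2,2,2,1,1,0,0,0,0,0] [0,1,3,4,5] [2])) (.split (.red [0,0,2,0,0,0,0,0,0,0,0,0,0,0,0,0,0,0] [0,2,3,4,5] [1]) (.red [2,0,0,0,0,0,0,0,0,0,0,0,0,0,0,0,0,0] [0,3,4,5] [1,2]))) (.deg 12))) (.far 9 11)) (.split (.pet [[0],[1],[7],[12],[2,4,10],[3],[8],[5],[9],[6]]) (.far 10 11))))) (.split (.split (.split (.split (.fin (.split (.split .big (.red [0,2,0,0,0,0,0,0,0,0,0,0,0,0,0,0,0] [1,2,3,4,5] [0])) (.deg 12))) (.fin (.split (.split (.split .big (.red [0,2,0,0,0,0,0,0,0,0,0,0,0,0,0,0,0,0] [1,2,3,4,5] [0])) (.split (.red [0,2,0,0,0,0,0,0,0,0,0,0,0,0,0,0,0,0] [0,1,2,3,4] [5]) (.red [0,2,0,0,0,0,0,0,0,0,0,0,0,0,0,0,0,0] [1,2,3,4] [0,5]))) (.deg 12)))) (.split (.fin (.split (.split (.split .big (.red [0,2,0,0,0,0,0,0,0,0,0,0,0,0,0,0,0,0] [1,2,3,4,5] [0])) (.deg 10)) (.deg 12))) (.far 10 11))) (.far 6 9)) (.far 6 7))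

theorem ok181 : chkA tbl q181 c181 q181.rt [] [] = true := by decide +kernel

end Pool.Agent.TH395.P5
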