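import Pool.Agent.TH395.P5.Tab

set_option autoImplicit false
set_option maxRecDepth 100000

/-! # Certificates, part 13 -/

namespace Pool.Agent.TH395.P5

def c193 : CA := .split (.split (.split (.split (.split (.fin (.split .big (.deg 12))) (.fin (.split (.split .big (.iso 209 [1,0,2,3,5,4,6,7,8,9,11,10,12] [1,0,2,3,5,4,6,7,8,9,11,10,12])) (.deg 12)))) (.split (.fin (.split (.split .big (.deg 10)) (.deg 12))) (.far 10 11))) (.split (.split (.fin (.split (.split .big (.red [0,0,0,0,0,0,0,0,0,0,0,0,0,0,2,0] [0,1,2,4,5] [3])) (.deg 12))) (.far 9 11)) (.split (.fin (.split (.split (.split .big (.red [0,0,0,0,0,0,0,0,0,0,0,0,0,0,2,0,0] [0,1,2,4,5] [3])) (.deg 10)) (.deg 12))) (.far 10 11)))) (.split (.split (.split (.fin (.split (.split .big (.red [2,2,2,2,2,1,2,2,2,2,1,1,2,0,2,0] [0,1,3,4,5] [2])) (.deg 12))) (.fin (.split (.split (.split .big (.red [0,0,0,0,0,0,0,0,0,0,0,0,0,2,0,0,0]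 [0,1,3,4,5] [2])) (.split (.red [0,0,0,0,0,0,2,0,0,0,0,0,0,0,0,0,0] [0,1,2,3,5] [4]) (.red [2,0,0,0,0,0,0,0,0,0,0,0,0,0,0,0,0] [0,1,3,5] [2,4]))) (.deg 12)))) (.split (.fin (.split (.split (.split .big (.red [0,0,0,0,0,0,0,0,0,0,0,0,0,0,1,1,0] [0,1,3,4,5] [2])) (.deg 10)) (.deg 12))) (.far 10 11))) (.far 8 9))) (.split (.split (.split (.split (.fin (.split (.split .big (.deg 7)) (.deg 12))) (.fin (.split (.split (.split .big (.deg 7)) (.split (.iso 201 [1,0,3,2,5,4,6,8,9,11,10,7,12] [1,0,3,2,5,4,6,11,7,8,10,9,12]) (.deg 7))) (.deg 12)))) (.split (.fin (.split (.split (.split .big (.deg 7)) (.deg 10)) (.deg 12))) (.far 10 11))) (.split (.split (.fin (.split (.split (.split .big (.deg 7)) (.split (.red [0,0,0,0,0,0,0,0,0,0,0,0,0,0,2,0,0] [0,1,2,4,5] [3]) (.deg 7))) (.deg 12))) (.far 9 11)) (.split (.fin (.split (.split (.split (.split .big (.deg 7)) (.split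 (.red [0,0,0,0,0,0,2,0,0,0,0,0,0,0,0,0,0,0] [0,1,2,4,5] [3]) (.deg 7))) (.deg 10)) (.split (.split (.split (.red [0,0,0,0,0,0,0,0,0,0,0,0,0,0,2,0,0,0] [0,1,2,3,4] [5]) (.deg 7)) (.split (.red [0,0,0,0,0,0,2,0,0,0,0,0,0,0,0,0,0,0] [0,1,2,4] [3,5]) (.deg 7))) (.deg 10)))) (.far 10 11)))) (.split (.split (.split (.fin (.split (.split (.split .big (.deg 7)) (.split (.red [0,0,0,0,0,0,0,0,0,0,0,0,0,0,0,0,2] [0,1,3,4,5] [2]) (.deg 7))) (.deg 12))) (.pet [[0],[1,5],[3],[4],[2,7],[6],[11],[8],[9],[12]])) (.split (.pet [[0],[1],[3],[4],[2,7],[6],[5,10,11],[8],[9],[12]]) (.far 10 11))) (.far 8 9)))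

theorem ok193 : chkA tbl q193 c193 q193.rt [] [] = true := by decide +kernel

def c194 : CA := .split (.split (.split (.split (.split (.fin (.split .big (.deg 12))) (.fin (.split (.split .big (.iso 210 [1,0,2,3,5,4,6,7,8,9,11,10,12] [1,0,2,3,5,4,6,7,8,9,11,10,12])) (.deg 12)))) (.split (.fin (.split (.split .big (.deg 10)) (.deg 12))) (.far 10 11))) (.split (.split (.fin (.split (.split .big (.red [2,2,2,2,2,0,2,0,2,2,1,1,0,0,0,2] [0,1,2,3,5] [4])) (.deg 12))) (.far 9 11)) (.split (.fin (.split (.split (.split .big (.red [2,2,2,2,2,0,2,0,2,2,1,1,0,0,2,0,0] [0,1,2,3,5] [4])) (.deg 10)) (.deg 12))) (.far 10 11)))) (.split (.split (.split (.fin (.split (.split .big (.red [1,2,2,1,2,2,2,2,2,1,1,0,0,0,0,0] [0,1,3,4,5] [2])) (.deg 12))) (.fin (.split (.split (.split .big (.red [2,2,2,2,2,0,2,0,2,2,1,1,0,0,2,0,0] [0,1,3,4,5] [2])) (.split (.red [2,2,2,2,2,0,2,0,2,2,1,1,0,0,2,0,0]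 [0,1,2,4,5] [3]) (.red [2,2,2,2,2,1,2,0,2,2,2,2,0,2,0,2,1] [0,1,4,5] [2,3]))) (.deg 12)))) (.split (.fin (.split (.split (.split .big (.red [2,2,2,2,2,1,2,0,2,2,2,2,0,2,0,2,1] [0,1,3,4,5] [2])) (.deg 10)) (.deg 12))) (.far 10 11))) (.far 8 9))) (.split (.split (.split (.split (.fin (.split (.split .big (.deg 7)) (.deg 12))) (.fin (.split (.split (.split .big (.deg 7)) (.split (.red [1,2,2,1,2,2,2,0,2,1,1,2,0,0,0,0,0] [0,1,2,4,5] [3]) (.deg 7))) (.deg 12)))) (.split (.fin (.split (.split (.split .big (.deg 7)) (.deg 10)) (.deg 12))) (.far 10 11))) (.split (.split (.fin (.split (.split (.split .big (.deg 7)) (.split (.red [0,0,0,0,0,0,0,0,0,0,0,0,0,0,0,2,0] [0,1,2,3,5] [4]) (.deg 7))) (.deg 12))) (.far 9 11)) (.split (.fin (.split (.split (.split (.split .big (.deg 7)) (.split (.red [0,0,0,0,0,0,0,0,0,0,0,0,0,0,0,0,2,0] [0,1,2,3,5] [4]) (.deg 7))) (.deg 10))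 (.split (.split (.split (.red [0,0,0,0,0,0,0,0,0,0,0,0,0,0,0,0,2,0] [0,1,2,3,4] [5]) (.deg 7)) (.split (.red [0,0,2,0,0,0,0,0,0,0,0,0,0,0,0,0,0,0] [0,1,2,3] [4,5]) (.deg 7))) (.deg 10)))) (.far 10 11)))) (.split (.split (.split (.fin (.split (.split (.split .big (.deg 7)) (.split (.red [2,2,2,2,2,1,2,2,2,2,2,2,2,0,1,0,0] [0,1,3,4,5] [2]) (.deg 7))) (.deg 12))) (.fin (.split (.split (.split (.split .big (.deg 7)) (.split (.red [2,0,0,0,0,0,0,0,0,0,0,0,0,0,0,0,0,0] [0,1,3,4,5] [2]) (.deg 7))) (.split (.split (.red [2,0,0,0,0,0,0,0,0,0,0,0,0,0,0,0,0,0] [0,1,2,4,5] [3]) (.deg 7)) (.split (.red [2,0,0,0,0,0,0,0,0,0,0,0,0,0,0,0,0,0] [0,1,4,5] [2,3]) (.deg 7)))) (.split (.split (.split (.red [2,0,0,0,0,0,0,0,0,0,0,0,0,0,0,0,0,0] [0,1,2,3,4] [5]) (.deg 7)) (.split (.red [2,0,0,0,0,0,0,0,0,0,0,0,0,0,0,0,0,0] [0,1,3,4] [2,5]) (.deg 7))) (.split (.split (.red [2,0,0,0,0,0,0,0,0,0,0,0,0,0,0,0,0,0]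 [0,1,2,4] [3,5]) (.deg 7)) (.split (.clo 0 1 (.deg 10)) (.deg 7))))))) (.split (.fin (.split (.split (.split (.split .big (.deg 7)) (.split (.red [2,0,0,0,0,0,0,0,0,0,0,0,0,0,0,0,0,0] [0,1,3,4,5] [2]) (.deg 7))) (.deg 10)) (.split (.split (.split (.red [2,0,0,0,0,0,0,0,0,0,0,0,0,0,0,0,0,0] [0,1,2,3,4] [5]) (.deg 7)) (.split (.red [0,0,0,0,0,0,0,0,2,0,0,0,0,0,0,0,0,0] [0,1,3,4] [2,5]) (.deg 7))) (.deg 10)))) (.far 10 11))) (.far 8 9)))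

theorem ok194 : chkA tbl q194 c194 q194.rt [] [] = true := by decide +kernel

def c195 : CA := .split (.split (.split (.split (.split (.fin (.split .big (.deg 12))) (.fin (.split (.split .big (.deg 11)) (.deg 12)))) (.split (.fin (.split (.split .big (.red [0,0,0,0,0,0,0,0,0,0,0,0,0,2,0,0] [0,1,3,4,5] [2])) (.deg 12))) (.far 9 11))) (.split (.split (.fin (.split (.split .big (.iso 209 [2,0,1,3,8,4,5,6,7,9,10,12,11] [1,2,0,3,5,6,7,8,4,9,10,12,11])) (.deg 12))) (.far 8 11)) (.far 8 9))) (.split (.split (.split (.fin (.split (.split .big (.red [2,2,2,2,2,2,2,2,2,1,1,1,2,2,0,0] [0,2,3,4,5] [1])) (.deg 12))) (.fin (.split (.split (.split .big (.red [2,2,2,2,2,2,2,2,2,1,1,1,2,2,0,0,0] [0,2,3,4,5] [1])) (.deg 11)) (.deg 12)))) (.far 7 9)) (.split (.split (.fin (.split (.split (.split .big (.red [2,2,2,2,2,2,2,2,2,1,1,1,2,2,0,0,0] [0,2,3,4,5] [1])) (.split (.red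 [1,2,0,2,2,0,0,0,0,2,1,0,1,0,2,0,0] [0,1,2,4,5] [3]) (.red [0,0,0,0,0,0,0,0,0,0,0,0,0,2,0,0,0] [0,2,4,5] [1,3]))) (.deg 12))) (.far 8 11)) (.far 8 9)))) (.split (.split (.split (.split (.fin (.split (.split .big (.deg 6)) (.deg 12))) (.fin (.split (.split (.split .big (.deg 6)) (.deg 11)) (.deg 12)))) (.split (.fin (.split (.split (.split .big (.deg 6)) (.split (.red [0,0,0,0,0,0,0,0,0,0,0,0,0,2,0,0,0] [0,1,3,4,5] [2]) (.deg 6))) (.deg 12))) (.far 9 11))) (.split (.split (.fin (.split (.split (.split .big (.deg 6)) (.split (.red [0,0,0,0,0,0,0,0,0,0,0,0,2,1,0,0,1] [0,1,2,4,5] [3]) (.deg 6))) (.deg 12))) (.far 8 11)) (.far 8 9))) (.split (.split (.split (.fin (.split (.split (.split .big (.deg 6)) (.split (.red [0,0,0,0,0,0,0,0,0,0,0,0,0,0,0,0,2] [0,2,3,4,5] [1]) (.deg 6))) (.deg 12))) (.pet [[0],[1,6],[4],[3],[2,8],[5],[12],[9],[7],[10,11]])) (.far 7 9)) (.split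 (.split (.pet [[0],[1,6],[4],[3],[2],[5],[12],[9],[7],[8,10]]) (.far 8 11)) (.far 8 9))))

theorem ok195 : chkA tbl q195 c195 q195.rt [] [] = true := by decide +kernel

def c196 : CA := .split (.split (.split (.split (.split (.fin (.split .big (.deg 12))) (.fin (.split (.split .big (.deg 11)) (.deg 12)))) (.split (.fin (.split (.split .big (.red [2,2,2,2,2,2,0,2,2,2,2,0,1,1,2,0,0] [0,1,2,3,4] [5])) (.deg 12))) (.far 10 11))) (.split (.split (.fin (.split (.split .big (.red [2,0,0,0,0,0,0,0,0,0,0,0,0,0,0,0,0] [0,1,2,4,5] [3])) (.deg 12))) (.fin (.split (.split (.split .big (.red [2,0,0,0,0,0,0,0,0,0,0,0,0,0,0,0,0,0] [0,1,2,4,5] [3])) (.deg 11)) (.deg 12)))) (.far 8 10))) (.split (.split (.split (.fin (.split (.split .big (.red [2,2,2,2,2,2,0,1,1,2,2,2,2,2,0,0,0] [0,2,3,4,5] [1])) (.deg 12))) (.far 7 11)) (.far 7 10)) (.far 7 8))) (.split (.split (.split (.split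 (.fin (.split (.split .big (.deg 6)) (.deg 12))) (.pet [[0],[1,6,12],[4],[3],[2],[5],[9,11],[8],[7],[10]])) (.split (.fin (.split (.split (.split .big (.deg 6)) (.split (.red [0,2,0,0,0,0,0,0,0,0,0,0,0,0,0,0,0,0] [0,1,2,3,4] [5]) (.deg 6))) (.deg 12))) (.far 10 11))) (.split (.split (.fin (.split (.split (.split .big (.deg 6)) (.split (.red [2,0,0,0,0,0,0,0,0,0,0,0,0,0,0,0,0,0] [0,1,2,4,5] [3]) (.deg 6))) (.deg 12))) (.pet [[0],[1,6,12],[4],[3],[2],[5],[9,11],[8],[7],[10]])) (.far 8 10))) (.split (.split (.split (.fin (.split (.split (.split .big (.deg 6)) (.split (.red [0,0,0,0,0,0,0,2,0,0,0,0,0,0,0,0,0,0] [0,2,3,4,5] [1]) (.deg 6))) (.deg 12))) (.far 7 11)) (.far 7 10)) (.far 7 8)))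

theorem ok196 : chkA tbl q196 c196 q196.rt [] [] = true := by decide +kernel

def c197 : CA := .split (.split (.split (.split (.split (.fin (.split .big (.deg 12))) (.fin (.split (.split .big (.iso 205 [0,2,1,3,4,5,10,7,6,8,11,9,12] [0,2,1,3,4,5,8,7,9,11,6,10,12])) (.deg 12)))) (.split (.fin (.split (.split .big (.iso 207 [2,0,3,1,4,10,5,6,7,8,9,11,12] [1,3,0,2,4,6,7,8,9,10,5,11,12])) (.deg 12))) (.far 10 11))) (.split (.split (.fin (.split (.split .big (.red [0,0,0,0,0,2,0,0,0,0,0,0,0,0,0,0,0] [0,2,3,4,5] [1])) (.deg 12))) (.far 8 11)) (.split (.fin (.split (.split (.split .big (.red [0,0,0,0,0,2,0,0,0,0,0,0,0,0,0,0,0,0] [0,2,3,4,5] [1])) (.split (.red [0,0,0,0,0,0,0,0,0,0,0,0,0,0,0,0,0,2] [0,1,2,3,4] [5]) (.red [0,0,0,0,0,2,0,0,0,0,0,0,0,0,0,0,0,0] [0,2,3,4] [1,5]))) (.deg 12))) (.far 10 11)))) (.split (.split (.split (.fin (.split (.split .big (.red [1,2,1,2,2,2,2,1,2,1,2,0,0,0,0,0,0]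 [0,1,2,4,5] [3])) (.deg 12))) (.far 7 11)) (.split (.fin (.split (.split (.split .big (.red [0,0,0,0,0,2,0,0,0,0,0,0,0,0,0,0,0,0] [0,1,2,4,5] [3])) (.split (.red [0,0,0,0,0,2,0,0,0,0,0,0,0,0,0,0,0,0] [0,1,2,3,4] [5]) (.red [0,0,0,0,0,2,0,0,0,0,0,0,0,0,0,0,0,0] [0,1,2,4] [3,5]))) (.deg 12))) (.far 10 11))) (.far 7 8))) (.split (.split (.split (.split (.fin (.split (.split .big (.red [2,1,2,1,2,2,1,2,0,2,1,0,0,0,0,0,2] [1,2,3,4,5] [0])) (.deg 12))) (.fin (.split (.split (.split .big (.red [0,0,0,0,0,2,0,0,0,0,0,0,0,0,0,0,0,0] [1,2,3,4,5] [0])) (.split (.red [0,0,0,0,0,2,0,0,0,0,0,0,0,0,0,0,0,0] [0,1,3,4,5] [2]) (.red [0,0,2,0,0,0,0,0,0,0,0,0,0,0,0,0,0,0] [1,3,4,5] [0,2]))) (.deg 12)))) (.split (.fin (.split (.split (.split .big (.red [0,2,0,0,0,0,0,0,0,0,0,0,0,0,0,0,0,0] [1,2,3,4,5] [0])) (.split (.red [0,2,0,0,0,0,0,0,0,0,0,0,0,0,0,0,0,0] [0,1,2,3,4] [5]) (.red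 [0,0,2,0,0,0,0,0,0,0,0,0,0,0,0,0,0,0] [1,2,3,4] [0,5]))) (.deg 12))) (.far 10 11))) (.far 6 8)) (.split (.split (.split (.pet [[0],[1],[4],[3],[2,10,11],[5],[7],[8],[6,12],[9]]) (.far 7 11)) (.split (.pet [[0],[1,7],[4],[3],[2],[5],[12],[8,9,11],[6],[10]]) (.far 10 11))) (.far 7 8)))

theorem ok197 : chkA tbl q197 c197 q197.rt [] [] = true := by decide +kernel

def c198 : CA := .split (.split (.split (.split (.split (.fin (.split .big (.deg 12))) (.fin (.split (.split .big (.deg 11)) (.deg 12)))) (.split (.fin (.split (.split .big (.red [0,0,0,0,0,0,0,0,0,0,0,0,0,0,2,0,0] [0,1,2,3,4] [5])) (.deg 12))) (.far 10 11))) (.split (.split (.fin (.split (.split .big (.red [2,0,0,0,0,0,0,0,0,0,0,0,0,0,0,0,0] [0,2,3,4,5] [1])) (.deg 12))) (.fin (.split (.split (.split .big (.red [2,0,0,0,0,0,0,0,0,0,0,0,0,0,0,0,0,0] [0,2,3,4,5] [1])) (.deg 11)) (.deg 12)))) (.far 8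 10))) (.split (.split (.split (.fin (.split (.split .big (.iso 203 [1,0,4,2,7,3,5,6,8,9,12,10,11] [1,0,3,5,2,6,7,4,8,9,11,12,10])) (.deg 12))) (.far 7 11)) (.far 7 10)) (.split (.split (.fin (.split (.split (.split .big (.red [2,0,0,0,0,0,0,0,0,0,0,0,0,0,0,0,0,0] [0,1,2,4,5] [3])) (.split (.red [2,0,0,0,0,0,0,0,0,0,0,0,0,0,0,0,0,0] [0,2,3,4,5] [1]) (.red [2,0,0,0,0,0,0,0,0,0,0,0,0,0,0,0,0,0] [0,2,4,5] [1,3]))) (.deg 12))) (.far 7 11)) (.far 8 10)))) (.split (.split (.split (.split (.fin (.split (.split .big (.red [2,2,2,2,2,2,2,2,2,1,1,0,1,2,0,0,0] [1,2,3,4,5] [0])) (.deg 12))) (.pet [[0],[1,7],[4],[3],[2],[5],[9,11],[8],[6,12],[10]])) (.split (.fin (.split (.split (.split .big (.red [2,2,2,2,2,2,2,2,1,2,2,0,2,0,1,2,0,0] [1,2,3,4,5] [0])) (.split (.red [0,2,0,0,0,0,0,0,0,0,0,0,0,0,0,0,0,0] [0,1,2,3,4] [5]) (.red [0,0,2,0,0,0,0,0,0,0,0,0,0,0,0,0,0,0] [1,2,3,4]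 [0,5]))) (.deg 12))) (.far 10 11))) (.far 6 8)) (.split (.split (.split (.pet [[0],[1],[4],[3],[2],[5],[7,9],[8],[6,12],[10]]) (.far 7 11)) (.far 7 10)) (.far 6 8)))

theorem ok198 : chkA tbl q198 c198 q198.rt [] [] = true := by decide +kernel

def c199 : CA := .split (.split (.split (.split (.split (.fin (.split .big (.deg 12))) (.fin (.split (.split .big (.red [2,2,1,1,2,1,0,2,2,2,2,0,0,0,2,1,2] [0,1,2,3,5] [4])) (.deg 12)))) (.split (.fin (.split (.split .big (.deg 10)) (.deg 12))) (.pet [[0],[1,6],[4],[3],[2],[5],[9,10,12],[8],[7],[11]]))) (.split (.split (.fin (.split (.split .big (.red [2,0,0,0,0,0,0,0,0,0,0,0,0,0,0,0,0] [0,1,2,4,5] [3])) (.deg 12))) (.far 8 11)) (.split (.fin (.split (.split (.split .big (.red [2,0,0,0,0,0,0,0,0,0,0,0,0,0,0,0,0,0] [0,1,2,4,5] [3])) (.deg 10)) (.deg 12))) (.far 8 11)))) (.split (.split (.split (.fin (.split (.split .big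 (.red [0,0,0,0,0,0,0,0,0,0,0,0,2,0,0,0,0] [0,2,3,4,5] [1])) (.deg 12))) (.fin (.split (.split (.split .big (.red [0,0,0,0,0,0,0,2,0,0,0,0,0,0,0,0,0,0] [0,2,3,4,5] [1])) (.split (.red [2,2,2,2,2,2,2,1,1,2,2,0,0,0,2,2,0,0] [0,1,2,3,5] [4]) (.red [0,0,2,0,0,0,0,0,0,0,0,0,0,0,0,0,0,0] [0,2,3,5] [1,4]))) (.deg 12)))) (.far 7 10)) (.far 7 8))) (.split (.split (.split (.split (.fin (.split (.split .big (.iso 204 [1,0,4,2,6,3,5,7,8,9,12,10,11] [1,0,3,5,2,6,4,7,8,9,11,12,10])) (.deg 12))) (.pet [[0],[1],[4],[3],[2],[5],[6,9,12],[8],[7],[11]])) (.far 6 10)) (.split (.split (.fin (.split (.split (.split .big (.red [2,0,0,0,0,0,0,0,0,0,0,0,0,0,0,0,0,0] [1,2,3,4,5] [0])) (.split (.red [2,0,0,0,0,0,0,0,0,0,0,0,0,0,0,0,0,0] [0,1,2,4,5] [3]) (.red [2,0,0,0,0,0,0,0,0,0,0,0,0,0,0,0,0,0] [1,2,4,5] [0,3]))) (.deg 12))) (.far 8 11)) (.far 6 10))) (.far 6 7))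

theorem ok199 : chkA tbl q199 c199 q199.rt [] [] = true := by decide +kernel

def c200 : CA := .split (.split (.split (.split (.split (.fin (.split .big (.deg 13))) (.fin (.split (.split .big (.deg 12)) (.deg 13)))) (.split (.fin (.split (.split .big (.deg 11)) (.deg 13))) (.fin (.split (.split (.split .big (.deg 11)) (.deg 12)) (.deg 13))))) (.split (.split (.fin (.split (.split .big (.red [0,0,0,0,0,0,0,0,0,0,0,0,0,0,2,0,0,0] [0,1,3,4,5] [2])) (.deg 13))) (.far 9 12)) (.split (.fin (.split (.split (.split .big (.red [0,0,0,0,0,0,0,0,0,0,0,0,0,0,2,0,0,0,0] [0,1,3,4,5] [2])) (.deg 11)) (.deg 13))) (.far 9 12)))) (.split (.split (.split (.fin (.split (.split .big (.red [2,2,1,2,2,1,2,2,1,1,2,2,2,0,0,0,0,0] [0,2,3,4,5] [1])) (.deg 13))) (.pet [[0],[1,4],[6],[8],[2],[3],[10,12],[5],[9],[7,13]])) (.split (.pet [[0],[1],[4,10,11,13],[7],[2],[3],[6],[9],[5],[8]])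 (.pet [[0],[1,4,11],[6],[8],[2],[3],[13],[5],[9,10,12],[7]]))) (.split (.split (.fin (.split (.split (.split .big (.red [2,2,2,2,2,2,2,2,2,2,2,1,1,0,0,0,0,0,0] [0,2,3,4,5] [1])) (.split (.red [0,0,2,0,0,0,0,0,0,0,0,0,0,0,0,0,0,0,0] [0,1,3,4,5] [2]) (.red [0,0,2,0,0,0,0,0,0,0,0,0,0,0,0,0,0,0,0] [0,3,4,5] [1,2]))) (.deg 13))) (.far 9 12)) (.split (.pet [[0],[1,4,11],[6],[8],[2],[3],[13],[5],[9],[7]]) (.far 9 12))))) (.split (.split (.split (.split (.fin (.split (.split .big (.red [2,0,0,0,0,0,0,0,0,0,0,0,0,0,0,0,0,0] [1,2,3,4,5] [0])) (.deg 13))) (.fin (.split (.split (.split .big (.red [2,0,0,0,0,0,0,0,0,0,0,0,0,0,0,0,0,0,0] [1,2,3,4,5] [0])) (.deg 12)) (.deg 13)))) (.split (.fin (.split (.split (.split .big (.red [2,0,0,0,0,0,0,0,0,0,0,0,0,0,0,0,0,0,0] [1,2,3,4,5] [0])) (.deg 11)) (.deg 13))) (.fin (.split (.split (.split (.split .big (.red [2,0,0,0,0,0,0,0,0,0,0,0,0,0,0,0,0,0,0,0]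 [1,2,3,4,5] [0])) (.deg 11)) (.deg 12)) (.split (.split (.split (.red [0,0,0,0,0,0,0,0,0,0,0,0,0,2,0,0,0,0,0,0] [0,1,2,4,5] [3]) (.red [2,0,0,0,0,0,0,0,0,0,0,0,0,0,0,0,0,0,0,0] [1,2,4,5] [0,3])) (.deg 11)) (.deg 12)))))) (.far 6 9)) (.far 6 7))

theorem ok200 : chkA tbl q200 c200 q200.rt [] [] = true := by decide +kernel

def c201 : CA := .split (.split (.split (.split (.split (.fin (.split .big (.deg 13))) (.fin (.split (.split .big (.iso 211 [0,1,4,2,3,5,6,7,11,8,9,12,10,13] [0,1,3,4,2,5,6,7,9,10,12,8,11,13])) (.deg 13)))) (.split (.fin (.split (.split .big (.red [2,1,1,2,2,2,0,0,0,1,0,0,0,0,2,2,1,2] [0,1,2,3,5] [4])) (.deg 13))) (.far 11 12))) (.split (.split (.fin (.split (.split .big (.deg 10)) (.deg 13))) (.fin (.split (.split (.split .big (.deg 10)) (.split (.red [0,0,0,2,0,0,0,0,0,0,0,0,0,1,0,2,0,1,2] [0,1,2,4,5] [3]) (.deg 10))) (.deg 13)))) (.split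 (.fin (.split (.split (.split .big (.deg 10)) (.split (.red [0,0,0,0,0,0,2,0,0,0,0,0,0,0,0,0,0,0,0] [0,1,2,3,5] [4]) (.deg 10))) (.deg 13))) (.far 11 12)))) (.split (.split (.split (.fin (.split (.split .big (.red [0,0,0,0,0,0,0,0,0,0,0,0,2,0,0,0,0,0] [0,1,3,4,5] [2])) (.deg 13))) (.far 8 12)) (.split (.fin (.split (.split (.split .big (.red [0,0,0,0,0,0,0,0,0,0,0,0,2,0,0,0,0,0,0] [0,1,3,4,5] [2])) (.split (.red [0,0,0,0,0,0,0,0,0,0,0,0,2,0,0,0,0,0,0] [0,1,2,3,5] [4]) (.red [0,0,2,0,0,0,0,0,0,0,0,0,0,0,0,0,0,0,0] [0,1,3,5] [2,4]))) (.deg 13))) (.far 11 12))) (.split (.split (.fin (.split (.split (.split .big (.red [0,0,0,0,0,0,2,0,0,0,0,0,0,0,0,0,0,0,0] [0,1,3,4,5] [2])) (.deg 10)) (.deg 13))) (.far 8 12)) (.split (.fin (.split (.split (.split (.split .big (.red [2,0,0,0,0,0,0,0,0,0,0,0,0,0,0,0,0,0,0,0] [0,1,3,4,5] [2])) (.deg 10)) (.split (.split (.red [2,0,0,0,0,0,0,0,0,0,0,0,0,0,0,0,0,0,0,0]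 [0,1,2,3,5] [4]) (.red [0,0,2,0,0,0,0,0,0,0,0,0,0,0,0,0,0,0,0,0] [0,1,3,5] [2,4])) (.deg 10))) (.split (.split (.split (.red [2,0,0,0,0,0,0,0,0,0,0,0,0,0,0,0,0,0,0,0] [1,2,3,4,5] [0]) (.red [2,0,0,0,0,0,0,0,0,0,0,0,0,0,0,0,0,0,0,0] [1,3,4,5] [0,2])) (.deg 10)) (.split (.split (.red [2,0,0,0,0,0,0,0,0,0,0,0,0,0,0,0,0,0,0,0] [1,2,3,5] [0,4]) (.clo 0 1 (.pet [[0,2,5,3],[4],[9],[8],[6,7],[11],[10],[12],[13],[14]]))) (.deg 10))))) (.far 11 12))))) (.split (.split (.split (.split (.fin (.split (.split .big (.red [2,2,2,1,2,2,2,2,2,1,1,2,2,0,0,0,0,2] [0,2,3,4,5] [1])) (.deg 13))) (.pet [[0,4],[1],[3,11],[5],[2],[9],[6],[12],[8],[7,13]])) (.split (.pet [[0,4],[1],[3],[5],[2],[9,12],[6],[11],[8],[7,13]]) (.far 11 12))) (.split (.split (.fin (.split (.split (.split .big (.red [2,2,2,2,2,2,2,2,2,2,2,2,0,1,0,0,0,0,1] [0,2,3,4,5] [1])) (.deg 10)) (.deg 13))) (.pet [[0,4],[1],[3,11],[5],[2],[9],[6],[12],[8],[7,13]]))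 (.split (.pet [[0,4],[1],[3],[5],[2],[9,12],[6],[11],[8],[7,13]]) (.far 11 12)))) (.far 7 8))

theorem ok201 : chkA tbl q201 c201 q201.rt [] [] = true := by decide +kernel

def c202 : CA := .split (.split (.split (.split (.split (.fin (.split .big (.deg 13))) (.fin (.split (.split .big (.deg 12)) (.deg 13)))) (.split (.fin (.split (.split .big (.deg 11)) (.deg 13))) (.fin (.split (.split (.split .big (.deg 11)) (.deg 12)) (.deg 13))))) (.split (.split (.fin (.split (.split .big (.red [1,2,2,2,2,1,2,1,2,0,2,1,0,0,0,0,0] [0,1,2,4,5] [3])) (.deg 13))) (.fin (.split (.split (.split .big (.red [2,2,2,1,2,2,2,2,2,0,2,2,2,1,2,0,0,0] [0,1,2,4,5] [3])) (.deg 12)) (.deg 13)))) (.split (.fin (.split (.split (.split .big (.red [2,2,2,1,2,2,2,2,2,0,2,2,2,0,0,0,2,1] [0,1,2,4,5] [3])) (.deg 11)) (.deg 13))) (.fin (.split (.split (.split (.split .big (.red [0,0,0,0,0,0,0,0,0,0,0,0,2,0,0,0,0,0,0]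 [0,1,2,4,5] [3])) (.deg 11)) (.deg 12)) (.split (.split (.split (.red [0,0,0,0,0,0,0,0,0,0,0,0,2,0,0,0,0,0,0] [1,2,3,4,5] [0]) (.red [0,0,0,0,0,0,0,0,0,0,0,0,2,0,0,0,0,0,0] [1,2,4,5] [0,3])) (.deg 11)) (.deg 12))))))) (.split (.split (.split (.fin (.split (.split .big (.red [2,1,1,2,2,2,2,0,1,2,1,0,0,0,0,0,0] [0,1,3,4,5] [2])) (.deg 13))) (.far 8 12)) (.split (.fin (.split (.split (.split .big (.red [2,1,1,2,2,2,2,0,1,2,1,0,0,0,0,0,0,0] [0,1,3,4,5] [2])) (.deg 11)) (.deg 13))) (.far 8 12))) (.split (.split (.fin (.split (.split (.split .big (.red [2,2,2,1,2,2,2,2,2,2,2,0,2,1,2,0,0,0] [0,1,3,4,5] [2])) (.split (.red [2,2,2,1,2,2,2,2,2,0,2,2,2,1,2,0,0,0] [0,1,2,4,5] [3]) (.red [0,0,0,0,2,0,0,0,0,0,0,0,0,0,0,0,0,0] [0,1,4,5] [2,3]))) (.deg 13))) (.far 8 12)) (.split (.fin (.split (.split (.split (.split .big (.red [0,0,0,0,0,0,2,0,0,0,0,0,0,0,0,0,0,0,0] [0,1,3,4,5]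 [2])) (.split (.red [2,0,0,0,0,0,0,0,0,0,0,0,0,0,0,0,0,0,0] [0,1,2,4,5] [3]) (.red [0,0,2,0,0,0,0,0,0,0,0,0,0,0,0,0,0,0,0] [0,1,4,5] [2,3]))) (.deg 11)) (.split (.split (.split (.red [0,0,0,0,0,0,2,0,0,0,0,0,0,0,0,0,0,0,0] [1,2,3,4,5] [0]) (.red [0,0,0,0,0,0,2,0,0,0,0,0,0,0,0,0,0,0,0] [1,3,4,5] [0,2])) (.split (.red [2,0,0,0,0,0,0,0,0,0,0,0,0,0,0,0,0,0,0] [1,2,4,5] [0,3]) (.clo 0 1 (.deg 12)))) (.deg 11)))) (.far 8 12))))) (.split (.split (.split (.split (.fin (.split (.split .big (.red [1,2,2,2,2,1,2,1,2,0,0,1,0,0,0,0,2] [0,2,3,4,5] [1])) (.deg 13))) (.fin (.split (.split (.split .big (.red [2,2,2,2,2,2,2,2,2,1,2,2,1,2,0,0,0,0] [0,2,3,4,5] [1])) (.deg 12)) (.deg 13)))) (.split (.fin (.split (.split (.split .big (.red [2,1,1,2,2,2,2,2,1,2,1,0,0,0,0,0,0,0] [0,2,3,4,5] [1])) (.deg 11)) (.deg 13))) (.fin (.split (.split (.split (.split .big (.red [2,2,2,2,2,2,2,2,2,1,2,2,1,2,0,0,0,0,0]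 [0,2,3,4,5] [1])) (.deg 11)) (.deg 12)) (.split (.split (.split (.red [0,0,0,2,0,0,2,0,0,0,0,0,0,0,1,0,2,2,1] [1,2,3,4,5] [0]) (.red [0,0,0,0,2,0,0,0,0,0,0,0,0,0,0,0,0,0,0] [2,3,4,5] [0,1])) (.deg 11)) (.deg 12)))))) (.far 7 9)) (.split (.split (.split (.fin (.split (.split (.split .big (.red [0,0,0,0,0,0,0,0,0,0,0,0,0,0,0,0,2,0] [0,2,3,4,5] [1])) (.split (.red [0,0,0,2,0,0,0,0,0,0,0,0,1,2,0,0,0,1] [0,1,3,4,5] [2]) (.red [0,0,0,0,0,0,0,0,0,0,0,0,0,0,0,0,2,0] [0,3,4,5] [1,2]))) (.deg 13))) (.far 8 12)) (.split (.fin (.split (.split (.split (.split .big (.red [0,0,0,0,0,0,0,0,0,0,0,0,0,0,0,0,0,2,0] [0,2,3,4,5] [1])) (.split (.red [0,0,0,0,0,0,0,0,0,0,0,0,0,0,0,0,0,2,0] [0,1,3,4,5] [2]) (.red [0,0,0,0,0,0,0,0,0,0,0,0,0,0,0,0,0,2,0] [0,3,4,5] [1,2]))) (.deg 11)) (.split (.split (.split (.red [0,0,0,0,0,0,0,0,0,0,0,0,0,0,0,0,0,2,0] [1,2,3,4,5] [0]) (.red [0,0,0,0,0,0,0,0,0,0,0,0,0,0,0,0,0,2,0]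 [2,3,4,5] [0,1])) (.split (.red [0,0,2,0,0,0,0,0,0,0,0,0,0,0,0,0,0,0,0] [1,3,4,5] [0,2]) (.clo 0 1 (.deg 12)))) (.deg 11)))) (.far 8 12))) (.far 7 9)))

theorem ok202 : chkA tbl q202 c202 q202.rt [] [] = true := by decide +kernel

end Pool.Agent.TH395.P5
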