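import Pool.Agent.TH395.P5.Tab

set_option autoImplicit false
set_option maxRecDepth 100000

/-! # Certificates, part 15 -/

namespace Pool.Agent.TH395.P5

def c213 : CA := .split (.split (.split (.split (.split (.fin (.split .big (.deg 14))) (.fin (.split (.split .big (.deg 13)) (.deg 14)))) (.split (.fin (.split (.split .big (.deg 12)) (.deg 14))) (.fin (.split (.split (.split .big (.deg 12)) (.deg 13)) (.deg 14))))) (.split (.split (.fin (.split (.split .big (.red [0,0,0,0,0,0,0,0,0,0,0,0,0,0,2,0,0,0,0] [0,1,2,3,4] [5])) (.deg 14))) (.fin (.split (.split (.split .big (.red [0,0,0,0,0,0,0,0,0,0,0,0,0,0,2,0,0,0,0,0] [0,1,2,3,4] [5])) (.deg 13)) (.deg 14)))) (.split (.fin (.split (.split (.split .big (.red [0,0,0,0,0,0,0,0,0,0,0,0,0,0,2,0,0,0,0,0] [0,1,2,3,4] [5])) (.deg 12)) (.deg 14))) (.fin (.split (.split (.split (.split .big (.red [0,0,0,2,0,0,0,0,0,0,0,0,0,0,0,0,0,0,0,0,0]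 [0,1,2,3,4] [5])) (.deg 12)) (.deg 13)) (.split (.split (.split (.red [0,0,0,0,0,0,0,0,0,0,0,0,2,0,0,0,0,0,0,0,0] [1,2,3,4,5] [0]) (.red [0,0,0,2,0,0,0,0,0,0,0,0,0,0,0,0,0,0,0,0,0] [1,2,3,4] [0,5])) (.deg 12)) (.deg 13))))))) (.split (.split (.split (.fin (.split (.split .big (.red [2,2,2,2,2,2,2,1,2,2,1,1,0,2,2,0,0,0,0] [0,1,2,4,5] [3])) (.deg 14))) (.pet [[0,2],[1],[3,7],[5],[4],[10,13],[6],[11],[8,14],[9]])) (.split (.pet [[0],[1],[3,7],[11],[2,10,12,14],[4],[6],[5],[9],[8]]) (.pet [[0,2,12],[1],[3,7],[5],[4],[14],[6],[10,11,13],[8],[9]]))) (.far 8 9))) (.split (.split (.split (.split (.fin (.split (.split .big (.red [1,2,2,2,1,2,0,2,0,0,1,0,1,0,0,2,2,0,0] [0,2,3,4,5] [1])) (.deg 14))) (.fin (.split (.split (.split .big (.red [0,0,0,0,0,0,0,2,0,0,0,0,2,0,0,0,0,1,2,1] [0,2,3,4,5] [1])) (.deg 13)) (.deg 14)))) (.split (.fin (.split (.split (.split .big (.red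 [0,0,0,0,0,0,2,0,0,0,0,0,0,0,0,0,0,0,0,0] [0,2,3,4,5] [1])) (.deg 12)) (.deg 14))) (.fin (.split (.split (.split (.split .big (.red [0,0,2,0,0,0,0,0,0,0,0,0,0,0,0,0,0,0,0,0,0] [0,2,3,4,5] [1])) (.deg 12)) (.deg 13)) (.split (.split (.split (.red [0,0,0,0,0,0,0,0,0,0,0,0,2,0,0,0,0,0,0,0,0] [1,2,3,4,5] [0]) (.red [0,0,2,0,0,0,0,0,0,0,0,0,0,0,0,0,0,0,0,0,0] [2,3,4,5] [0,1])) (.deg 12)) (.deg 13)))))) (.far 7 9)) (.split (.split (.split (.fin (.split (.split (.split .big (.red [0,0,0,0,0,0,0,0,0,0,0,0,0,0,2,0,0,0,0,0] [0,2,3,4,5] [1])) (.split (.red [2,1,2,2,2,2,2,0,2,2,2,2,2,0,0,1,2,0,0,0] [0,1,2,4,5] [3]) (.red [0,0,0,0,0,0,0,0,0,0,0,0,0,0,2,0,0,0,0,0] [0,2,4,5] [1,3]))) (.deg 14))) (.pet [[0,2],[1],[3,7],[5],[4],[10,13],[6],[11],[8,14],[9]])) (.split (.pet [[0,2,12],[1],[3],[5],[4],[14],[6],[7,11],[8],[9]]) (.pet [[0,2,12],[1],[3,7],[5],[4],[14],[6],[10,11,13],[8],[9]])))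 (.far 8 9)))

theorem ok213 : chkA tbl q213 c213 q213.rt [] [] = true := by decide +kernel

end Pool.Agent.TH395.P5
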