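import Pool.Agent.TH395.P5.Step
import Pool.Agent.TH497.PW.Main

set_option autoImplicit false

/-! # Statements: the main induction and the final form -/

namespace Pool.Agent.TH395.P5

open Finset Pool.Agent.TH462.T4 Pool.Agent.TH676.T4

/-- the main induction with a checked table as a hypothesis -/
def S_MAIN : Prop := ∀ tb : List QS, (∀ q ∈ tb, ∃ c, chkA tb q c q.rt [] [] = true) →
  (∃ q ∈ tb, q.n = 0 ∧ q.ops = [] ∧ q.rt = []) → (∀ q ∈ tb, q.rt = [] → q.n = 0) → Parts →
  ∀ (V E : Type) [Fintype V] [DecidableEq V] [Fintype E] [DecidableEq E] (src dst : E → V),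
    Pool.Agent.TH497.PW.HasPD 6 src dst → ¬ PetMinor src dst → Br src dst ∅ ∅ →
    FlowOn src dst ∅ ∅

/-- the theorem in terms of flows -/
def S_FINAL : Prop :=
  ∀ (V E : Type) [Fintype V] [DecidableEq V] [Fintype E] [DecidableEq E] (src dst : E → V),
    Pool.Agent.TH497.PW.HasPD 6 src dst → ¬ PetMinor src dst → Br src dst ∅ ∅ →
    FlowOn src dst ∅ ∅

/-! Self-contained final form. -/

/-- The vertices `x` and `y` are joined by an edge different from `e`. -/
def AdjWithout {V E : Type} (src dst : E → V) (e : E) (x y : V) : Prop :=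
  ∃ e', e' ≠ e ∧ ((src e' = x ∧ dst e' = y) ∨ (src e' = y ∧ dst e' = x))

/-- The edge `e` is an isthmus: its ends are not joined by a walk that avoids `e`. -/
def IsIsthmus {V E : Type} (src dst : E → V) (e : E) : Prop :=
  ¬ Relation.ReflTransGen (AdjWithout src dst e) (src e) (dst e)

/-- `C` is a cycle (a disjoint union of circuits): every vertex has even degree in `(V, C)`; a loop
counts twice. -/
def IsCycle {V E : Type} [DecidableEq V] (src dst : E → V) (C : Finset E) : Prop :=
  ∀ v : V, Even ((C.filter (fun e => src e = v)).card + (C.filter (fun e => dst e = v)).card)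

/-- `X 0, X 1, ...` is a path decomposition of width at most `w`: every edge has both ends in one
of the sets, every vertex lies in an interval of the sets, and the sets have at most `w + 1`
elements. -/
structure IsPathDecomposition {V E : Type} [DecidableEq V] (src dst : E → V) (w : ℕ)
    (X : ℕ → Finset V) : Prop where
  edge : ∀ e, ∃ i, src e ∈ X i ∧ dst e ∈ X i
  interval : ∀ i j k, i ≤ j → j ≤ k → X i ∩ X k ⊆ X j
  width : ∀ i, (X i).card ≤ w + 1

/-- The Petersen graph: the vertices are the `2`-element subsets of a `5`-element set, two of them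
being adjacent if they are disjoint. -/
def PetVertex : Type := {s : Finset (Fin 5) // s.card = 2}

/-- The vertices `x` and `y` lie in `B` and are joined by an edge. -/
def AdjIn {V E : Type} (src dst : E → V) (B : Set V) (x y : V) : Prop :=
  x ∈ B ∧ y ∈ B ∧ ∃ e, (src e = x ∧ dst e = y) ∨ (src e = y ∧ dst e = x)

/-- The multigraph has a Petersen minor: there are nonempty disjoint vertex sets `B s`, one for
each vertex `s` of the Petersen graph, such that any two vertices of `B s` are joined by a walk in
`B s`, and such that an edge joins `B s` and `B t` if `s` and `t` are adjacent. -/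
def HasPetersenMinor {V E : Type} (src dst : E → V) : Prop :=
  ∃ B : PetVertex → Set V, (∀ s, (B s).Nonempty) ∧
    (∀ s t, s ≠ t → Disjoint (B s) (B t)) ∧
    (∀ s, ∀ x ∈ B s, ∀ y ∈ B s, Relation.ReflTransGen (AdjIn src dst (B s)) x y) ∧
    ∀ s t : PetVertex, Disjoint s.1 t.1 →
      ∃ e, (src e ∈ B s ∧ dst e ∈ B t) ∨ (src e ∈ B t ∧ dst e ∈ B s)

/-- the self-contained final form -/
def S_RES : Prop :=
  ∀ (V E : Type) [Fintype V] [DecidableEq V] [Fintype E] [DecidableEq E] (src dst : E → V)
    (X : ℕ → Finset V), IsPathDecomposition src dst 5 X → (∀ e, ¬ IsIsthmus src dst e) →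
    ¬ HasPetersenMinor src dst →
    ∃ C₁ C₂ : Finset E, IsCycle src dst C₁ ∧ IsCycle src dst C₂ ∧ C₁ ∪ C₂ = Finset.univ

/-- the translation -/
def S_TRANS : Prop := S_FINAL → S_RES

end Pool.Agent.TH395.P5
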